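import Mathlib

/-!
MP_079fc8_co.  The symmetry group of the alcoved triangulation of the hypersimplex.
-/

namespace Pool.Agent.Results.MP_079fc8_co.AlcovedSymmetry

open Finset

/-- The hypersimplex: the points of the unit cube whose coordinates have sum `k`. -/
def hypersimplex (k n : ℕ) : Set (Fin n → ℝ) :=
  {x | (∀ i, 0 ≤ x i ∧ x i ≤ 1) ∧ ∑ i, x i = k}

/-- The action of a permutation of the indices on points: the `i`-th unit vector goes to the
`σ i`-th unit vector. -/
def permute {n : ℕ} (σ : Equiv.Perm (Fin n)) (x : Fin n → ℝ) : Fin n → ℝ :=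
  fun i => x (σ.symm i)

/-- The smallest closed cell containing `x` of the subdivision of the hypersimplex by all
hyperplanes `x_i + x_(i+1) + ... + x_j = m` with `i ≤ j` and `m` an integer. -/
def cell (k n : ℕ) (x : Fin n → ℝ) : Set (Fin n → ℝ) :=
  {y | y ∈ hypersimplex k n ∧ ∀ i j : Fin n,
    (⌊∑ t ∈ Finset.Icc i j, x t⌋ : ℝ) ≤ ∑ t ∈ Finset.Icc i j, y t ∧
    ∑ t ∈ Finset.Icc i j, y t ≤ (⌈∑ t ∈ Finset.Icc i j, x t⌉ : ℝ)}

/-- The alcoved triangulation: the set of all closed cells (of all dimensions). -/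
def alcoved (k n : ℕ) : Set (Set (Fin n → ℝ)) :=
  {C | ∃ x ∈ hypersimplex k n, C = cell k n x}

/-- Invariance of a family of cells under a group of permutations of the coordinates. -/
def Invariant {n : ℕ} (G : Subgroup (Equiv.Perm (Fin n))) (T : Set (Set (Fin n → ℝ))) : Prop :=
  ∀ σ ∈ G, ∀ C ∈ T, permute σ '' C ∈ T

/-- The dihedral group generated by the rotation `i ↦ i + 1` and the reversal. -/
def dihedral (n : ℕ) : Subgroup (Equiv.Perm (Fin n)) :=
  Subgroup.closure {finRotate n, Fin.revPerm}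

section basics

variable {k n : ℕ}

/-- `y` lies in the closed cell of `x` (interval sums only). -/
def Sub (x y : Fin n → ℝ) : Prop :=
  ∀ i j : Fin n,
    (⌊∑ t ∈ Finset.Icc i j, x t⌋ : ℝ) ≤ ∑ t ∈ Finset.Icc i j, y t ∧
    ∑ t ∈ Finset.Icc i j, y t ≤ (⌈∑ t ∈ Finset.Icc i j, x t⌉ : ℝ)

lemma Sub.refl (x : Fin n → ℝ) : Sub x x := fun _ _ => ⟨Int.floor_le _, Int.le_ceil _⟩

lemma Sub.trans {x y z : Fin n → ℝ} (h1 : Sub x y) (h2 : Sub y z) : Sub x z := by
  intro i j
  obtain ⟨a1, a2⟩ := h1 i j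
  obtain ⟨b1, b2⟩ := h2 i j
  constructor
  · have : ⌊∑ t ∈ Finset.Icc i j, x t⌋ ≤ ⌊∑ t ∈ Finset.Icc i j, y t⌋ := Int.le_floor.2 a1
    have h' : (⌊∑ t ∈ Finset.Icc i j, x t⌋ : ℝ) ≤ (⌊∑ t ∈ Finset.Icc i j, y t⌋ : ℝ) := by
      exact_mod_cast this
    exact h'.trans b1
  · have : ⌈∑ t ∈ Finset.Icc i j, y t⌉ ≤ ⌈∑ t ∈ Finset.Icc i j, x t⌉ := Int.ceil_le.2 a2
    have h' : (⌈∑ t ∈ Finset.Icc i j, y t⌉ : ℝ) ≤ (⌈∑ t ∈ Finset.Icc i j, x t⌉ : ℝ) := by
      exact_mod_cast this
    exact b2.trans h'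

lemma permute_mem (σ : Equiv.Perm (Fin n)) {x : Fin n → ℝ} (hx : x ∈ hypersimplex k n) :
    permute σ x ∈ hypersimplex k n := by
  refine ⟨fun i => hx.1 _, ?_⟩
  rw [← hx.2]
  exact Equiv.sum_comp σ.symm x

lemma permute_permute (σ τ : Equiv.Perm (Fin n)) (x : Fin n → ℝ) :
    permute σ (permute τ x) = permute (σ * τ) x := by
  funext i
  simp [permute, Equiv.Perm.mul_def]

lemma permute_one (x : Fin n → ℝ) : permute (1 : Equiv.Perm (Fin n)) x = x := by
  funext i
  rfl

lemma permute_inv_permute (σ : Equiv.Perm (Fin n)) (x : Fin n → ℝ) :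
    permute σ⁻¹ (permute σ x) = x := by
  rw [permute_permute, inv_mul_cancel, permute_one]

lemma permute_permute_inv (σ : Equiv.Perm (Fin n)) (x : Fin n → ℝ) :
    permute σ (permute σ⁻¹ x) = x := by
  rw [permute_permute, mul_inv_cancel, permute_one]

/-- A permutation which respects the cells. -/
def Good (k : ℕ) {n : ℕ} (σ : Equiv.Perm (Fin n)) : Prop :=
  ∀ x y : Fin n → ℝ, x ∈ hypersimplex k n → y ∈ hypersimplex k n → Sub x y →
    Sub (permute σ x) (permute σ y)

lemma good_of_invariant {G : Subgroup (Equiv.Perm (Fin n))} (hG : Invariant G (alcoved k n))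
    {σ : Equiv.Perm (Fin n)} (hσ : σ ∈ G) : Good k σ := by
  intro x y hx hy hxy
  obtain ⟨x', hx', he⟩ := hG σ⁻¹ (G.inv_mem hσ) (cell k n (permute σ x))
    ⟨permute σ x, permute_mem σ hx, rfl⟩
  have h1 : x ∈ cell k n x' := by
    rw [← he]
    exact ⟨permute σ x, ⟨permute_mem σ hx, Sub.refl _⟩, permute_inv_permute σ x⟩
  have h2 : y ∈ cell k n x' := ⟨hy, Sub.trans h1.2 hxy⟩
  rw [← he] at h2
  obtain ⟨z, hz, hzy⟩ := h2
  have h3 : permute σ y = z := by
    rw [← hzy, permute_permute_inv]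
  rw [h3]
  exact hz.2

lemma invariant_of_good {G : Subgroup (Equiv.Perm (Fin n))} (hG : ∀ σ ∈ G, Good k σ) :
    Invariant G (alcoved k n) := by
  rintro σ hσ C ⟨x, hx, rfl⟩
  refine ⟨permute σ x, permute_mem σ hx, ?_⟩
  ext z
  constructor
  · rintro ⟨y, hy, rfl⟩
    exact ⟨permute_mem σ hy.1, hG σ hσ x y hx hy.1 hy.2⟩
  · intro hz
    refine ⟨permute σ⁻¹ z, ⟨permute_mem _ hz.1, ?_⟩, permute_permute_inv σ z⟩
    have := hG σ⁻¹ (G.inv_mem hσ) (permute σ x) z (permute_mem σ hx) hz.1 hz.2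
    rw [permute_inv_permute] at this
    exact this

lemma Good.mul {σ τ : Equiv.Perm (Fin n)} (h1 : Good k σ) (h2 : Good k τ) :
    Good k (σ * τ) := by
  intro x y hx hy hxy
  rw [← permute_permute, ← permute_permute]
  exact h1 _ _ (permute_mem τ hx) (permute_mem τ hy) (h2 x y hx hy hxy)

lemma Good.one : Good k (1 : Equiv.Perm (Fin n)) := by
  intro x y _ _ hxy
  rw [permute_one, permute_one]
  exact hxy

lemma Good.pow {σ : Equiv.Perm (Fin n)} (h : Good k σ) (m : ℕ) : Good k (σ ^ m) := by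
  induction m with
  | zero => rw [pow_zero]; exact Good.one
  | succ m ih => rw [pow_succ]; exact ih.mul h

lemma Good.inv {σ : Equiv.Perm (Fin n)} (h : Good k σ) : Good k σ⁻¹ := by
  have h1 : σ⁻¹ = σ ^ (orderOf σ - 1) := by
    apply inv_eq_of_mul_eq_one_left
    rw [← pow_succ, Nat.sub_add_cancel (orderOf_pos σ), pow_orderOf_eq_one]
  rw [h1]
  exact h.pow _

/-- The group of all good permutations. -/
def goodGroup (k n : ℕ) : Subgroup (Equiv.Perm (Fin n)) where
  carrier := {σ | Good k σ}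
  mul_mem' := fun h1 h2 => Good.mul h1 h2
  one_mem' := Good.one
  inv_mem' := fun h => Good.inv h

lemma flo (c : ℤ) (s : ℝ) : ⌊(c : ℝ) - s⌋ = c - ⌈s⌉ := by
  rw [sub_eq_add_neg, Int.floor_intCast_add, Int.floor_neg]; ring

lemma cei (c : ℤ) (s : ℝ) : ⌈(c : ℝ) - s⌉ = c - ⌊s⌋ := by
  rw [sub_eq_add_neg, Int.ceil_intCast_add, Int.ceil_neg]; ring

lemma compl_bound (c : ℤ) {s t : ℝ} (h : (⌊s⌋ : ℝ) ≤ t ∧ t ≤ (⌈s⌉ : ℝ)) :
    (⌊(c : ℝ) - s⌋ : ℝ) ≤ c - t ∧ (c : ℝ) - t ≤ (⌈(c : ℝ) - s⌉ : ℝ) := by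
  rw [flo, cei]
  push_cast
  constructor
  · linarith [h.2]
  · linarith [h.1]

end basics

section faces

variable {n : ℕ}

/-- `y` lies in the smallest face of the cube containing `x`. -/
def Face (x y : Fin n → ℝ) : Prop := ∀ t, (x t = 0 → y t = 0) ∧ (x t = 1 → y t = 1)

lemma face_of_sub {x y : Fin n → ℝ} (h : Sub x y) : Face x y := by
  intro t
  have h1 := h t t
  simp only [Finset.Icc_self, Finset.sum_singleton] at h1
  constructor
  · intro h0
    rw [h0] at h1
    simp only [Int.floor_zero, Int.ceil_zero, Int.cast_zero] at h1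
    exact le_antisymm h1.2 h1.1
  · intro h0
    rw [h0] at h1
    simp only [Int.floor_one, Int.ceil_one, Int.cast_one] at h1
    exact le_antisymm h1.2 h1.1

lemma face_permute {x y : Fin n → ℝ} (σ : Equiv.Perm (Fin n)) (h : Face x y) :
    Face (permute σ x) (permute σ y) := fun t => h (σ.symm t)

lemma sub_of_face_one {x y : Fin n → ℝ} (hx : x ∈ hypersimplex 1 n)
    (hy : y ∈ hypersimplex 1 n) (h : Face x y) : Sub x y := by
  intro i j
  have hx0 : ∀ s : Finset (Fin n), 0 ≤ ∑ t ∈ s, x t := fun s =>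
    Finset.sum_nonneg fun t _ => (hx.1 t).1
  have hy0 : ∀ s : Finset (Fin n), 0 ≤ ∑ t ∈ s, y t := fun s =>
    Finset.sum_nonneg fun t _ => (hy.1 t).1
  have hxs : ∑ t ∈ Finset.Icc i j, x t + ∑ t ∈ (Finset.Icc i j)ᶜ, x t = 1 := by
    rw [Finset.sum_add_sum_compl, hx.2]; norm_num
  have hys : ∑ t ∈ Finset.Icc i j, y t + ∑ t ∈ (Finset.Icc i j)ᶜ, y t = 1 := by
    rw [Finset.sum_add_sum_compl, hy.2]; norm_num
  have key : ∀ s : Finset (Fin n), ∑ t ∈ s, x t = 0 → ∑ t ∈ s, y t = 0 := by
    intro s hs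
    rw [Finset.sum_eq_zero_iff_of_nonneg (fun t _ => (hx.1 t).1)] at hs
    exact Finset.sum_eq_zero fun t ht => (h t).1 (hs t ht)
  have a1 := hx0 (Finset.Icc i j)
  have a2 := hx0 (Finset.Icc i j)ᶜ
  have b1 := hy0 (Finset.Icc i j)
  have b2 := hy0 (Finset.Icc i j)ᶜ
  rcases eq_or_lt_of_le a1 with h0 | h0
  · rw [key _ h0.symm, ← h0]
    simp
  · rcases eq_or_lt_of_le a2 with h2 | h2
    · have h3 := key _ h2.symm
      have e1 : ∑ t ∈ Finset.Icc i j, x t = 1 := by linarith
      have e2 : ∑ t ∈ Finset.Icc i j, y t = 1 := by linarith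
      rw [e1, e2]
      simp
    · have hf : ⌊∑ t ∈ Finset.Icc i j, x t⌋ = 0 := by
        rw [Int.floor_eq_iff]; push_cast; constructor <;> linarith
      have hc : ⌈∑ t ∈ Finset.Icc i j, x t⌉ = 1 := by
        rw [Int.ceil_eq_iff]; push_cast; constructor <;> linarith
      rw [hf, hc]
      push_cast
      constructor <;> linarith

lemma sub_of_face_last {k : ℕ} (hk : k + 1 = n) {x y : Fin n → ℝ} (hx : x ∈ hypersimplex k n)
    (hy : y ∈ hypersimplex k n) (h : Face x y) : Sub x y := by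
  have hmem : ∀ z : Fin n → ℝ, z ∈ hypersimplex k n → (fun t => 1 - z t) ∈ hypersimplex 1 n := by
    intro z hz
    refine ⟨fun t => ⟨by linarith [(hz.1 t).2], by linarith [(hz.1 t).1]⟩, ?_⟩
    rw [Finset.sum_sub_distrib, hz.2]
    simp only [Finset.sum_const, Finset.card_univ, Fintype.card_fin, nsmul_eq_mul, mul_one]
    have : (n : ℝ) = k + 1 := by rw [← hk]; push_cast; ring
    rw [this]; push_cast; ring
  have h1 : Sub (fun t => 1 - x t) (fun t => 1 - y t) := by
    apply sub_of_face_one (hmem x hx) (hmem y hy)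
    intro t
    constructor
    · intro h0
      have : x t = 1 := by linarith
      have := (h t).2 this
      simp only [this, sub_self]
    · intro h0
      have : x t = 0 := by linarith
      have := (h t).1 this
      simp only [this, sub_zero]
  intro i j
  have h2 := compl_bound ((Finset.Icc i j).card : ℤ) (h1 i j)
  have e : ∀ z : Fin n → ℝ, (((Finset.Icc i j).card : ℤ) : ℝ)
      - ∑ t ∈ Finset.Icc i j, (1 - z t) = ∑ t ∈ Finset.Icc i j, z t := by
    intro z
    rw [Finset.sum_sub_distrib]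
    simp
  rw [e x, e y] at h2
  exact h2

lemma good_of_small {k : ℕ} (hk : k = 1 ∨ k + 1 = n) (σ : Equiv.Perm (Fin n)) : Good k σ := by
  intro x y hx hy hxy
  have h1 := face_permute σ (face_of_sub hxy)
  rcases hk with rfl | hk
  · exact sub_of_face_one (permute_mem σ hx) (permute_mem σ hy) h1
  · exact sub_of_face_last hk (permute_mem σ hx) (permute_mem σ hy) h1

end faces

section dihedral

variable {k m : ℕ}

/-- It is enough to check the intervals which do not contain the last index. -/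
lemma sub_of_lt {x y : Fin (m + 1) → ℝ} (hx : x ∈ hypersimplex k (m + 1))
    (hy : y ∈ hypersimplex k (m + 1))
    (h : ∀ i j : Fin (m + 1), i ≤ j → j < Fin.last m →
      (⌊∑ t ∈ Finset.Icc i j, x t⌋ : ℝ) ≤ ∑ t ∈ Finset.Icc i j, y t ∧
      ∑ t ∈ Finset.Icc i j, y t ≤ (⌈∑ t ∈ Finset.Icc i j, x t⌉ : ℝ)) : Sub x y := by
  intro i j
  rcases lt_or_ge j i with hji | hij
  · rw [Finset.Icc_eq_empty (not_le.2 hji)]
    simp
  rcases lt_or_ge j (Fin.last m) with hj | hj
  · exact h i j hij hj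
  have hj' : j = Fin.last m := le_antisymm (Fin.le_last j) hj
  subst hj'
  rcases Nat.eq_zero_or_pos i.val with hi | hi
  · have hi0 : i = 0 := Fin.ext hi
    subst hi0
    have hu : Finset.Icc (0 : Fin (m + 1)) (Fin.last m) = Finset.univ := by
      ext t
      simp [Fin.le_last]
    rw [hu, hx.2, hy.2]
    simp
  · have hi1 : i.val - 1 < m + 1 := by omega
    have h1 := h 0 ⟨i.val - 1, hi1⟩ (Fin.zero_le _)
      (by rw [Fin.lt_def]; simp only [Fin.val_last]; have := i.isLt; omega)
    have hc : (Finset.Icc (0 : Fin (m + 1)) ⟨i.val - 1, hi1⟩)ᶜ = Finset.Icc i (Fin.last m) := by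
      ext t
      have ht := t.isLt
      simp only [Finset.mem_compl, Finset.mem_Icc, Fin.le_def, Fin.val_zero, Fin.val_last]
      omega
    have e : ∀ z : Fin (m + 1) → ℝ, z ∈ hypersimplex k (m + 1) →
        ((k : ℤ) : ℝ) - ∑ t ∈ Finset.Icc (0 : Fin (m + 1)) ⟨i.val - 1, hi1⟩, z t
          = ∑ t ∈ Finset.Icc i (Fin.last m), z t := by
      intro z hz
      rw [← hc]
      have := Finset.sum_add_sum_compl (Finset.Icc (0 : Fin (m + 1)) ⟨i.val - 1, hi1⟩) z
      rw [hz.2] at this
      push_cast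
      linarith
    have h2 := compl_bound (k : ℤ) h1
    rw [e x hx, e y hy] at h2
    exact h2

lemma good_rot_inv : Good k ((finRotate (m + 1))⁻¹) := by
  intro x y hx hy hxy
  apply sub_of_lt (permute_mem _ hx) (permute_mem _ hy)
  intro i j hij hj
  have e : ∀ z : Fin (m + 1) → ℝ,
      ∑ t ∈ Finset.Icc i j, permute ((finRotate (m + 1))⁻¹) z t
        = ∑ t ∈ Finset.Icc (i + 1) (j + 1), z t := by
    intro z
    have hv : ∀ t : Fin (m + 1), t ≤ j → (t + 1).val = t.val + 1 := by
      intro t ht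
      exact Fin.val_add_one_of_lt (lt_of_le_of_lt ht hj)
    refine Finset.sum_nbij' (fun t => t + 1) (fun u => u - 1) ?_ ?_ ?_ ?_ ?_
    · intro t ht
      rw [Finset.mem_Icc] at ht ⊢
      have h1 := hv t ht.2
      have h2 := hv i hij
      have h3 := hv j le_rfl
      rw [Fin.le_def, Fin.le_def, h1, h2, h3]
      have := ht.1
      have := ht.2
      rw [Fin.le_def] at *
      omega
    · intro u hu
      rw [Finset.mem_Icc] at hu ⊢
      have h2 := hv i hij
      have h3 := hv j le_rfl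
      rw [Fin.le_def, Fin.le_def, h2, h3] at hu
      have h4 : u ≠ 0 := by
        intro h0
        rw [h0] at hu
        simp at hu
      have h5 : (u - 1).val = u.val - 1 := by
        rw [Fin.coe_sub_one, if_neg h4]
      rw [Fin.le_def, Fin.le_def, h5]
      omega
    · intro t _
      simp
    · intro u _
      simp
    · intro t _
      simp only [permute]
      congr 1
      have : ((finRotate (m + 1))⁻¹ : Equiv.Perm (Fin (m + 1))).symm t = finRotate (m + 1) t := rfl
      rw [this, finRotate_apply]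
  rw [e x, e y]
  exact hxy _ _

lemma good_rev {n : ℕ} : Good k (Fin.revPerm : Equiv.Perm (Fin n)) := by
  intro x y _ _ hxy i j
  have e : ∀ z : Fin n → ℝ,
      ∑ t ∈ Finset.Icc i j, permute (Fin.revPerm : Equiv.Perm (Fin n)) z t
        = ∑ t ∈ Finset.Icc (Fin.rev j) (Fin.rev i), z t := by
    intro z
    refine Finset.sum_nbij' (fun t => Fin.rev t) (fun u => Fin.rev u) ?_ ?_ ?_ ?_ ?_
    · intro t ht
      rw [Finset.mem_Icc] at ht ⊢
      exact ⟨Fin.rev_le_rev.2 ht.2, Fin.rev_le_rev.2 ht.1⟩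
    · intro u hu
      rw [Finset.mem_Icc] at hu ⊢
      constructor
      · have := Fin.rev_le_rev.2 hu.2
        rwa [Fin.rev_rev] at this
      · have := Fin.rev_le_rev.2 hu.1
        rwa [Fin.rev_rev] at this
    · intro t _
      exact Fin.rev_rev t
    · intro t _
      exact Fin.rev_rev t
    · intro t _
      rfl
  rw [e x, e y]
  exact hxy _ _

lemma dihedral_le_good : dihedral (m + 1) ≤ goodGroup k (m + 1) := by
  rw [dihedral, Subgroup.closure_le]
  intro σ hσ
  rcases hσ with rfl | hσ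
  · have h := Good.inv (k := k) (good_rot_inv (k := k) (m := m))
    rw [inv_inv] at h
    exact h
  · have : σ = Fin.revPerm := hσ
    rw [this]
    exact good_rev

lemma add_mem_dihedral (c : Fin (m + 1)) : Equiv.addRight c ∈ dihedral (m + 1) := by
  induction c using Fin.induction with
  | zero =>
    have : Equiv.addRight (0 : Fin (m + 1)) = 1 := by
      ext i
      simp
    rw [this]
    exact Subgroup.one_mem _
  | succ i ih =>
    have : Equiv.addRight (i.succ) = finRotate (m + 1) * Equiv.addRight (i.castSucc) := by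
      apply Equiv.ext
      intro j
      rw [Equiv.Perm.mul_apply, finRotate_apply]
      simp only [Equiv.coe_addRight]
      rw [add_assoc, Fin.coeSucc_eq_succ]
    rw [this]
    exact Subgroup.mul_mem _ (Subgroup.subset_closure (Or.inl rfl)) ih

lemma rev_add_one (i : Fin (m + 1)) : Fin.rev i + 1 = -i := by
  rw [eq_neg_iff_add_eq_zero]
  apply Fin.ext
  have hi := i.isLt
  rw [Fin.val_add, Fin.val_add, Fin.val_rev]
  simp only [Fin.val_zero]
  rcases Nat.eq_zero_or_pos m with h0 | h0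
  · subst h0
    have := i.isLt
    omega
  · have h1 : (1 : Fin (m + 1)).val = 1 := by
      rw [Fin.val_one']
      exact Nat.mod_eq_of_lt (by omega)
    rw [h1]
    rw [Nat.mod_add_mod]
    have : m + 1 - (i.val + 1) + 1 + i.val = m + 1 := by omega
    rw [this, Nat.mod_self]

lemma mem_dihedral_of_adj (hm : 2 ≤ m) (σ : Equiv.Perm (Fin (m + 1)))
    (h : ∀ i, σ (i + 1) = σ i + 1 ∨ σ i = σ (i + 1) + 1) : σ ∈ dihedral (m + 1) := by
  have h2 : (1 : Fin (m + 1)) + 1 ≠ 0 := by
    intro h0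
    have h1 : (1 : Fin (m + 1)).val = 1 := by
      rw [Fin.val_one']
      exact Nat.mod_eq_of_lt (by omega)
    have := congrArg Fin.val h0
    rw [Fin.val_add, h1, Fin.val_zero, Nat.mod_eq_of_lt (by omega)] at this
    omega
  rcases h 0 with h0 | h0
  · rw [zero_add] at h0
    have key : ∀ i : Fin (m + 1), σ i = σ 0 + i ∧ σ (i + 1) = σ 0 + i + 1 := by
      intro i
      induction i using Fin.induction with
      | zero => simp [h0]
      | succ i ih =>
        rw [Fin.coeSucc_eq_succ] at ih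
        have e1 : σ i.succ = σ 0 + i.succ := by
          rw [ih.2, add_assoc, Fin.coeSucc_eq_succ]
        refine ⟨e1, ?_⟩
        rcases h i.succ with h3 | h3
        · rw [h3, e1]
        · exfalso
          have h4 : σ (i.succ + 1) = σ i.castSucc := by
            have h5 : σ (i.succ + 1) + 1 = σ i.castSucc + 1 := by
              rw [← h3, ih.2, ih.1]
            exact add_right_cancel h5
          have h6 := σ.injective h4
          rw [← Fin.coeSucc_eq_succ, add_assoc] at h6
          exact h2 (left_eq_add.1 h6.symm)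
    have : σ = Equiv.addRight (σ 0) := by
      apply Equiv.ext
      intro i
      rw [(key i).1]
      exact add_comm _ _
    rw [this]
    exact add_mem_dihedral _
  · rw [zero_add] at h0
    have key : ∀ i : Fin (m + 1), σ i + i = σ 0 ∧ σ (i + 1) + (i + 1) = σ 0 := by
      intro i
      induction i using Fin.induction with
      | zero =>
        rw [add_zero, zero_add]
        exact ⟨rfl, h0.symm⟩
      | succ i ih =>
        rw [Fin.coeSucc_eq_succ] at ih
        refine ⟨ih.2, ?_⟩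
        rcases h i.succ with h3 | h3
        · exfalso
          have h4 : σ (i.succ + 1) = σ i.castSucc := by
            have h5 : σ (i.succ + 1) + i.castSucc = σ i.castSucc + i.castSucc := by
              rw [ih.1, ← ih.2, h3, ← Fin.coeSucc_eq_succ]
              abel
            exact add_right_cancel h5
          have h6 := σ.injective h4
          rw [← Fin.coeSucc_eq_succ, add_assoc] at h6
          exact h2 (left_eq_add.1 h6.symm)
        · rw [← ih.2, h3]
          abel
    have : σ = Equiv.addRight (σ 0 + 1) * Fin.revPerm := by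
      apply Equiv.ext
      intro i
      have h3 : Fin.rev i + (σ 0 + 1) = σ 0 + (Fin.rev i + 1) := by
        abel
      have h4 : σ i = Fin.rev i + (σ 0 + 1) := by
        rw [h3, rev_add_one, ← (key i).1]
        abel
      exact h4
    rw [this]
    exact Subgroup.mul_mem _ (add_mem_dihedral _) (Subgroup.subset_closure (Or.inr rfl))

end dihedral

section crossing

variable {k n : ℕ}

/-- The point `e_K + t (e_p + e_q) + (1 - t) (e_r + e_s)`. -/
noncomputable def pt (K : Finset (Fin n)) (p q r s : Fin n) (t : ℝ) : Fin n → ℝ := fun u =>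
  (if u ∈ K then 1 else 0) + (t * ((if u = p then 1 else 0) + (if u = q then 1 else 0))
    + (1 - t) * ((if u = r then 1 else 0) + (if u = s then 1 else 0)))

lemma sum_pt (K : Finset (Fin n)) (p q r s : Fin n) (t : ℝ) (I : Finset (Fin n)) :
    ∑ u ∈ I, pt K p q r s t u = ((I.filter (fun u => u ∈ K)).card : ℝ)
      + (t * ((if p ∈ I then 1 else 0) + (if q ∈ I then 1 else 0))
        + (1 - t) * ((if r ∈ I then 1 else 0) + (if s ∈ I then 1 else 0))) := by
  simp only [pt]
  rw [Finset.sum_add_distrib, Finset.sum_add_distrib, ← Finset.mul_sum, ← Finset.mul_sum,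
    Finset.sum_add_distrib, Finset.sum_add_distrib]
  simp only [Finset.sum_ite_eq', Finset.sum_boole]

lemma pt_mem {K : Finset (Fin n)} {p q r s : Fin n} {t : ℝ} (ht0 : 0 ≤ t) (ht1 : t ≤ 1)
    (hK : K.card + 2 = k) (hp : p ∉ K) (hq : q ∉ K) (hr : r ∉ K) (hs : s ∉ K)
    (hpq : p ≠ q) (hpr : p ≠ r) (hps : p ≠ s) (hqr : q ≠ r) (hqs : q ≠ s) (hrs : r ≠ s) :
    pt K p q r s t ∈ hypersimplex k n := by
  constructor
  · intro u
    simp only [pt]
    by_cases h1 : u ∈ K
    · have a1 : u ≠ p := fun h => hp (h ▸ h1)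
      have a2 : u ≠ q := fun h => hq (h ▸ h1)
      have a3 : u ≠ r := fun h => hr (h ▸ h1)
      have a4 : u ≠ s := fun h => hs (h ▸ h1)
      simp [h1, a1, a2, a3, a4]
    · by_cases b1 : u = p
      · subst b1
        simp [h1, hpq, hpr, hps, ht0, ht1]
      · by_cases b2 : u = q
        · subst b2
          simp [h1, b1, hqr, hqs, ht0, ht1]
        · by_cases b3 : u = r
          · subst b3
            simp [h1, b1, b2, hrs, ht0, ht1]
          · by_cases b4 : u = s
            · subst b4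
              simp [h1, b1, b2, b3, ht0, ht1]
            · simp [h1, b1, b2, b3, b4]
  · rw [sum_pt]
    simp only [Finset.mem_univ, if_true]
    have : (Finset.univ.filter (fun u => u ∈ K)) = K := by
      ext u; simp
    rw [this, ← hK]
    push_cast
    ring

lemma permute_pt (σ : Equiv.Perm (Fin n)) (K : Finset (Fin n)) (p q r s : Fin n) (t : ℝ) :
    permute σ (pt K p q r s t) = pt (K.map σ.toEmbedding) (σ p) (σ q) (σ r) (σ s) t := by
  funext u
  simp only [permute, pt]
  have h1 : (σ.symm u ∈ K) ↔ (u ∈ K.map σ.toEmbedding) := by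
    rw [Finset.mem_map_equiv]
  have h2 : ∀ w, (σ.symm u = w) ↔ (u = σ w) := fun w => Equiv.symm_apply_eq σ
  simp only [h1, h2]

/-- Crossing pairs give a segment inside one cell. -/
lemma sub_of_cross (K : Finset (Fin n)) {p q r s : Fin n}
    (h : ∀ i j : Fin n,
      ¬ (p ∈ Finset.Icc i j ∧ q ∈ Finset.Icc i j ∧ r ∉ Finset.Icc i j ∧ s ∉ Finset.Icc i j) ∧
      ¬ (p ∉ Finset.Icc i j ∧ q ∉ Finset.Icc i j ∧ r ∈ Finset.Icc i j ∧ s ∈ Finset.Icc i j)) :
    Sub (pt K p q r s (3 / 4)) (pt K p q r s (1 / 4)) := by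
  intro i j
  rw [sum_pt, sum_pt]
  obtain ⟨h1, h2⟩ := h i j
  rw [Int.floor_natCast_add, Int.ceil_natCast_add]
  push_cast
  have key : ∀ a b : ℝ, ∀ z w : ℤ, (z : ℝ) ≤ a → a < z + 1 → (z : ℝ) ≤ b → (w : ℝ) - 1 < a →
      a ≤ w → b ≤ w → (⌊a⌋ : ℝ) ≤ b ∧ b ≤ (⌈a⌉ : ℝ) := by
    intro a b z w h1 h2 h3 h4 h5 h6
    have e1 : ⌊a⌋ = z := by rw [Int.floor_eq_iff]; exact ⟨h1, h2⟩
    have e2 : ⌈a⌉ = w := by rw [Int.ceil_eq_iff]; exact ⟨h4, h5⟩
    rw [e1, e2]
    exact ⟨h3, h6⟩
  have fin : ∀ a b : ℝ, ((⌊a⌋ : ℝ) ≤ b ∧ b ≤ (⌈a⌉ : ℝ)) →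
      ((((Finset.Icc i j).filter (fun u => u ∈ K)).card : ℝ) + (⌊a⌋ : ℝ)
        ≤ (((Finset.Icc i j).filter (fun u => u ∈ K)).card : ℝ) + b ∧
      (((Finset.Icc i j).filter (fun u => u ∈ K)).card : ℝ) + b
        ≤ (((Finset.Icc i j).filter (fun u => u ∈ K)).card : ℝ) + (⌈a⌉ : ℝ)) := by
    intro a b hab
    constructor <;> linarith [hab.1, hab.2]
  apply fin
  by_cases hp : p ∈ Finset.Icc i j <;> by_cases hq : q ∈ Finset.Icc i j <;>
    by_cases hr : r ∈ Finset.Icc i j <;> by_cases hs : s ∈ Finset.Icc i j <;>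
    simp only [hp, hq, hr, hs, not_true_eq_false, not_false_eq_true, and_true, and_false,
      and_self, if_true, if_false] at h1 h2 ⊢
  · exact key _ _ 2 2 (by norm_num) (by norm_num) (by norm_num) (by norm_num) (by norm_num)
      (by norm_num)
  · exact key _ _ 1 2 (by norm_num) (by norm_num) (by norm_num) (by norm_num) (by norm_num)
      (by norm_num)
  · exact key _ _ 1 2 (by norm_num) (by norm_num) (by norm_num) (by norm_num) (by norm_num)
      (by norm_num)
  · exact key _ _ 1 2 (by norm_num) (by norm_num) (by norm_num) (by norm_num) (by norm_num)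
      (by norm_num)
  · exact key _ _ 1 1 (by norm_num) (by norm_num) (by norm_num) (by norm_num) (by norm_num)
      (by norm_num)
  · exact key _ _ 1 1 (by norm_num) (by norm_num) (by norm_num) (by norm_num) (by norm_num)
      (by norm_num)
  · exact key _ _ 0 1 (by norm_num) (by norm_num) (by norm_num) (by norm_num) (by norm_num)
      (by norm_num)
  · exact key _ _ 1 2 (by norm_num) (by norm_num) (by norm_num) (by norm_num) (by norm_num)
      (by norm_num)
  · exact key _ _ 1 1 (by norm_num) (by norm_num) (by norm_num) (by norm_num) (by norm_num)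
      (by norm_num)
  · exact key _ _ 1 1 (by norm_num) (by norm_num) (by norm_num) (by norm_num) (by norm_num)
      (by norm_num)
  · exact key _ _ 0 1 (by norm_num) (by norm_num) (by norm_num) (by norm_num) (by norm_num)
      (by norm_num)
  · exact key _ _ 0 1 (by norm_num) (by norm_num) (by norm_num) (by norm_num) (by norm_num)
      (by norm_num)
  · exact key _ _ 0 1 (by norm_num) (by norm_num) (by norm_num) (by norm_num) (by norm_num)
      (by norm_num)
  · exact key _ _ 0 0 (by norm_num) (by norm_num) (by norm_num) (by norm_num) (by norm_num)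
      (by norm_num)

/-- Conversely, an interval containing one pair and missing the other separates. -/
lemma not_separated (K : Finset (Fin n)) {p q r s : Fin n}
    (h : Sub (pt K p q r s (3 / 4)) (pt K p q r s (1 / 4))) (i j : Fin n) :
      ¬ (p ∈ Finset.Icc i j ∧ q ∈ Finset.Icc i j ∧ r ∉ Finset.Icc i j ∧ s ∉ Finset.Icc i j) ∧
      ¬ (p ∉ Finset.Icc i j ∧ q ∉ Finset.Icc i j ∧ r ∈ Finset.Icc i j ∧ s ∈ Finset.Icc i j) := by
  have h1 := h i j
  rw [sum_pt, sum_pt, Int.floor_natCast_add, Int.ceil_natCast_add] at h1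
  push_cast at h1
  constructor
  · rintro ⟨hp, hq, hr, hs⟩
    simp only [hp, hq, hr, hs, if_true, if_false] at h1
    have e : ⌊(3 / 4 * (1 + 1) + (1 - 3 / 4) * (0 + 0) : ℝ)⌋ = 1 := by
      rw [Int.floor_eq_iff]; norm_num
    rw [e] at h1
    have := h1.1
    push_cast at this
    linarith
  · rintro ⟨hp, hq, hr, hs⟩
    simp only [hp, hq, hr, hs, if_true, if_false] at h1
    have e : ⌈(3 / 4 * (0 + 0) + (1 - 3 / 4) * (1 + 1) : ℝ)⌉ = 1 := by
      rw [Int.ceil_eq_iff]; norm_num
    rw [e] at h1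
    have := h1.2
    push_cast at this
    linarith

lemma exists_K (hk : 2 ≤ k) (hn : k + 2 ≤ n) (p q r s : Fin n) :
    ∃ K : Finset (Fin n), K.card + 2 = k ∧ p ∉ K ∧ q ∉ K ∧ r ∉ K ∧ s ∉ K := by
  have h1 : ({p, q, r, s} : Finset (Fin n)).card ≤ 4 := Finset.card_le_four
  have h2 : k - 2 ≤ (({p, q, r, s} : Finset (Fin n))ᶜ).card := by
    rw [Finset.card_compl, Fintype.card_fin]
    omega
  obtain ⟨K, hK, hc⟩ := Finset.exists_subset_card_eq h2
  have h3 : ∀ u, u ∈ ({p, q, r, s} : Finset (Fin n)) → u ∉ K := by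
    intro u hu hK'
    have := hK hK'
    rw [Finset.mem_compl] at this
    exact this hu
  exact ⟨K, by omega, h3 p (by simp), h3 q (by simp), h3 r (by simp), h3 s (by simp)⟩

/-- A good permutation cannot map a crossing quadruple to a separated one. -/
lemma cross_image (hk : 2 ≤ k) (hn : k + 2 ≤ n) {σ : Equiv.Perm (Fin n)} (hσ : Good k σ)
    {p q r s : Fin n}
    (hpq : p ≠ q) (hpr : p ≠ r) (hps : p ≠ s) (hqr : q ≠ r) (hqs : q ≠ s) (hrs : r ≠ s)
    (h : ∀ i j : Fin n,
      ¬ (p ∈ Finset.Icc i j ∧ q ∈ Finset.Icc i j ∧ r ∉ Finset.Icc i j ∧ s ∉ Finset.Icc i j) ∧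
      ¬ (p ∉ Finset.Icc i j ∧ q ∉ Finset.Icc i j ∧ r ∈ Finset.Icc i j ∧ s ∈ Finset.Icc i j))
    (i j : Fin n) :
      ¬ (σ p ∈ Finset.Icc i j ∧ σ q ∈ Finset.Icc i j ∧ σ r ∉ Finset.Icc i j ∧
          σ s ∉ Finset.Icc i j) ∧
      ¬ (σ p ∉ Finset.Icc i j ∧ σ q ∉ Finset.Icc i j ∧ σ r ∈ Finset.Icc i j ∧
          σ s ∈ Finset.Icc i j) := by
  obtain ⟨K, hK, hp, hq, hr, hs⟩ := exists_K hk hn p q r s
  have h1 := hσ _ _
    (pt_mem (t := 3 / 4) (by norm_num) (by norm_num) hK hp hq hr hs hpq hpr hps hqr hqs hrs)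
    (pt_mem (t := 1 / 4) (by norm_num) (by norm_num) hK hp hq hr hs hpq hpr hps hqr hqs hrs)
    (sub_of_cross K h)
  rw [permute_pt, permute_pt] at h1
  exact not_separated _ h1 i j

end crossing

section final

variable {k m : ℕ}

/-- Numbers on both sides of a chord cross it. -/
lemma cross_num {n : ℕ} {u v w z : Fin n} (h1 : u < w) (h2 : w < v) (h3 : z < u ∨ v < z)
    (i j : Fin n) :
      ¬ (u ∈ Finset.Icc i j ∧ v ∈ Finset.Icc i j ∧ w ∉ Finset.Icc i j ∧ z ∉ Finset.Icc i j) ∧
      ¬ (u ∉ Finset.Icc i j ∧ v ∉ Finset.Icc i j ∧ w ∈ Finset.Icc i j ∧ z ∈ Finset.Icc i j) := by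
  simp only [Finset.mem_Icc, Fin.le_def, Fin.lt_def] at *
  omega

lemma adj_of_good (hk : 2 ≤ k) (hn : k + 2 ≤ m + 1) {σ : Equiv.Perm (Fin (m + 1))}
    (hσ : Good k σ) (i : Fin (m + 1)) : σ (i + 1) = σ i + 1 ∨ σ i = σ (i + 1) + 1 := by
  have hm : 3 ≤ m := by omega
  have h1v : (1 : Fin (m + 1)).val = 1 := by
    rw [Fin.val_one']
    exact Nat.mod_eq_of_lt (by omega)
  have hinv : Good k σ⁻¹ := hσ.inv
  have hii : i ≠ i + 1 := by
    intro h
    have := left_eq_add.1 h
    have := congrArg Fin.val this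
    rw [h1v] at this
    simp at this
  -- the main claim for an ordered pair of values
  have main : ∀ a b : Fin (m + 1), a < b → ((a = σ i ∧ b = σ (i + 1)) ∨
      (a = σ (i + 1) ∧ b = σ i)) → (b = a + 1 ∨ a = b + 1) := by
    intro a b hab hor
    by_contra hcon
    rw [not_or] at hcon
    obtain ⟨hc1, hc2⟩ := hcon
    have hb := b.isLt
    have hlt : a.val < b.val := hab
    have hab1 : a.val + 1 < b.val := by
      rcases Nat.lt_or_ge (a.val + 1) b.val with h | h
      · exact h
      · exfalso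
        apply hc1
        apply Fin.ext
        rw [Fin.val_add_one_of_lt (by rw [Fin.lt_def]; simp only [Fin.val_last]; omega)]
        omega
    have hends : ¬ (a.val = 0 ∧ b.val = m) := by
      rintro ⟨h0, h1⟩
      apply hc2
      apply Fin.ext
      have : b = Fin.last m := Fin.ext (by simpa using h1)
      rw [this, Fin.last_add_one, h0]
      rfl
    obtain ⟨w, hw1, hw2⟩ : ∃ w : Fin (m + 1), a < w ∧ w < b :=
      ⟨⟨a.val + 1, by omega⟩, by rw [Fin.lt_def]; simp, by rw [Fin.lt_def]; simpa using hab1⟩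
    obtain ⟨z, hz⟩ : ∃ z : Fin (m + 1), z < a ∨ b < z := by
      rcases Nat.eq_zero_or_pos a.val with h0 | h0
      · refine ⟨Fin.last m, Or.inr ?_⟩
        rw [Fin.lt_def, Fin.val_last]
        omega
      · refine ⟨0, Or.inl ?_⟩
        rw [Fin.lt_def, Fin.val_zero]
        exact h0
    have haw : a ≠ w := ne_of_lt hw1
    have hbw : b ≠ w := (ne_of_lt hw2).symm
    have haz : a ≠ z := by
      rcases hz with hz | hz
      · exact (ne_of_lt hz).symm
      · exact ne_of_lt (hab.trans hz)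
    have hbz : b ≠ z := by
      rcases hz with hz | hz
      · exact (ne_of_lt (hz.trans hab)).symm
      · exact ne_of_lt hz
    have hwz : w ≠ z := by
      rcases hz with hz | hz
      · exact (ne_of_lt (hz.trans hw1)).symm
      · exact ne_of_lt (hw2.trans hz)
    have hcr := cross_image hk hn hinv (ne_of_lt hab) haw haz hbw hbz hwz
      (cross_num hw1 hw2 hz)
    set w' := σ⁻¹ w with hw'
    set z' := σ⁻¹ z with hz'
    -- the images of a and b are i and i+1 in some order
    have hset : ∀ j l : Fin (m + 1),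
        ¬ (i ∈ Finset.Icc j l ∧ (i + 1) ∈ Finset.Icc j l ∧ w' ∉ Finset.Icc j l ∧
          z' ∉ Finset.Icc j l) ∧
        ¬ (i ∉ Finset.Icc j l ∧ (i + 1) ∉ Finset.Icc j l ∧ w' ∈ Finset.Icc j l ∧
          z' ∈ Finset.Icc j l) := by
      intro j l
      have := hcr j l
      have e3 : σ⁻¹ (σ i) = i := σ.symm_apply_apply i
      have e4 : σ⁻¹ (σ (i + 1)) = i + 1 := σ.symm_apply_apply (i + 1)
      rcases hor with ⟨e1, e2⟩ | ⟨e1, e2⟩
      · rw [e1, e2, e3, e4] at this
        exact this
      · rw [e1, e2, e3, e4] at this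
        obtain ⟨t1, t2⟩ := this
        exact ⟨fun h => t1 ⟨h.2.1, h.1, h.2.2⟩, fun h => t2 ⟨h.2.1, h.1, h.2.2⟩⟩
    have hne : ∀ x : Fin (m + 1), a ≠ x → b ≠ x → σ⁻¹ x ≠ i ∧ σ⁻¹ x ≠ i + 1 := by
      intro x h1 h2
      constructor
      · intro h
        have h' : x = σ i := by rw [← h]; exact (σ.apply_symm_apply x).symm
        rcases hor with ⟨e1, e2⟩ | ⟨e1, e2⟩
        · exact h1 (e1.trans h'.symm)
        · exact h2 (e2.trans h'.symm)
      · intro h
        have h' : x = σ (i + 1) := by rw [← h]; exact (σ.apply_symm_apply x).symm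
        rcases hor with ⟨e1, e2⟩ | ⟨e1, e2⟩
        · exact h2 (e2.trans h'.symm)
        · exact h1 (e1.trans h'.symm)
    obtain ⟨nw1, nw2⟩ := hne w haw hbw
    obtain ⟨nz1, nz2⟩ := hne z haz hbz
    rw [← hw'] at nw1 nw2
    rw [← hz'] at nz1 nz2
    rcases lt_or_ge i (Fin.last m) with hi | hi
    · have hv := Fin.val_add_one_of_lt hi
      have := (hset i (i + 1)).1
      apply this
      simp only [Finset.mem_Icc, Fin.le_def, hv]
      have a1 : w'.val ≠ i.val := fun h => nw1 (Fin.ext h)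
      have a2 : w'.val ≠ i.val + 1 := fun h => nw2 (Fin.ext (h.trans hv.symm))
      have a3 : z'.val ≠ i.val := fun h => nz1 (Fin.ext h)
      have a4 : z'.val ≠ i.val + 1 := fun h => nz2 (Fin.ext (h.trans hv.symm))
      omega
    · have hil : i = Fin.last m := le_antisymm (Fin.le_last i) hi
      have hi1 : i + 1 = 0 := by rw [hil, Fin.last_add_one]
      have := (hset ⟨1, by omega⟩ ⟨m - 1, by omega⟩).2
      apply this
      rw [hi1] at nw2 nz2
      rw [hil] at nw1 nz1
      rw [hi1, hil]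
      have a1 : w'.val ≠ m := fun h => nw1 (Fin.ext (by simpa using h))
      have a2 : w'.val ≠ 0 := fun h => nw2 (Fin.ext (by simpa using h))
      have a3 : z'.val ≠ m := fun h => nz1 (Fin.ext (by simpa using h))
      have a4 : z'.val ≠ 0 := fun h => nz2 (Fin.ext (by simpa using h))
      have b1 := w'.isLt
      have b2 := z'.isLt
      simp only [Finset.mem_Icc, Fin.le_def, Fin.val_last, Fin.val_zero]
      omega
  rcases lt_trichotomy (σ i) (σ (i + 1)) with h | h | h
  · exact main _ _ h (Or.inl ⟨rfl, rfl⟩)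
  · exact absurd (σ.injective h) hii
  · rcases main _ _ h (Or.inr ⟨rfl, rfl⟩) with h' | h'
    · exact Or.inr h'
    · exact Or.inl h'

end final

/-- **Main theorem.** For all `0 < k < n`, the alcoved triangulation of the hypersimplex is
invariant under a group `G` of permutations of the coordinates if and only if `k = 1`, or
`k = n - 1`, or `G` is contained in the dihedral group `D_2n`. -/
theorem result (k n : ℕ) (hk : 0 < k) (hn : k < n) (G : Subgroup (Equiv.Perm (Fin n))) :
    Invariant G (alcoved k n) ↔ (k = 1 ∨ k + 1 = n ∨ G ≤ dihedral n) := by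
  obtain ⟨m, rfl⟩ : ∃ m, n = m + 1 := ⟨n - 1, by omega⟩
  constructor
  · intro hG
    by_cases h1 : k = 1
    · exact Or.inl h1
    by_cases h2 : k + 1 = m + 1
    · exact Or.inr (Or.inl h2)
    refine Or.inr (Or.inr ?_)
    intro σ hσ
    exact mem_dihedral_of_adj (by omega) σ
      (fun i => adj_of_good (k := k) (by omega) (by omega) (good_of_invariant hG hσ) i)
  · intro h
    apply invariant_of_good
    intro σ hσ
    rcases h with h | h | h
    · exact good_of_small (Or.inl h) σ
    · exact good_of_small (Or.inr h) σ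
    · exact dihedral_le_good (h hσ)

end Pool.Agent.Results.MP_079fc8_co.AlcovedSymmetry
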