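import Pool.Agent.Lib.MP_079fc8_co.PFix

/-!
MP_079fc8_co. From simplicial complexes to the abstract form; the two main theorems for the faces.
-/

set_option autoImplicit false
set_option linter.unusedSectionVars false

namespace Pool.Agent.Lib.MP079fc8

open Finset

theorem tri_of {n k : ℕ} (hk : 1 ≤ k) (G : Set (Equiv.Perm (Fin n))) (K : Geometry.SimplicialComplex ℝ (Fin n → ℝ))
    (hsp : K.space = {x | (∀ i, 0 ≤ x i ∧ x i ≤ 1) ∧ ∑ i, x i = (k : ℝ)})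
    (hint : ∀ s ∈ K.faces, ∀ x ∈ s, ∀ i, ∃ m : ℤ, x i = m)
    (hinv : ∀ g ∈ G, ∀ s ∈ K.faces, s.image (fun x i => x (g.symm i)) ∈ K.faces) : Tri k G K.faces := by
  have hmem : ∀ s ∈ K.faces, ∀ x ∈ s, (∀ i, 0 ≤ x i ∧ x i ≤ 1) ∧ ∑ i, x i = (k : ℝ) := by
    intro s hs x hx
    have h1 : x ∈ K.space := K.subset_space hs hx
    rw [hsp] at h1
    exact h1
  have hk0 : (k : ℝ) ≠ 0 := by
    have : k ≠ 0 := by omega
    exact_mod_cast this
  refine ⟨?_, fun s hs x hx => (hmem s hs x hx).2, ?_, fun s hs t hts htn => K.down_closed hs hts htn, ?_, ?_, ?_⟩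
  · intro s hs x hx i
    obtain ⟨m, hm⟩ := hint s hs x hx i
    obtain ⟨h1, h2⟩ := (hmem s hs x hx).1 i
    rw [hm] at h1 h2 ⊢
    have h3 : 0 ≤ m := by exact_mod_cast h1
    have h4 : m ≤ 1 := by exact_mod_cast h2
    have h5 : m = 0 ∨ m = 1 := by omega
    rcases h5 with h5 | h5
    · exact Or.inl (by rw [h5, Int.cast_zero])
    · exact Or.inr (by rw [h5, Int.cast_one])
  · intro s hs w hw x hx
    have hw1 : ∑ y ∈ s, w y = 0 := by
      have h1 : ∑ i, (∑ y ∈ s, w y • y) i = ∑ y ∈ s, w y * k := by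
        have h2 : ∀ i, (∑ y ∈ s, w y • y) i = ∑ y ∈ s, w y * y i := by
          intro i
          rw [Finset.sum_apply]
          exact Finset.sum_congr rfl fun y _ => rfl
        rw [Finset.sum_congr rfl (fun i _ => h2 i), Finset.sum_comm]
        refine Finset.sum_congr rfl fun y hy => ?_
        rw [← Finset.mul_sum, (hmem s hs y hy).2]
      rw [hw, ← Finset.sum_mul] at h1
      have h3 : ∑ i : Fin n, (0 : Fin n → ℝ) i = 0 := Finset.sum_eq_zero fun i _ => rfl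
      rw [h3] at h1
      exact (mul_eq_zero.1 h1.symm).resolve_right hk0
    have h1 := affineIndependent_iff.1 (K.indep hs) Finset.univ (fun y => w y) (by
      rw [Finset.sum_coe_sort s w]
      exact hw1) (by
      rw [Finset.sum_coe_sort s (fun y => w y • y)]
      exact hw)
    exact h1 ⟨x, hx⟩ (Finset.mem_univ _)
  · intro s hs t ht c hcs hct
    have h1 := K.inter_subset_convexHull hs ht ⟨hcs, hct⟩
    rwa [← Finset.coe_inter] at h1
  · intro x hx hxs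
    have h1 : x ∈ K.space := by
      rw [hsp]
      exact ⟨hx, hxs⟩
    exact Geometry.SimplicialComplex.mem_space_iff.1 h1
  · intro g hg s hs
    exact hinv g hg s hs

variable {κ : Type} [Fintype κ] [DecidableEq κ]

/-- the elements of `G` which leave `X` and `I` invariant -/
def Stab (G : Set (Equiv.Perm κ)) (X I : Finset κ) : Set (Equiv.Perm κ) :=
  {g | g ∈ G ∧ (∀ i, g i ∈ X ↔ i ∈ X) ∧ ∀ i, g i ∈ I ↔ i ∈ I}

theorem mem_resG {G : Set (Equiv.Perm κ)} {X I : Finset κ} {g : Equiv.Perm κ} (hg : g ∈ Stab G X I) :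
    g.subtypePerm hg.2.1 ∈ resG G X I := ⟨g, hg.1, hg.2.1, hg.2.2, fun _ => rfl⟩

theorem face_TT {k j : ℕ} {G : Set (Equiv.Perm κ)} {T : Set (Finset (κ → ℝ))} (h : Tri k G T) {X I : Finset κ}
    (hXI : Disjoint X I) (hj : I.card + j = k) (h2 : 2 ≤ j) (h3 : j + 2 ≤ X.card)
    (htt : ∀ a ∈ X, ∀ b ∈ X, ∀ c ∈ X, ∀ d ∈ X, a ≠ b → c ≠ d → ∃ g ∈ Stab G X I, g a = c ∧ g b = d) : False := by
  refine no_tri (face_tri h hXI hj (by omega)) h2 (by rw [Fintype.card_coe]; exact h3) ?_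
  intro a b c d hab hcd
  obtain ⟨g, hg, h4, h5⟩ := htt a a.2 b b.2 c c.2 d d.2 (fun h6 => hab (Subtype.ext h6)) (fun h6 => hcd (Subtype.ext h6))
  exact ⟨_, mem_resG hg, Subtype.ext h4, Subtype.ext h5⟩

theorem face_TH {k j : ℕ} {G : Set (Equiv.Perm κ)} {T : Set (Finset (κ → ℝ))} (h : Tri k G T) {X I : Finset κ}
    (hXI : Disjoint X I) (hj : I.card + j = k) (h2 : 2 ≤ j) (h3 : j + 2 ≤ X.card)
    (htt : ∀ a ∈ X, ∀ b ∈ X, ∀ c ∈ X, ∀ d ∈ X, a ≠ b → c ≠ d → ∃ g ∈ Stab G X I, (g a = c ∧ g b = d) ∨ (g a = d ∧ g b = c)) :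
    X.card - 1 ∣ j * (j - 1) := by
  have h1 := dvd_of_TH (face_tri h hXI hj (by omega)) (by omega) (by rw [Fintype.card_coe]; omega)
    (by rw [Fintype.card_coe]; omega) ?_
  · rwa [Fintype.card_coe] at h1
  · intro a b c d hab hcd
    obtain ⟨g, hg, h4⟩ := htt a a.2 b b.2 c c.2 d d.2 (fun h6 => hab (Subtype.ext h6)) (fun h6 => hcd (Subtype.ext h6))
    refine ⟨_, mem_resG hg, ?_⟩
    rcases h4 with ⟨h4, h5⟩ | ⟨h4, h5⟩
    · exact Or.inl ⟨Subtype.ext h4, Subtype.ext h5⟩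
    · exact Or.inr ⟨Subtype.ext h4, Subtype.ext h5⟩

/-- a set of permutations with a fixed point `d`, transitive on `Y`, leaving `I` invariant -/
theorem face_fix {k j : ℕ} {G : Set (Equiv.Perm κ)} {T : Set (Finset (κ → ℝ))} (h : Tri k G T) {Y I : Finset κ} {d : κ}
    (hYI : Disjoint Y I) (hdY : d ∉ Y) (hdI : d ∉ I) (hj : I.card + j = k) (h2 : 2 ≤ j) (h3 : j + 1 ≤ Y.card)
    (hGY : ∀ g ∈ G, ∀ i, g i ∈ Y ↔ i ∈ Y) (hGI : ∀ g ∈ G, ∀ i, g i ∈ I ↔ i ∈ I) (hGd : ∀ g ∈ G, g d = d)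
    (htr : ∀ a ∈ Y, ∀ b ∈ Y, ∃ g ∈ G, g a = b) :
    ¬ Nat.Coprime Y.card j ∧ ¬ Nat.Coprime Y.card (j - 1) ∧
      ¬ ∀ a ∈ Y, ∀ b ∈ Y, ∀ c ∈ Y, ∀ e ∈ Y, a ≠ b → c ≠ e → ∃ g ∈ G, (g a = c ∧ g b = e) ∨ (g a = e ∧ g b = c) := by
  have hXI : Disjoint (insert d Y) I := by
    rw [Finset.disjoint_insert_left]
    exact ⟨hdI, hYI⟩
  have hXc : Fintype.card (insert d Y : Finset κ) = Y.card + 1 := by
    rw [Fintype.card_coe, card_insert_of_notMem hdY]
  have hft := face_tri h hXI hj (by omega)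
  set d' : (insert d Y : Finset κ) := ⟨d, mem_insert_self _ _⟩ with hd'
  have hSt : ∀ g ∈ G, g ∈ Stab G (insert d Y) I := by
    intro g hg
    refine ⟨hg, fun i => ?_, hGI g hg⟩
    rw [mem_insert, mem_insert, hGY g hg]
    constructor
    · rintro (h4 | h4)
      · exact Or.inl (g.injective (h4.trans (hGd g hg).symm))
      · exact Or.inr h4
    · rintro (h4 | h4)
      · exact Or.inl (by rw [h4, hGd g hg])
      · exact Or.inr h4
  have hd2 : ∀ p ∈ resG G (insert d Y) I, p d' = d' := by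
    rintro p ⟨g, hg, -, -, hp⟩
    apply Subtype.ext
    rw [hp, hd']
    exact hGd g hg
  have hmemY : ∀ a : (insert d Y : Finset κ), a ≠ d' → (a : κ) ∈ Y := by
    intro a ha
    rcases mem_insert.1 a.2 with h4 | h4
    · exact absurd (Subtype.ext h4) ha
    · exact h4
  have htr' : ∀ a b : (insert d Y : Finset κ), a ≠ d' → b ≠ d' → ∃ p ∈ resG G (insert d Y) I, p a = b := by
    intro a b ha hb
    obtain ⟨g, hg, h4⟩ := htr a (hmemY a ha) b (hmemY b hb)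
    exact ⟨_, mem_resG (hSt g hg), Subtype.ext h4⟩
  refine ⟨fun hco => ?_, fun hco => ?_, fun hTH => ?_⟩
  · exact no_pfix hft h2 (by omega) d' hd2 htr' (Or.inl (by rw [hXc, Nat.add_sub_cancel]; exact hco))
  · exact no_pfix hft h2 (by omega) d' hd2 htr' (Or.inr (by rw [hXc, Nat.add_sub_cancel]; exact hco))
  · refine no_fix hft h2 (by omega) d' hd2 ?_
    intro a b c e ha hb hc he hab hce
    obtain ⟨g, hg, h4⟩ := hTH a (hmemY a ha) b (hmemY b hb) c (hmemY c hc) e (hmemY e he)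
      (fun h6 => hab (Subtype.ext h6)) (fun h6 => hce (Subtype.ext h6))
    refine ⟨_, mem_resG (hSt g hg), ?_⟩
    rcases h4 with ⟨h4, h5⟩ | ⟨h4, h5⟩
    · exact Or.inl ⟨Subtype.ext h4, Subtype.ext h5⟩
    · exact Or.inr ⟨Subtype.ext h4, Subtype.ext h5⟩

end Pool.Agent.Lib.MP079fc8
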