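import Pool.Agent.Lib.MP_079fc8_co.Tri

/-!
MP_079fc8_co. The carrier of the barycentre is a symmetric design and a basis.
-/

set_option autoImplicit false
set_option linter.unusedSectionVars false

namespace Pool.Agent.Lib.MP079fc8

open Finset

variable {ι : Type} [Fintype ι] [DecidableEq ι]
variable {k : ℕ} {G : Set (Equiv.Perm ι)} {T : Set (Finset (ι → ℝ))}

/-- two-transitivity -/
def TT (G : Set (Equiv.Perm ι)) : Prop := ∀ a b c d : ι, a ≠ b → c ≠ d → ∃ g ∈ G, g a = c ∧ g b = d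

/-- two-homogeneity: transitivity on unordered pairs -/
def TH (G : Set (Equiv.Perm ι)) : Prop :=
  ∀ a b c d : ι, a ≠ b → c ≠ d → ∃ g ∈ G, (g a = c ∧ g b = d) ∨ (g a = d ∧ g b = c)

theorem TT.th {G : Set (Equiv.Perm ι)} (h : TT G) : TH G := fun a b c d hab hcd => by
  obtain ⟨g, hg, h1⟩ := h a b c d hab hcd
  exact ⟨g, hg, Or.inl h1⟩

theorem li_family {F : Finset (ι → ℝ)} (h : ∀ w : (ι → ℝ) → ℝ, ∑ x ∈ F, w x • x = 0 → ∀ x ∈ F, w x = 0) :
    LinearIndependent ℝ (fun x : F => (x : ι → ℝ)) := by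
  classical
  rw [Fintype.linearIndependent_iff]
  intro g hg x
  have h1 := h (fun y => if hy : y ∈ F then g ⟨y, hy⟩ else 0) ?_ x x.2
  · simpa using h1
  · rw [← hg, ← Finset.sum_coe_sort F]
    refine Finset.sum_congr rfl fun y _ => ?_
    simp

theorem sum_inv {F : Finset (ι → ℝ)} {g : Equiv.Perm ι} (hF : F.image (pm g) = F) (φ : (ι → ℝ) → ℝ) :
    ∑ x ∈ F, φ (pm g x) = ∑ x ∈ F, φ x := by
  conv_rhs => rw [← hF]
  rw [Finset.sum_image fun x _ y _ hxy => pm_inj g hxy]

theorem design (h : Tri k G T) (hk : 1 ≤ k) (hkn : k + 1 ≤ Fintype.card ι) (hn3 : 3 ≤ Fintype.card ι) (htt : TH G) :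
    ∃ F ∈ T, (∀ g ∈ G, F.image (pm g) = F) ∧ F.card = Fintype.card ι ∧ (∀ i, ∑ x ∈ F, x i = (k : ℝ)) ∧
      (∀ i j, i ≠ j → ((Fintype.card ι : ℝ) - 1) * ∑ x ∈ F, x i * x j = ((k : ℝ) - 1) * k) ∧
      Submodule.span ℝ (F : Set (ι → ℝ)) = ⊤ := by
  classical
  set n : ℕ := Fintype.card ι with hn
  have hn2 : 2 ≤ n := by omega
  have hnt : Nontrivial ι := Fintype.one_lt_card_iff_nontrivial.1 (by omega)
  have hn0 : (n : ℝ) ≠ 0 := by
    have : n ≠ 0 := by omega
    exact_mod_cast this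
  have hnp : (0 : ℝ) < n := by
    have : 0 < n := by omega
    exact_mod_cast this
  have hkn' : (k : ℝ) + 1 ≤ n := by exact_mod_cast hkn
  have hk' : (1 : ℝ) ≤ k := by exact_mod_cast hk
  obtain ⟨F, hF, hFc, hFi⟩ := carrier h (fun _ => (k : ℝ) / n) (fun i => ⟨by positivity, by
    rw [div_le_one hnp]; linarith⟩) (by
    rw [Finset.sum_const, Finset.card_univ, nsmul_eq_mul, ← hn]
    field_simp) (fun g _ => by
    funext i
    rfl)
  have hFne : F.Nonempty := hull_nonempty hFc
  have hx : ∀ x ∈ F, ∀ i, x i * x i = x i := by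
    intro x hx i
    rcases h.vtx F hF x hx i with h1 | h1 <;> rw [h1] <;> norm_num
  -- invariance of the Gram matrix
  have hM : ∀ a b c d : ι, a ≠ b → c ≠ d → ∑ x ∈ F, x a * x b = ∑ x ∈ F, x c * x d := by
    intro a b c d hab hcd
    obtain ⟨g, hg, h12⟩ := htt a b c d hab hcd
    rw [← sum_inv (hFi g hg) (fun x => x c * x d)]
    refine Finset.sum_congr rfl fun x _ => ?_
    rcases h12 with ⟨h1, h2⟩ | ⟨h1, h2⟩
    · rw [pm_apply, pm_apply, ← h1, ← h2, Equiv.symm_apply_apply, Equiv.symm_apply_apply]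
    · rw [pm_apply, pm_apply, ← h1, ← h2, Equiv.symm_apply_apply, Equiv.symm_apply_apply, mul_comm]
  have hR2 : ∀ a b c d : ι, a ≠ b → c ≠ d → ∑ x ∈ F, x a + ∑ x ∈ F, x b = ∑ x ∈ F, x c + ∑ x ∈ F, x d := by
    intro a b c d hab hcd
    obtain ⟨g, hg, h12⟩ := htt a b c d hab hcd
    rw [← Finset.sum_add_distrib, ← Finset.sum_add_distrib, ← sum_inv (hFi g hg) (fun x => x c + x d)]
    refine Finset.sum_congr rfl fun x _ => ?_
    rcases h12 with ⟨h1, h2⟩ | ⟨h1, h2⟩
    · rw [pm_apply, pm_apply, ← h1, ← h2, Equiv.symm_apply_apply, Equiv.symm_apply_apply]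
    · rw [pm_apply, pm_apply, ← h1, ← h2, Equiv.symm_apply_apply, Equiv.symm_apply_apply, add_comm]
  have hR : ∀ a c : ι, ∑ x ∈ F, x a = ∑ x ∈ F, x c := by
    intro a c
    by_cases hac : a = c
    · rw [hac]
    · obtain ⟨e, he⟩ : ∃ e, e ∉ ({a, c} : Finset ι) := by
        by_contra hcon
        push Not at hcon
        have h1 : (Finset.univ : Finset ι) ⊆ {a, c} := fun x _ => hcon x
        have h2 := Finset.card_le_card h1
        rw [Finset.card_univ, ← hn] at h2
        have h3 := Finset.card_le_two (a := a) (b := c)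
        omega
      rw [Finset.mem_insert, Finset.mem_singleton, not_or] at he
      have := hR2 e a e c he.1 he.2
      linarith
  obtain ⟨i0, i1, h01⟩ := exists_pair_ne ι
  set r : ℝ := ∑ x ∈ F, x i0 with hr
  set l : ℝ := ∑ x ∈ F, x i0 * x i1 with hl
  have hRr : ∀ i, ∑ x ∈ F, x i = r := fun i => hR i i0
  have hMl : ∀ i j, i ≠ j → ∑ x ∈ F, x i * x j = l := fun i j hij => hM i j i0 i1 hij h01
  have hrow : r + ((n : ℝ) - 1) * l = k * r := by
    have h1 : ∑ j, ∑ x ∈ F, x i0 * x j = k * r := by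
      rw [Finset.sum_comm, hr, Finset.mul_sum]
      refine Finset.sum_congr rfl fun x hx' => ?_
      rw [← Finset.mul_sum, h.sum F hF x hx', mul_comm]
    have h2 : ∑ j, ∑ x ∈ F, x i0 * x j = r + ((n : ℝ) - 1) * l := by
      rw [← Finset.add_sum_erase Finset.univ _ (Finset.mem_univ i0)]
      congr 1
      · exact Finset.sum_congr rfl fun x hx' => hx x hx' i0
      · rw [Finset.sum_congr rfl (fun j hj => hMl i0 j (Finset.ne_of_mem_erase hj).symm), Finset.sum_const,
          Finset.card_erase_of_mem (Finset.mem_univ i0), Finset.card_univ, ← hn, nsmul_eq_mul, Nat.cast_sub (by omega)]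
        norm_num
    rw [← h2, h1]
  have htot : (n : ℝ) * r = k * F.card := by
    have h1 : ∑ i, ∑ x ∈ F, x i = (n : ℝ) * r := by
      rw [Finset.sum_congr rfl (fun i _ => hRr i), Finset.sum_const, Finset.card_univ, ← hn, nsmul_eq_mul]
    rw [← h1, Finset.sum_comm, Finset.sum_congr rfl (fun x hx' => h.sum F hF x hx'), Finset.sum_const, nsmul_eq_mul, mul_comm]
  have hFp : (0 : ℝ) < F.card := by
    have := hFne.card_pos
    exact_mod_cast this
  have hrp : 0 < r := by
    by_contra hcon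
    push Not at hcon
    nlinarith [mul_pos (show (0 : ℝ) < k by linarith) hFp]
  have hrl : 0 < r - l := by
    have h1 : ((n : ℝ) - 1) * (r - l) = (n - k) * r := by linarith
    have h2 : 0 < ((n : ℝ) - k) * r := mul_pos (by linarith) hrp
    have h3 : 0 < (n : ℝ) - 1 := by linarith
    by_contra hcon
    push Not at hcon
    nlinarith
  set S := Submodule.span ℝ (F : Set (ι → ℝ)) with hS
  have hmem : ∀ x ∈ F, x ∈ S := fun x hx' => Submodule.subset_span hx'
  have hone : (fun _ => (1 : ℝ)) ∈ S := by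
    have h1 : (fun _ : ι => (1 : ℝ)) = r⁻¹ • ∑ x ∈ F, x := by
      funext i
      rw [Pi.smul_apply, Finset.sum_apply, hRr i, smul_eq_mul, inv_mul_cancel₀ hrp.ne']
    rw [h1]
    exact S.smul_mem _ (S.sum_mem hmem)
  have hsingle : ∀ i, (Pi.single i (1 : ℝ) : ι → ℝ) ∈ S := by
    intro i
    have h1 : (Pi.single i (1 : ℝ) : ι → ℝ) = (r - l)⁻¹ • ((∑ x ∈ F, x i • x) - l • fun _ => (1 : ℝ)) := by
      funext j
      rw [Pi.smul_apply, Pi.sub_apply, Finset.sum_apply, Pi.smul_apply, smul_eq_mul, smul_eq_mul, mul_one]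
      by_cases hij : j = i
      · subst hij
        rw [Pi.single_eq_same]
        have h2 : ∑ x ∈ F, (x j • x) j = r := by
          rw [← hRr j]
          exact Finset.sum_congr rfl fun x hx' => by rw [Pi.smul_apply, smul_eq_mul, hx x hx' j]
        rw [h2, inv_mul_cancel₀ hrl.ne']
      · rw [Pi.single_eq_of_ne hij]
        have h2 : ∑ x ∈ F, (x i • x) j = l := by
          rw [← hMl i j (Ne.symm hij)]
          exact Finset.sum_congr rfl fun x hx' => by rw [Pi.smul_apply, smul_eq_mul]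
        rw [h2, sub_self, mul_zero]
    rw [h1]
    exact S.smul_mem _ (S.sub_mem (S.sum_mem fun x hx' => S.smul_mem _ (hmem x hx')) (S.smul_mem _ hone))
  have htop : S = ⊤ := by
    rw [eq_top_iff]
    intro v _
    have h1 : v = ∑ i, v i • (Pi.single i (1 : ℝ) : ι → ℝ) := by
      funext j
      rw [Finset.sum_apply, Finset.sum_eq_single j]
      · rw [Pi.smul_apply, Pi.single_eq_same, smul_eq_mul, mul_one]
      · intro b _ hb
        rw [Pi.smul_apply, Pi.single_eq_of_ne hb.symm, smul_zero]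
      · intro hj
        exact absurd (Finset.mem_univ j) hj
    rw [h1]
    exact S.sum_mem fun i _ => S.smul_mem _ (hsingle i)
  have hcard : F.card = n := by
    have hLI := li_family (h.li F hF)
    have hr' : Set.range (fun x : F => (x : ι → ℝ)) = (F : Set (ι → ℝ)) := by
      ext y
      simp
    let b := Module.Basis.mk hLI (by rw [hr', ← hS, htop])
    have h1 := Module.finrank_eq_card_basis b
    rw [Module.finrank_fintype_fun_eq_card, Fintype.card_coe] at h1
    omega
  have hrk : r = k := by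
    rw [hcard] at htot
    have := mul_left_cancel₀ hn0 (htot.trans (mul_comm _ _))
    exact this
  refine ⟨F, hF, hFi, hcard, fun i => by rw [hRr i, hrk], fun i j hij => ?_, htop⟩
  rw [hMl i j hij]
  rw [hrk] at hrow
  linarith

end Pool.Agent.Lib.MP079fc8
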