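import Pool.Agent.Lib.MP_079fc8_co.NoTri

/-!
MP_079fc8_co. Restriction to the faces of the hypersimplex.
-/

set_option autoImplicit false
set_option linter.unusedSectionVars false

namespace Pool.Agent.Lib.MP079fc8

open Finset

variable {κ : Type} [Fintype κ] [DecidableEq κ]

/-- the face given by the sets `X` (free coordinates) and `I` (coordinates one) -/
def InFace (X I : Finset κ) (x : κ → ℝ) : Prop := (∀ i ∈ I, x i = 1) ∧ ∀ i, i ∉ X → i ∉ I → x i = 0

/-- restriction to the coordinates in `X` -/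
noncomputable def res (X : Finset κ) : (κ → ℝ) →ₗ[ℝ] (X → ℝ) := LinearMap.funLeft ℝ ℝ (Subtype.val : X → κ)

theorem res_apply (X : Finset κ) (x : κ → ℝ) (i : X) : res X x i = x i := rfl

/-- the linear extension by zero -/
noncomputable def extL (X : Finset κ) : (X → ℝ) →ₗ[ℝ] (κ → ℝ) where
  toFun c i := if h : i ∈ X then c ⟨i, h⟩ else 0
  map_add' c d := by
    funext i
    by_cases h : i ∈ X <;> simp [h]
  map_smul' a c := by
    funext i
    by_cases h : i ∈ X <;> simp [h]

/-- the extension by one on `I` -/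
noncomputable def ext (X I : Finset κ) : (X → ℝ) →ᵃ[ℝ] (κ → ℝ) :=
  (extL X).toAffineMap + AffineMap.const ℝ _ (fun i => if i ∈ I then (1 : ℝ) else 0)

theorem ext_apply (X I : Finset κ) (c : X → ℝ) (i : κ) :
    ext X I c i = (if h : i ∈ X then c ⟨i, h⟩ else 0) + if i ∈ I then (1 : ℝ) else 0 := rfl

theorem ext_res {X I : Finset κ} (hXI : Disjoint X I) {x : κ → ℝ} (hx : InFace X I x) : ext X I (res X x) = x := by
  funext i
  rw [ext_apply]
  by_cases h : i ∈ X
  · have h2 : i ∉ I := fun h3 => Finset.disjoint_left.1 hXI h h3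
    rw [dif_pos h, if_neg h2, add_zero, res_apply]
  · by_cases h2 : i ∈ I
    · rw [dif_neg h, if_pos h2, hx.1 i h2, zero_add]
    · rw [dif_neg h, if_neg h2, hx.2 i h h2, zero_add]

theorem res_ext {X I : Finset κ} (hXI : Disjoint X I) (c : X → ℝ) : res X (ext X I c) = c := by
  funext i
  rw [res_apply, ext_apply, dif_pos i.2, if_neg (fun h3 => Finset.disjoint_left.1 hXI i.2 h3), add_zero]

theorem res_injOn {X I : Finset κ} (hXI : Disjoint X I) {x y : κ → ℝ} (hx : InFace X I x) (hy : InFace X I y)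
    (h : res X x = res X y) : x = y := by
  rw [← ext_res hXI hx, ← ext_res hXI hy, h]

theorem hull_res {X : Finset κ} {s : Finset (κ → ℝ)} {c : κ → ℝ} (hc : c ∈ convexHull ℝ (s : Set (κ → ℝ))) :
    res X c ∈ convexHull ℝ ((s.image (res X) : Finset (X → ℝ)) : Set (X → ℝ)) := by
  rw [coe_image, ← LinearMap.image_convexHull]
  exact ⟨c, hc, rfl⟩

theorem hull_ext {X I : Finset κ} (hXI : Disjoint X I) {s : Finset (κ → ℝ)} (hs : ∀ x ∈ s, InFace X I x) {c : X → ℝ}
    (hc : c ∈ convexHull ℝ ((s.image (res X) : Finset (X → ℝ)) : Set (X → ℝ))) :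
    ext X I c ∈ convexHull ℝ (s : Set (κ → ℝ)) := by
  have h1 : ext X I '' (convexHull ℝ ((s.image (res X) : Finset (X → ℝ)) : Set (X → ℝ))) ⊆ convexHull ℝ (s : Set (κ → ℝ)) := by
    rw [AffineMap.image_convexHull]
    refine convexHull_mono ?_
    rintro _ ⟨y, hy, rfl⟩
    rw [coe_image] at hy
    obtain ⟨x, hx, rfl⟩ := hy
    rw [ext_res hXI (hs x hx)]
    exact hx
  exact h1 ⟨c, hc, rfl⟩

/-- the sum of the free coordinates -/
theorem sum_face {X I : Finset κ} (hXI : Disjoint X I) {x : κ → ℝ} (hx : InFace X I x) :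
    ∑ i, x i = ∑ i : X, x i + (I.card : ℝ) := by
  have h1 : ∑ i ∈ X ∪ I, x i = ∑ i, x i := by
    refine Finset.sum_subset (Finset.subset_univ _) fun i _ hi => ?_
    rw [mem_union, not_or] at hi
    exact hx.2 i hi.1 hi.2
  rw [← h1, Finset.sum_union hXI, Finset.sum_coe_sort X x, Finset.sum_congr rfl (fun i hi => hx.1 i hi), Finset.sum_const,
    nsmul_eq_mul, mul_one]

/-- the permutations of `X` induced by the elements of `G` which leave `X` and `I` invariant -/
def resG (G : Set (Equiv.Perm κ)) (X I : Finset κ) : Set (Equiv.Perm X) :=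
  {h | ∃ g ∈ G, (∀ i, g i ∈ X ↔ i ∈ X) ∧ (∀ i, g i ∈ I ↔ i ∈ I) ∧ ∀ x : X, (h x : κ) = g x}

/-- the triangulation of the face -/
def resT (T : Set (Finset (κ → ℝ))) (X I : Finset κ) : Set (Finset (X → ℝ)) :=
  {t | ∃ s ∈ T, (∀ x ∈ s, InFace X I x) ∧ t = s.image (res X)}

theorem face_tri {k j : ℕ} {G : Set (Equiv.Perm κ)} {T : Set (Finset (κ → ℝ))} (h : Tri k G T) {X I : Finset κ}
    (hXI : Disjoint X I) (hj : I.card + j = k) (hj1 : 1 ≤ j) : Tri j (resG G X I) (resT T X I) := by
  classical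
  have hj' : (I.card : ℝ) + j = k := by exact_mod_cast hj
  have hj0 : (j : ℝ) ≠ 0 := by
    have : j ≠ 0 := by omega
    exact_mod_cast this
  have hsumX : ∀ s ∈ T, ∀ x ∈ s, InFace X I x → ∑ i : X, x i = (j : ℝ) := by
    intro s hs x hx hxf
    have h1 := sum_face hXI hxf
    rw [h.sum s hs x hx] at h1
    linarith
  refine ⟨?_, ?_, ?_, ?_, ?_, ?_, ?_⟩
  · rintro t ⟨s, hs, hsf, rfl⟩ y hy i
    obtain ⟨x, hx, rfl⟩ := mem_image.1 hy
    exact h.vtx s hs x hx i
  · rintro t ⟨s, hs, hsf, rfl⟩ y hy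
    obtain ⟨x, hx, rfl⟩ := mem_image.1 hy
    exact hsumX s hs x hx (hsf x hx)
  · rintro t ⟨s, hs, hsf, rfl⟩ w hw y hy
    obtain ⟨x, hx, rfl⟩ := mem_image.1 hy
    rw [Finset.sum_image fun a ha b hb hab => res_injOn hXI (hsf a ha) (hsf b hb) hab] at hw
    have hw' : ∀ i : X, ∑ a ∈ s, w (res X a) * a i = 0 := by
      intro i
      have h1 := congrFun hw i
      rw [Finset.sum_apply, Pi.zero_apply] at h1
      rw [← h1]
      exact Finset.sum_congr rfl fun a _ => rfl
    have hw1 : ∑ a ∈ s, w (res X a) = 0 := by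
      have h1 : ∑ i : X, ∑ a ∈ s, w (res X a) * a i = 0 := Finset.sum_eq_zero fun i _ => hw' i
      rw [Finset.sum_comm] at h1
      have h2 : ∑ a ∈ s, ∑ i : X, w (res X a) * a i = ∑ a ∈ s, w (res X a) * j := by
        refine Finset.sum_congr rfl fun a ha => ?_
        rw [← Finset.mul_sum, hsumX s hs a ha (hsf a ha)]
      rw [h2, ← Finset.sum_mul] at h1
      exact (mul_eq_zero.1 h1).resolve_right hj0
    refine h.li s hs (fun a => w (res X a)) ?_ x hx
    funext i
    rw [Finset.sum_apply, Pi.zero_apply]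
    by_cases hi : i ∈ X
    · exact hw' ⟨i, hi⟩
    · by_cases hi2 : i ∈ I
      · rw [← hw1]
        refine Finset.sum_congr rfl fun a ha => ?_
        rw [Pi.smul_apply, (hsf a ha).1 i hi2, smul_eq_mul, mul_one]
      · refine Finset.sum_eq_zero fun a ha => ?_
        rw [Pi.smul_apply, (hsf a ha).2 i hi hi2, smul_zero]
  · rintro t ⟨s, hs, hsf, rfl⟩ t' ht' htn
    obtain ⟨s', hs', rfl⟩ := Finset.subset_image_iff.1 ht'
    have hsn : s'.Nonempty := by
      rw [← Finset.image_nonempty (f := res X)]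
      exact htn
    exact ⟨s', h.down s hs s' hs' hsn, fun x hx => hsf x (hs' hx), rfl⟩
  · rintro t ⟨s, hs, hsf, rfl⟩ t' ⟨s', hs', hsf', rfl⟩ c hc hc'
    have h1 := h.inter s hs s' hs' _ (hull_ext hXI hsf hc) (hull_ext hXI hsf' hc')
    have h2 := hull_res (X := X) h1
    rw [res_ext hXI] at h2
    refine convexHull_mono ?_ h2
    intro y hy
    rw [mem_coe] at hy ⊢
    obtain ⟨x, hx, rfl⟩ := mem_image.1 hy
    obtain ⟨hx1, hx2⟩ := mem_inter.1 hx
    exact mem_inter.2 ⟨mem_image_of_mem _ hx1, mem_image_of_mem _ hx2⟩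
  · intro c hc hcs
    have hf : InFace X I (ext X I c) := by
      constructor
      · intro i hi
        rw [ext_apply, dif_neg (fun h3 => Finset.disjoint_left.1 hXI h3 hi), if_pos hi, zero_add]
      · intro i hi hi2
        rw [ext_apply, dif_neg hi, if_neg hi2, zero_add]
    have hX : ∀ i : X, ext X I c i = c i := fun i => congrFun (res_ext hXI c) i
    obtain ⟨s, hs, hcs'⟩ := h.cover (ext X I c) (fun i => by
      by_cases hi : i ∈ X
      · have := hX ⟨i, hi⟩
        simp only at this
        rw [this]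
        exact hc ⟨i, hi⟩
      · by_cases hi2 : i ∈ I
        · rw [hf.1 i hi2]
          norm_num
        · rw [hf.2 i hi hi2]
          norm_num) (by
      rw [sum_face hXI hf, Finset.sum_congr rfl (fun i _ => hX i), hcs]
      linarith)
    obtain ⟨w, hw0, hw1, hw⟩ := Finset.mem_convexHull'.1 hcs'
    have hwi : ∀ i, ∑ y ∈ s, w y * y i = ext X I c i := by
      intro i
      rw [← hw, Finset.sum_apply]
      exact Finset.sum_congr rfl fun y _ => rfl
    have hy01 : ∀ y ∈ s, ∀ i, 0 ≤ y i ∧ y i ≤ 1 := by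
      intro y hy i
      rcases h.vtx s hs y hy i with h1 | h1 <;> rw [h1] <;> norm_num
    set s0 := s.filter fun y => w y ≠ 0 with hs0
    have hs0f : ∀ y ∈ s0, InFace X I y := by
      intro y hy
      obtain ⟨hys, hwy⟩ := mem_filter.1 hy
      constructor
      · intro i hi
        have h1 : ∑ z ∈ s, w z * (1 - z i) = 0 := by
          have h2 : ∑ z ∈ s, w z * (1 - z i) = ∑ z ∈ s, w z - ∑ z ∈ s, w z * z i := by
            rw [← Finset.sum_sub_distrib]
            exact Finset.sum_congr rfl fun z _ => by ring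
          rw [h2, hw1, hwi, hf.1 i hi, sub_self]
        have h3 := (Finset.sum_eq_zero_iff_of_nonneg (fun z hz => mul_nonneg (hw0 z hz) (by
          have := (hy01 z hz i).2
          linarith))).1 h1 y hys
        rcases mul_eq_zero.1 h3 with h4 | h4
        · exact absurd h4 hwy
        · linarith
      · intro i hi hi2
        have h1 : ∑ z ∈ s, w z * z i = 0 := by
          rw [hwi, hf.2 i hi hi2]
        have h3 := (Finset.sum_eq_zero_iff_of_nonneg (fun z hz => mul_nonneg (hw0 z hz) (hy01 z hz i).1)).1 h1 y hys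
        rcases mul_eq_zero.1 h3 with h4 | h4
        · exact absurd h4 hwy
        · exact h4
    have hcs0 : ext X I c ∈ convexHull ℝ (s0 : Set (κ → ℝ)) := by
      refine Finset.mem_convexHull'.2 ⟨w, fun y hy => hw0 y (mem_filter.1 hy).1, ?_, ?_⟩
      · rw [← hw1]
        refine Finset.sum_subset (filter_subset _ _) fun y hy hy' => ?_
        by_contra hcon
        exact hy' (mem_filter.2 ⟨hy, hcon⟩)
      · rw [← hw]
        refine Finset.sum_subset (filter_subset _ _) fun y hy hy' => ?_
        have : w y = 0 := by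
          by_contra hcon
          exact hy' (mem_filter.2 ⟨hy, hcon⟩)
        rw [this, zero_smul]
    refine ⟨s0.image (res X), ⟨s0, h.down s hs s0 (filter_subset _ _) (hull_nonempty hcs0), hs0f, rfl⟩, ?_⟩
    have h5 := hull_res (X := X) hcs0
    rwa [res_ext hXI] at h5
  · rintro p ⟨g, hg, hgX, hgI, hp⟩ t ⟨s, hs, hsf, rfl⟩
    refine ⟨s.image (pm g), h.inv g hg s hs, ?_, ?_⟩
    · intro y hy
      obtain ⟨x, hx, rfl⟩ := mem_image.1 hy
      constructor
      · intro i hi
        rw [pm_apply]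
        refine (hsf x hx).1 _ ?_
        rw [← hgI, Equiv.apply_symm_apply]
        exact hi
      · intro i hi hi2
        rw [pm_apply]
        refine (hsf x hx).2 _ ?_ ?_
        · rw [← hgX, Equiv.apply_symm_apply]
          exact hi
        · rw [← hgI, Equiv.apply_symm_apply]
          exact hi2
    · rw [image_image, image_image]
      refine image_congr fun x _ => ?_
      funext i
      rw [Function.comp_apply, Function.comp_apply, pm_apply, res_apply, res_apply, pm_apply]
      congr 1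
      rw [Equiv.eq_symm_apply, ← hp, Equiv.apply_symm_apply]

end Pool.Agent.Lib.MP079fc8
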