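import Pool.Agent.Lib.MP_079fc8_co.Face

/-!
MP_079fc8_co. The divisibility for two-homogeneous groups, and groups with a fixed point which are two-homogeneous on the rest.
-/

set_option autoImplicit false
set_option linter.unusedSectionVars false

namespace Pool.Agent.Lib.MP079fc8

open Finset

variable {ι : Type} [Fintype ι] [DecidableEq ι]
variable {k : ℕ} {G : Set (Equiv.Perm ι)} {T : Set (Finset (ι → ℝ))}

theorem dvd_of_TH (h : Tri k G T) (hk : 1 ≤ k) (hkn : k + 1 ≤ Fintype.card ι) (hn3 : 3 ≤ Fintype.card ι) (htt : TH G) :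
    Fintype.card ι - 1 ∣ k * (k - 1) := by
  classical
  obtain ⟨F, hF, -, -, -, hl, -⟩ := design h hk hkn hn3 htt
  have hnt : Nontrivial ι := Fintype.one_lt_card_iff_nontrivial.1 (by omega)
  obtain ⟨i0, i1, h01⟩ := exists_pair_ne ι
  obtain ⟨m, hm⟩ : ∃ m : ℕ, ∑ x ∈ F, x i0 * x i1 = (m : ℝ) := by
    refine ⟨(F.filter fun x => x i0 = 1 ∧ x i1 = 1).card, ?_⟩
    rw [← Finset.sum_boole]
    refine Finset.sum_congr rfl fun x hx => ?_
    rcases h.vtx F hF x hx i0 with h1 | h1 <;> rcases h.vtx F hF x hx i1 with h2 | h2 <;> simp [h1, h2]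
  have h5 := hl i0 i1 h01
  rw [hm] at h5
  refine ⟨m, ?_⟩
  have h6 : (((Fintype.card ι - 1 : ℕ) : ℝ)) = (Fintype.card ι : ℝ) - 1 := by
    rw [Nat.cast_sub (by omega), Nat.cast_one]
  have h7 : ((k - 1 : ℕ) : ℝ) = (k : ℝ) - 1 := by
    rw [Nat.cast_sub (by omega), Nat.cast_one]
  have h8 : ((k * (k - 1) : ℕ) : ℝ) = (((Fintype.card ι - 1) * m : ℕ) : ℝ) := by
    rw [Nat.cast_mul, Nat.cast_mul, h6, h7, h5]
    ring
  exact_mod_cast h8

/-- a simplex with the centre of `D` contains `D`, and this persists nearby -/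
theorem near (h : Tri k G T) {D : Finset (ι → ℝ)} (hD : D ∈ T) (c : ℝ → ι → ℝ) (hc : Continuous c) (N : ℝ) (hN : 0 < N)
    (hcard : (D.card : ℝ) = N) (hc0 : c 0 = ∑ x ∈ D, (1 / N) • x) :
    ∃ δ : ℝ, 0 < δ ∧ ∀ ε, 0 < ε → ε < δ → ∀ s ∈ T, c ε ∈ convexHull ℝ (s : Set (ι → ℝ)) → D ⊆ s := by
  classical
  have hm : c 0 ∈ convexHull ℝ (D : Set (ι → ℝ)) := by
    rw [hc0]
    refine (convex_convexHull ℝ _).sum_mem (fun _ _ => by positivity) ?_ fun x hx => subset_convexHull ℝ _ hx
    rw [Finset.sum_const, nsmul_eq_mul, hcard]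
    field_simp
  set U : Set (ι → ℝ) := ⋃ s ∈ {s | s ∈ T ∧ ¬ D ⊆ s}, convexHull ℝ (s : Set (ι → ℝ)) with hU
  have hUc : IsClosed U :=
    ((tri_finite h).subset fun s hs => hs.1).isClosed_biUnion fun s _ => (s.finite_toSet).isClosed_convexHull ℝ
  have hmU : c 0 ∉ U := by
    intro hmem
    rw [hU, Set.mem_iUnion₂] at hmem
    obtain ⟨s, ⟨hs, hDs⟩, hms⟩ := hmem
    obtain ⟨C, hCD, hCs⟩ := not_subset.1 hDs
    have h1 := h.inter D hD s hs _ hm hms
    obtain ⟨w, -, -, hw⟩ := Finset.mem_convexHull'.1 h1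
    have h2 := h.li D hD (fun x => 1 / N - if x ∈ s then w x else 0) (by
      have h3 : ∑ x ∈ D, (1 / N - if x ∈ s then w x else 0) • x = ∑ x ∈ D, (1 / N) • x - ∑ x ∈ D, (if x ∈ s then w x else 0) • x := by
        rw [← Finset.sum_sub_distrib]
        exact Finset.sum_congr rfl fun x _ => sub_smul _ _ _
      have h4 : ∑ x ∈ D, (if x ∈ s then w x else 0) • x = ∑ x ∈ D ∩ s, w x • x := by
        rw [← Finset.filter_mem_eq_inter, Finset.sum_filter]
        refine Finset.sum_congr rfl fun x _ => ?_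
        by_cases hx : x ∈ s
        · rw [if_pos hx, if_pos hx]
        · rw [if_neg hx, if_neg hx, zero_smul]
      rw [h3, h4, hw, ← hc0, sub_self]) C hCD
    simp only [if_neg hCs, sub_zero] at h2
    have : 0 < 1 / N := by positivity
    linarith
  obtain ⟨δ, hδ, hball⟩ := Metric.isOpen_iff.1 (hUc.isOpen_compl.preimage hc) 0 hmU
  refine ⟨δ, hδ, fun ε h0 h1 s hs hcs => ?_⟩
  by_contra hcon
  have h2 : c ε ∉ U := by
    refine hball ?_
    rw [Metric.mem_ball, Real.dist_eq, sub_zero, abs_of_pos h0]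
    exact h1
  exact h2 (Set.mem_iUnion₂.2 ⟨s, ⟨hs, hcon⟩, hcs⟩)

theorem no_fix (h : Tri k G T) (hk : 2 ≤ k) (hkn : k + 2 ≤ Fintype.card ι) (d : ι) (hd : ∀ g ∈ G, g d = d)
    (hTH : ∀ a b c e : ι, a ≠ d → b ≠ d → c ≠ d → e ≠ d → a ≠ b → c ≠ e → ∃ g ∈ G, (g a = c ∧ g b = e) ∨ (g a = e ∧ g b = c)) :
    False := by
  classical
  set n : ℕ := Fintype.card ι with hn
  have hkn' : (k : ℝ) + 2 ≤ n := by exact_mod_cast hkn
  have hk' : (2 : ℝ) ≤ k := by exact_mod_cast hk
  set u : ℝ := (n : ℝ) - 1 with hu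
  have hu0 : 0 < u := by linarith
  set Y : Finset ι := Finset.univ.erase d with hY
  have hYmem : ∀ i, i ∈ Y ↔ i ≠ d := fun i => by simp [hY]
  have hYc : Fintype.card Y = n - 1 := by
    rw [Fintype.card_coe, hY, card_erase_of_mem (mem_univ d), card_univ]
  have hft := face_tri h (X := Y) (I := ∅) (disjoint_empty_right _) (j := k) (by simp) (by omega)
  have hgY : ∀ g ∈ G, ∀ i, g i ∈ Y ↔ i ∈ Y := by
    intro g hg i
    rw [hYmem, hYmem]
    constructor
    · rintro h1 rfl
      exact h1 (hd g hg)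
    · intro h1 h2
      exact h1 (g.injective (h2.trans (hd g hg).symm))
  have hTHY : TH (resG G Y ∅) := by
    intro a b c e hab hce
    obtain ⟨g, hg, h1⟩ := hTH a b c e ((hYmem _).1 a.2) ((hYmem _).1 b.2) ((hYmem _).1 c.2) ((hYmem _).1 e.2)
      (fun h2 => hab (Subtype.ext h2)) (fun h2 => hce (Subtype.ext h2))
    refine ⟨g.subtypePerm (fun i => hgY g hg i), ⟨g, hg, hgY g hg, fun i => by simp, fun x => rfl⟩, ?_⟩
    rcases h1 with ⟨h1, h2⟩ | ⟨h1, h2⟩
    · exact Or.inl ⟨Subtype.ext h1, Subtype.ext h2⟩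
    · exact Or.inr ⟨Subtype.ext h1, Subtype.ext h2⟩
  obtain ⟨t, ⟨D, hD, hDf, htD⟩, -, htc, htr, -, -⟩ := design hft (by omega) (by omega) (by omega) hTHY
  have hDc : D.card = n - 1 := by
    rw [htD, hYc, card_image_of_injOn fun a ha b hb hab => res_injOn (disjoint_empty_right _) (hDf a ha) (hDf b hb) hab] at htc
    exact htc
  have hDcr : (D.card : ℝ) = u := by
    rw [hDc, hu, Nat.cast_sub (by omega), Nat.cast_one]
  have hDd : ∀ x ∈ D, x d = 0 := fun x hx => (hDf x hx).2 d (by rw [hYmem]; exact fun h1 => h1 rfl) (by simp)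
  have hDs : ∀ i, i ≠ d → ∑ x ∈ D, x i = (k : ℝ) := by
    intro i hi
    have h1 := htr ⟨i, (hYmem i).2 hi⟩
    rw [htD, Finset.sum_image fun a ha b hb hab => res_injOn (disjoint_empty_right _) (hDf a ha) (hDf b hb) hab] at h1
    exact h1
  set c : ℝ → ι → ℝ := fun ε i => if i = d then ε else (k - ε) / u with hc
  have hcc : Continuous c := by
    refine continuous_pi fun i => ?_
    rw [hc]
    by_cases hi : i = d
    · simp only [if_pos hi]
      exact continuous_id
    · simp only [if_neg hi]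
      fun_prop
  have hc0 : c 0 = ∑ x ∈ D, (1 / u) • x := by
    funext i
    rw [← Finset.smul_sum, Pi.smul_apply, Finset.sum_apply, hc]
    by_cases hi : i = d
    · simp only [if_pos hi]
      rw [hi, Finset.sum_eq_zero hDd, smul_zero]
    · simp only [if_neg hi]
      rw [hDs i hi, smul_eq_mul, sub_zero]
      ring
  obtain ⟨δ, hδ, hnear⟩ := near h hD c hcc u hu0 hDcr hc0
  set ε : ℝ := min (δ / 2) 1 with hε
  have hε0 : 0 < ε := lt_min (by linarith) one_pos
  have hε1 : ε ≤ 1 := min_le_right _ _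
  have hεδ : ε < δ := lt_of_le_of_lt (min_le_left _ _) (by linarith)
  obtain ⟨F, hF, hFc, hFi⟩ := carrier h (c ε) (fun i => by
    rw [hc]
    by_cases hi : i = d
    · simp only [if_pos hi]
      exact ⟨hε0.le, hε1⟩
    · simp only [if_neg hi]
      exact ⟨div_nonneg (by linarith) hu0.le, by rw [div_le_one hu0]; linarith⟩) (by
    rw [← Finset.add_sum_erase Finset.univ _ (Finset.mem_univ d), hc]
    have h1 : ∑ x ∈ Finset.univ.erase d, (fun (ε : ℝ) i => if i = d then ε else (k - ε) / u) ε x = u * ((k - ε) / u) := by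
      rw [Finset.sum_congr rfl (fun i hi => if_neg (Finset.ne_of_mem_erase hi)), Finset.sum_const,
        Finset.card_erase_of_mem (Finset.mem_univ d), Finset.card_univ, nsmul_eq_mul, ← hn, Nat.cast_sub (by omega), Nat.cast_one]
    rw [h1]
    simp only [if_true]
    field_simp
    ring) (fun g hg => by
    funext i
    rw [pm_apply, hc]
    have h1 : g.symm i = d ↔ i = d := by
      constructor
      · intro h2
        rw [← hd g hg, ← h2, Equiv.apply_symm_apply]
      · rintro rfl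
        rw [Equiv.symm_apply_eq, hd g hg]
    simp only [h1])
  have hDF : D ⊆ F := hnear ε hε0 hεδ F hF hFc
  obtain ⟨x, hxF, hxd⟩ : ∃ x ∈ F, x d ≠ 0 := by
    by_contra hcon
    push Not at hcon
    have h1 := hull_zero (LinearMap.proj d) _ (fun x hx => hcon x hx) _ hFc
    rw [LinearMap.proj_apply, hc] at h1
    simp only [if_true] at h1
    linarith
  have hxd1 : x d = 1 := (h.vtx F hF x hxF d).resolve_left hxd
  have hxD : x ∉ D := fun h1 => hxd (hDd x h1)
  have hFcard : F.card ≤ n := by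
    have h1 := (li_family (h.li F hF)).fintype_card_le_finrank
    rwa [Module.finrank_fintype_fun_eq_card, Fintype.card_coe] at h1
  have hFeq : insert x D = F := by
    refine eq_of_subset_of_card_le (insert_subset hxF hDF) ?_
    rw [card_insert_of_notMem hxD, hDc]
    omega
  have hxg : ∀ g ∈ G, ∀ i, x (g i) = x i := by
    intro g hg i
    have h1 : pm g x ∈ F := by
      rw [← hFi g hg]
      exact mem_image_of_mem _ hxF
    rw [← hFeq] at h1
    rcases mem_insert.1 h1 with h2 | h2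
    · have h3 := congrFun h2 (g i)
      rw [pm_apply, Equiv.symm_apply_apply] at h3
      exact h3.symm
    · exfalso
      have h3 := hDd _ h2
      rw [pm_apply] at h3
      have h4 : g.symm d = d := by rw [Equiv.symm_apply_eq, hd g hg]
      rw [h4] at h3
      exact hxd h3
  -- `x` is constant off `d`
  have hconst : ∀ a b, a ≠ d → b ≠ d → x a = x b := by
    intro a b ha hb
    by_cases hab : a = b
    · rw [hab]
    obtain ⟨e, he⟩ : ∃ e, e ∉ ({a, b, d} : Finset ι) := by
      by_contra hcon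
      push Not at hcon
      have h1 : (Finset.univ : Finset ι) ⊆ {a, b, d} := fun x _ => hcon x
      have h2 := Finset.card_le_card h1
      rw [Finset.card_univ, ← hn] at h2
      have h3 := Finset.card_le_three (a := a) (b := b) (c := d)
      omega
    rw [Finset.mem_insert, Finset.mem_insert, Finset.mem_singleton, not_or, not_or] at he
    obtain ⟨g, hg, h1⟩ := hTH a e b e ha he.2.2 hb he.2.2 (Ne.symm he.1) (Ne.symm he.2.1)
    have h2 := hxg g hg a
    have h3 := hxg g hg e
    rcases h1 with ⟨h4, h5⟩ | ⟨h4, h5⟩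
    · rw [h4] at h2
      exact h2.symm
    · rw [h4] at h2
      rw [h5] at h3
      rw [h3, ← h2]
  have hsum := h.sum F hF x hxF
  rw [← Finset.add_sum_erase Finset.univ _ (Finset.mem_univ d), hxd1] at hsum
  obtain ⟨a, ha⟩ : ∃ a, a ≠ d := by
    have hnt : Nontrivial ι := Fintype.one_lt_card_iff_nontrivial.1 (by omega)
    exact exists_ne d
  rw [Finset.sum_congr rfl (fun i hi => hconst i a (Finset.ne_of_mem_erase hi) ha), Finset.sum_const,
    Finset.card_erase_of_mem (Finset.mem_univ d), Finset.card_univ, nsmul_eq_mul, ← hn, Nat.cast_sub (by omega), Nat.cast_one] at hsum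
  rcases h.vtx F hF x hxF a with h1 | h1
  · rw [h1] at hsum
    linarith
  · rw [h1] at hsum
    linarith

end Pool.Agent.Lib.MP079fc8
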