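import Mathlib

/-!
MP_079fc8_co. Involutions: invariant sets of given cardinality between two invariant sets, parity of invariant sets.
-/

set_option autoImplicit false

namespace Pool.Agent.Lib.MP079fc8

open Finset

variable {n : ℕ}

/-- an invariant set of any cardinality between two invariant sets, up to parity -/
theorem inv_between (σ : Equiv.Perm (Fin n)) (hσ : ∀ i, σ (σ i) = i) (k : ℕ) (U : Finset (Fin n))
    (hU : ∀ i ∈ U, σ i ∈ U) (hk2 : k ≤ U.card) : ∀ (m : ℕ) (L : Finset (Fin n)), (∀ i ∈ L, σ i ∈ L) →
      L ⊆ U → L.card + m = k → (Even m ∨ ∃ g ∈ U, g ∉ L ∧ σ g = g) →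
      ∃ X : Finset (Fin n), L ⊆ X ∧ X ⊆ U ∧ (∀ i ∈ X, σ i ∈ X) ∧ X.card = k := by
  intro m
  induction m using Nat.strong_induction_on with
  | _ m ih =>
  intro L hL hLU hm hpar
  rcases Nat.lt_or_ge m 1 with h0 | h1
  · exact ⟨L, Subset.refl _, hLU, hL, by omega⟩
  · by_cases hfix : ∀ i ∈ U, i ∉ L → σ i = i
    · obtain ⟨X, hX1, hX2, hX3⟩ := Finset.exists_subsuperset_card_eq hLU (by omega : L.card ≤ k) hk2
      refine ⟨X, hX1, hX2, ?_, hX3⟩
      intro i hi
      by_cases hiL : i ∈ L
      · exact hX1 (hL i hiL)
      · rw [hfix i (hX2 hi) hiL]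
        exact hi
    · push Not at hfix
      obtain ⟨i, hiU, hiL, hne⟩ := hfix
      rcases Nat.lt_or_ge m 2 with h2 | h2
      · have hm1 : m = 1 := by omega
        subst hm1
        rcases hpar with h | ⟨g, hgU, hgL, hg⟩
        · exact absurd h (by decide)
        · refine ⟨insert g L, subset_insert _ _, insert_subset hgU hLU, ?_, ?_⟩
          · intro j hj
            rw [mem_insert] at hj ⊢
            rcases hj with rfl | hj
            · exact Or.inl hg
            · exact Or.inr (hL j hj)
          · rw [card_insert_of_notMem hgL, hm]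
      · have hsi : σ i ∉ L := fun h => hiL (by have := hL _ h; rwa [hσ] at this)
        have hcard : (insert i (insert (σ i) L)).card = L.card + 2 := by
          rw [card_insert_of_notMem, card_insert_of_notMem hsi]
          rw [mem_insert]
          push Not
          exact ⟨fun h => hne h.symm, hiL⟩
        obtain ⟨X, hX1, hX2, hX3, hX4⟩ := ih (m - 2) (by omega) (insert i (insert (σ i) L)) (by
          intro j hj
          simp only [mem_insert] at hj ⊢
          rcases hj with rfl | rfl | hj
          · right; left; rfl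
          · left; exact hσ _
          · right; right; exact hL j hj) (by
          intro j hj
          simp only [mem_insert] at hj
          rcases hj with rfl | rfl | hj
          · exact hiU
          · exact hU _ hiU
          · exact hLU hj) (by omega) (by
          rcases hpar with h | ⟨g, hgU, hgL, hg⟩
          · left
            obtain ⟨r, hr⟩ := h
            exact ⟨r - 1, by omega⟩
          · right
            refine ⟨g, hgU, ?_, hg⟩
            simp only [mem_insert, not_or]
            refine ⟨?_, ?_, hgL⟩
            · rintro rfl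
              exact hne hg
            · rintro rfl
              rw [hσ] at hg
              exact hne hg.symm)
        exact ⟨X, fun j hj => hX1 (mem_insert_of_mem (mem_insert_of_mem hj)), hX2, hX3, hX4⟩

theorem inv_parity (σ : Equiv.Perm (Fin n)) (hσ : ∀ i, σ (σ i) = i) (V : Finset (Fin n))
    (hV : ∀ i ∈ V, σ i ∈ V) : V.card % 2 = (V.filter fun i => σ i = i).card % 2 := by
  have h1 : (((V.filter fun i => ¬ σ i = i).card : ℕ) : ZMod 2) = 0 := by
    rw [Finset.card_eq_sum_ones, Nat.cast_sum]
    refine Finset.sum_involution (fun i _ => σ i) ?_ ?_ ?_ ?_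
    · intro a _
      decide
    · intro a ha _
      exact (mem_filter.1 ha).2
    · intro a ha
      have h := mem_filter.1 ha
      refine mem_filter.2 ⟨hV a h.1, ?_⟩
      intro h2
      exact h.2 (σ.injective h2)
    · intro a _
      exact hσ a
  have h2 : 2 ∣ (V.filter fun i => ¬ σ i = i).card := (ZMod.natCast_eq_zero_iff _ 2).1 h1
  have h3 := Finset.card_filter_add_card_filter_not (s := V) (fun i => σ i = i)
  omega

/-- two invariant sets with the same fixed points have cardinalities of the same parity -/
theorem inv_parity' (σ : Equiv.Perm (Fin n)) (hσ : ∀ i, σ (σ i) = i) (V W : Finset (Fin n))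
    (hV : ∀ i ∈ V, σ i ∈ V) (hW : ∀ i ∈ W, σ i ∈ W) (h : ∀ i, σ i = i → (i ∈ V ↔ i ∈ W)) :
    V.card % 2 = W.card % 2 := by
  rw [inv_parity σ hσ V hV, inv_parity σ hσ W hW]
  congr 2
  ext i
  simp only [mem_filter]
  constructor
  · rintro ⟨h1, h2⟩
    exact ⟨(h i h2).1 h1, h2⟩
  · rintro ⟨h1, h2⟩
    exact ⟨(h i h2).2 h1, h2⟩

end Pool.Agent.Lib.MP079fc8
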