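import Pool.Agent.Lib.HyS2.RgB

/-!
MP_079fc8_co. Involutions: generic perturbations of heights, consequences of optimality.
-/

set_option autoImplicit false

namespace Pool.Agent.Lib.MP079fc8

open Finset Pool.Agent.Lib.HyS

variable {n : ℕ}

private noncomputable def PQ (A : Finset (Fin n) → ℝ) (idx : Finset (Fin n) → ℕ) (c : Finset (Fin n) → ℝ) : Polynomial ℝ :=
  ∑ I, (Polynomial.C (c I) * Polynomial.X ^ (idx I) + Polynomial.C (c I * A I))

private theorem PQ_eval (A : Finset (Fin n) → ℝ) (idx : Finset (Fin n) → ℕ) (c : Finset (Fin n) → ℝ) (t : ℝ) :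
    (PQ A idx c).eval t = ∑ I, c I * (A I + t ^ (idx I)) := by
  unfold PQ
  rw [Polynomial.eval_finsetSum]
  refine Finset.sum_congr rfl fun I _ => ?_
  simp only [Polynomial.eval_add, Polynomial.eval_mul, Polynomial.eval_C, Polynomial.eval_pow, Polynomial.eval_X]
  ring

private theorem PQ_coeff (A : Finset (Fin n) → ℝ) (idx : Finset (Fin n) → ℕ) (c : Finset (Fin n) → ℝ) (j : ℕ) (hj : j ≠ 0) :
    (PQ A idx c).coeff j = ∑ I ∈ univ.filter (fun I => idx I = j), c I := by
  unfold PQ
  rw [Polynomial.finsetSum_coeff, Finset.sum_filter]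
  refine Finset.sum_congr rfl fun I hI => ?_
  rw [Polynomial.coeff_add, Polynomial.coeff_C_mul_X_pow, Polynomial.coeff_C, if_neg hj, add_zero]
  by_cases h : idx I = j
  · rw [if_pos h, if_pos h.symm]
  · rw [if_neg h, if_neg (fun h' => h h'.symm)]

theorem generic_add (A : Finset (Fin n) → ℝ) (idx : Finset (Fin n) → ℕ) (hidx : ∀ I, 1 ≤ idx I) {δ : ℝ}
    (hδ : 0 < δ) : ∃ t : ℝ, 0 < t ∧ t < δ ∧ ∀ S : Finset (Finset (Fin n)),
      (∀ c, Dep S c → ∑ I, c I * (A I + t ^ (idx I)) = 0) →
      ∀ c, Dep S c → ∀ j : ℕ, ∑ I ∈ univ.filter (fun I => idx I = j), c I = 0 := by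
  classical
  have hch : ∀ S : Finset (Finset (Fin n)), ∃ c, (∃ c', Dep S c' ∧ PQ A idx c' ≠ 0) →
      Dep S c ∧ PQ A idx c ≠ 0 := by
    intro S
    by_cases h : ∃ c', Dep S c' ∧ PQ A idx c' ≠ 0
    · obtain ⟨c, hc⟩ := h
      exact ⟨c, fun _ => hc⟩
    · exact ⟨0, fun h' => absurd h' h⟩
  choose g hg using hch
  obtain ⟨t, ht, htZ⟩ := (Set.Ioo_infinite hδ).exists_notMem_finset
    (Finset.univ.biUnion fun S : Finset (Finset (Fin n)) => (PQ A idx (g S)).roots.toFinset)
  refine ⟨t, ht.1, ht.2, fun S hS c hc j => ?_⟩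
  have h0 : PQ A idx c = 0 := by
    by_contra hne
    obtain ⟨h1, h2⟩ := hg S ⟨c, hc, hne⟩
    apply htZ
    rw [Finset.mem_biUnion]
    refine ⟨S, Finset.mem_univ _, ?_⟩
    rw [Multiset.mem_toFinset, Polynomial.mem_roots h2, Polynomial.IsRoot.def, PQ_eval]
    exact hS (g S) h1
  by_cases hj : j = 0
  · subst hj
    refine Finset.sum_eq_zero fun I hI => ?_
    have h3 := (Finset.mem_filter.1 hI).2
    have h4 := hidx I
    omega
  · rw [← PQ_coeff A idx c j hj, h0, Polynomial.coeff_zero]

/-- on an optimal family the heights are linear -/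
theorem opt_dep {k : ℕ} {d : Finset (Fin n) → ℝ} {S : Finset (Finset (Fin n))} (hS : Opt k d S)
    {c : Finset (Fin n) → ℝ} (hc : Dep S c) : ∑ I, c I * d I = 0 := by
  have hcS : ∀ I, c I ≠ 0 → I ∈ S := fun I h => by
    by_contra h2
    exact h (hc.1 I h2)
  have e : ∀ I, max (c I) 0 - max (-c I) 0 = c I := fun I => by
    rcases le_total 0 (c I) with h | h
    · rw [max_eq_left h, max_eq_right (by linarith)]
      ring
    · rw [max_eq_right h, max_eq_left (by linarith)]
      ring
  have h1 : ∑ I, max (c I) 0 • ind I = ∑ I, max (-c I) 0 • (ind I : Fin n → ℝ) := by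
    rw [← sub_eq_zero, ← Finset.sum_sub_distrib, ← hc.2]
    refine Finset.sum_congr rfl fun I _ => ?_
    rw [← sub_smul, e]
  have h2 := hS.2 (fun I => max (c I) 0) (fun I => max (-c I) 0) (fun I => le_max_right _ _)
    (fun I => le_max_right _ _) (fun I hI => by
      show max (c I) 0 = 0
      rw [hc.1 I hI, max_self]) (fun I hI => hS.1 I (hcS I fun h => hI (by
      show max (-c I) 0 = 0
      rw [h, neg_zero, max_self]))) h1
  have h3 := hS.2 (fun I => max (-c I) 0) (fun I => max (c I) 0) (fun I => le_max_right _ _)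
    (fun I => le_max_right _ _) (fun I hI => by
      show max (-c I) 0 = 0
      rw [hc.1 I hI, neg_zero, max_self]) (fun I hI => hS.1 I (hcS I fun h => hI (by
      show max (c I) 0 = 0
      rw [h, max_self]))) h1.symm
  have h4 : ∑ I, c I * d I = ∑ I, max (c I) 0 * d I - ∑ I, max (-c I) 0 * d I := by
    rw [← Finset.sum_sub_distrib]
    refine Finset.sum_congr rfl fun I _ => ?_
    rw [← sub_mul, e]
  rw [h4]
  linarith

/-- weight one at `I` and at `J` -/
noncomputable def two (I J : Finset (Fin n)) : Finset (Fin n) → ℝ := fun L =>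
  (if L = I then 1 else 0) + (if L = J then 1 else 0)

theorem two_nonneg (I J L : Finset (Fin n)) : 0 ≤ two I J L := by
  unfold two
  split_ifs <;> norm_num

theorem two_sum (I J : Finset (Fin n)) (d : Finset (Fin n) → ℝ) : ∑ L, two I J L * d L = d I + d J := by
  unfold two
  simp only [add_mul, ite_mul, one_mul, zero_mul, Finset.sum_add_distrib, Finset.sum_ite_eq', Finset.mem_univ, if_true]

theorem two_ind (I J : Finset (Fin n)) : ∑ L, two I J L • ind L = (ind I + ind J : Fin n → ℝ) := by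
  unfold two
  simp only [add_smul, ite_smul, one_smul, zero_smul, Finset.sum_add_distrib, Finset.sum_ite_eq', Finset.mem_univ, if_true]

theorem two_supp {I J L : Finset (Fin n)} (h : two I J L ≠ 0) : L = I ∨ L = J := by
  by_contra h2
  rw [not_or] at h2
  apply h
  unfold two
  rw [if_neg h2.1, if_neg h2.2, add_zero]

/-- exchange of two sets of an optimal family -/
theorem opt_two {k : ℕ} {d : Finset (Fin n) → ℝ} {S : Finset (Finset (Fin n))} (hS : Opt k d S)
    {I J I' J' : Finset (Fin n)} (hI : I ∈ S) (hJ : J ∈ S) (hI' : I'.card = k) (hJ' : J'.card = k)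
    (h : (ind I + ind J : Fin n → ℝ) = ind I' + ind J') : d I' + d J' ≤ d I + d J := by
  have h1 := hS.2 (two I J) (two I' J') (two_nonneg _ _) (two_nonneg _ _) (fun L hL => by
    by_contra h2
    rcases two_supp h2 with rfl | rfl
    · exact hL hI
    · exact hL hJ) (fun L hL => by
    rcases two_supp hL with rfl | rfl
    · exact hI'
    · exact hJ') (by rw [two_ind, two_ind, h])
  rwa [two_sum, two_sum] at h1

/-- exchange of four sets of an optimal family against a set and something else -/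
theorem opt_four {k : ℕ} (hk : 0 < k) {d : Finset (Fin n) → ℝ} {S : Finset (Finset (Fin n))} (hS : Opt k d S)
    {I I₁ J J₁ X : Finset (Fin n)} (hI : I ∈ S) (hI₁ : I₁ ∈ S) (hJ : J ∈ S) (hJ₁ : J₁ ∈ S) (hX : X.card = k)
    (h0 : ∀ i, i ∈ I → i ∈ I₁ → i ∈ J → i ∈ J₁ → i ∈ X) (h1 : ∀ i ∈ X, i ∈ I ∨ i ∈ I₁ ∨ i ∈ J ∨ i ∈ J₁)
    {b : ℝ} (hb : ∀ L, b ≤ d L) : d X + 3 * b ≤ d I + d I₁ + d J + d J₁ := by
  have hc : ∀ L : Finset (Fin n), L.card = k → ∑ i, (ind L i : ℝ) = k := by
    intro L hL
    unfold ind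
    rw [Finset.sum_ite_mem, Finset.univ_inter, Finset.sum_const, nsmul_eq_mul, mul_one, hL]
  have hp : (fun i => (ind I i + ind I₁ i + ind J i + ind J₁ i - ind X i) / 3) ∈ hypersimplex k n := by
    refine ⟨fun i => ?_, ?_⟩
    · have h2 := h0 i
      have h3 := h1 i
      simp only [ind]
      by_cases a1 : i ∈ I <;> by_cases a2 : i ∈ I₁ <;> by_cases a3 : i ∈ J <;> by_cases a4 : i ∈ J₁ <;>
        by_cases a5 : i ∈ X <;> simp [a1, a2, a3, a4, a5] at h2 h3 ⊢ <;> norm_num
    · rw [← Finset.sum_div, Finset.sum_sub_distrib, Finset.sum_add_distrib, Finset.sum_add_distrib,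
        Finset.sum_add_distrib, hc I (hS.1 I hI), hc I₁ (hS.1 I₁ hI₁), hc J (hS.1 J hJ), hc J₁ (hS.1 J₁ hJ₁),
        hc X hX]
      ring
  obtain ⟨a, ha0, hak, ha1, hap, -⟩ := exists_optimal hk d hp
  have h2 := hS.2 (fun L => two I I₁ L + two J J₁ L) (fun L => (if L = X then 1 else 0) + 3 * a L)
    (fun L => add_nonneg (two_nonneg _ _ _) (two_nonneg _ _ _)) (fun L => by
      have := ha0 L
      show 0 ≤ (if L = X then (1 : ℝ) else 0) + 3 * a L
      split_ifs <;> linarith) (fun L hL => by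
      show two I I₁ L + two J J₁ L = 0
      have e1 : two I I₁ L = 0 := by
        by_contra h3
        rcases two_supp h3 with rfl | rfl
        · exact hL hI
        · exact hL hI₁
      have e2 : two J J₁ L = 0 := by
        by_contra h3
        rcases two_supp h3 with rfl | rfl
        · exact hL hJ
        · exact hL hJ₁
      rw [e1, e2, add_zero]) (fun L hL => by
      by_cases h3 : L = X
      · rw [h3, hX]
      · refine hak L fun h4 => hL ?_
        show (if L = X then (1 : ℝ) else 0) + 3 * a L = 0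
        rw [if_neg h3, h4, mul_zero, add_zero]) (by
      simp only [add_smul, Finset.sum_add_distrib, two_ind, ite_smul, one_smul, zero_smul, Finset.sum_ite_eq',
        Finset.mem_univ, if_true, mul_smul, ← Finset.smul_sum, hap]
      funext i
      simp only [Pi.add_apply, Pi.smul_apply, smul_eq_mul]
      ring)
  have h3 : ∑ L, (two I I₁ L + two J J₁ L) * d L = d I + d I₁ + d J + d J₁ := by
    simp only [add_mul, Finset.sum_add_distrib, two_sum]
    ring
  have h4 : ∑ L, ((if L = X then (1 : ℝ) else 0) + 3 * a L) * d L = d X + 3 * ∑ L, a L * d L := by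
    simp only [add_mul, Finset.sum_add_distrib, ite_mul, one_mul, zero_mul, Finset.sum_ite_eq', Finset.mem_univ,
      if_true, mul_assoc, ← Finset.mul_sum]
  have h5 : b ≤ ∑ L, a L * d L := by
    calc b = (∑ L, a L) * b := by rw [ha1, one_mul]
      _ = ∑ L, a L * b := by rw [Finset.sum_mul]
      _ ≤ _ := Finset.sum_le_sum fun L _ => mul_le_mul_of_nonneg_left (hb L) (ha0 L)
  rw [h3, h4] at h2
  linarith

end Pool.Agent.Lib.MP079fc8
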