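import Pool.Agent.Lib.MP_079fc8_co.Ivo1
import Pool.Agent.Lib.MP_079fc8_co.Ivo2

/-!
MP_079fc8_co. Involutions: the height function and the exchanges.
-/

set_option autoImplicit false

namespace Pool.Agent.Lib.MP079fc8

open Finset Pool.Agent.Lib.HyS

variable {n : ℕ}

/-- the image of a set -/
def mp (σ : Equiv.Perm (Fin n)) (I : Finset (Fin n)) : Finset (Fin n) := I.map σ.toEmbedding

variable {σ : Equiv.Perm (Fin n)}

theorem mem_mp (hσ : ∀ i, σ (σ i) = i) (I : Finset (Fin n)) (i : Fin n) : i ∈ mp σ I ↔ σ i ∈ I := by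
  unfold mp
  rw [Finset.mem_map_equiv]
  have : σ.symm i = σ i := by rw [Equiv.symm_apply_eq, hσ]
  rw [this]

theorem mp_mp (hσ : ∀ i, σ (σ i) = i) (I : Finset (Fin n)) : mp σ (mp σ I) = I := by
  ext i
  rw [mem_mp hσ, mem_mp hσ, hσ]

theorem card_mp (I : Finset (Fin n)) : (mp σ I).card = I.card := Finset.card_map _

theorem ind_mp (hσ : ∀ i, σ (σ i) = i) (I : Finset (Fin n)) (i : Fin n) : ind (mp σ I) i = ind I (σ i) := by
  unfold ind
  simp only [mem_mp hσ]

theorem mp_eq (hσ : ∀ i, σ (σ i) = i) {I : Finset (Fin n)} (h : ∀ i ∈ I, σ i ∈ I) : mp σ I = I := by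
  ext i
  rw [mem_mp hσ]
  constructor
  · intro h1
    have := h _ h1
    rwa [hσ] at this
  · exact h i

variable (σ) in
/-- number of elements whose partner is inside, as a quadratic form -/
noncomputable def Qf (f : Fin n → ℝ) : ℝ := ∑ i, f i * f (σ i)

variable (σ) in
/-- all split pairs are split in the same way -/
def Con (I : Finset (Fin n)) : Prop := (∀ i ∈ I, σ i ∉ I → i < σ i) ∨ (∀ i ∈ I, σ i ∉ I → σ i < i)

variable (σ) in
open Classical in
/-- the main part of the height -/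
noncomputable def At (I : Finset (Fin n)) : ℝ :=
  if mp σ I = I then 4 * n + 8 else -Qf σ (ind I) + (if Con σ I then 1 / 2 else 0)

theorem ind_01 (I : Finset (Fin n)) (i : Fin n) : 0 ≤ ind I i ∧ ind I i ≤ 1 := by
  unfold ind
  split_ifs <;> norm_num

theorem Qf_nonneg (I : Finset (Fin n)) : 0 ≤ Qf σ (ind I) :=
  Finset.sum_nonneg fun i _ => mul_nonneg (ind_01 I i).1 (ind_01 I (σ i)).1

theorem Qf_le (I : Finset (Fin n)) : Qf σ (ind I) ≤ n := by
  have h : ∀ i ∈ (univ : Finset (Fin n)), ind I i * ind I (σ i) ≤ (1 : ℝ) := fun i _ =>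
    mul_le_one₀ (ind_01 I i).2 (ind_01 I (σ i)).1 (ind_01 I (σ i)).2
  have h1 := Finset.sum_le_sum h
  unfold Qf
  refine h1.trans ?_
  simp

theorem Qf_mp (hσ : ∀ i, σ (σ i) = i) (I : Finset (Fin n)) : Qf σ (ind (mp σ I)) = Qf σ (ind I) := by
  unfold Qf
  refine Finset.sum_congr rfl fun i _ => ?_
  rw [ind_mp hσ, ind_mp hσ, hσ, mul_comm]

theorem Con_mp (hσ : ∀ i, σ (σ i) = i) {I : Finset (Fin n)} (h : Con σ I) : Con σ (mp σ I) := by
  rcases h with h | h
  · right
    intro i hi hsi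
    rw [mem_mp hσ] at hi
    rw [mem_mp hσ, hσ] at hsi
    have := h _ hi (by rwa [hσ])
    rwa [hσ] at this
  · left
    intro i hi hsi
    rw [mem_mp hσ] at hi
    rw [mem_mp hσ, hσ] at hsi
    have := h _ hi (by rwa [hσ])
    rwa [hσ] at this

theorem At_mp (hσ : ∀ i, σ (σ i) = i) (I : Finset (Fin n)) : At σ (mp σ I) = At σ I := by
  unfold At
  have h1 : mp σ (mp σ I) = mp σ I ↔ mp σ I = I := by
    rw [mp_mp hσ]
    exact eq_comm
  have h2 : Con σ (mp σ I) ↔ Con σ I := ⟨fun h => by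
    have := Con_mp hσ h
    rwa [mp_mp hσ] at this, Con_mp hσ⟩
  by_cases h3 : mp σ I = I
  · rw [if_pos h3, if_pos (h1.2 h3)]
  · rw [if_neg h3, if_neg (fun h => h3 (h1.1 h)), Qf_mp hσ]
    by_cases h4 : Con σ I
    · rw [if_pos h4, if_pos (h2.2 h4)]
    · rw [if_neg h4, if_neg (fun h => h4 (h2.1 h))]

theorem At_ge (I : Finset (Fin n)) : -Qf σ (ind I) ≤ At σ I := by
  unfold At
  have h1 := Qf_nonneg (σ := σ) I
  split_ifs
  · have : (0 : ℝ) ≤ n := Nat.cast_nonneg n
    linarith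
  · linarith
  · linarith

theorem At_ge_con {I : Finset (Fin n)} (h : Con σ I) : -Qf σ (ind I) + 1 / 2 ≤ At σ I := by
  unfold At
  have h1 := Qf_nonneg (σ := σ) I
  have h2 : (0 : ℝ) ≤ n := Nat.cast_nonneg n
  by_cases h3 : mp σ I = I
  · rw [if_pos h3]
    linarith
  · rw [if_neg h3, if_pos h]

theorem At_lb (I : Finset (Fin n)) : -(n : ℝ) ≤ At σ I := by
  have h1 := At_ge (σ := σ) I
  have h2 := Qf_le (σ := σ) I
  linarith

theorem At_ub {I : Finset (Fin n)} (h : mp σ I ≠ I) : At σ I ≤ -Qf σ (ind I) + 1 / 2 := by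
  unfold At
  rw [if_neg h]
  split_ifs <;> linarith

theorem At_not {I : Finset (Fin n)} (h : mp σ I ≠ I) (h2 : ¬ Con σ I) : At σ I = -Qf σ (ind I) := by
  unfold At
  rw [if_neg h, if_neg h2, add_zero]

theorem At_fix {I : Finset (Fin n)} (h : mp σ I = I) : At σ I = 4 * n + 8 := by
  unfold At
  rw [if_pos h]

theorem sum_ind (I : Finset (Fin n)) : ∑ i, (ind I i : ℝ) = I.card := by
  unfold ind
  rw [Finset.sum_ite_mem, Finset.univ_inter, Finset.sum_const, nsmul_eq_mul, mul_one]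

/-- the change of the quadratic form under an exchange -/
theorem Qf_exch (hσ : ∀ i, σ (σ i) = i) (f : Fin n → ℝ) (e : ℝ) (i j : Fin n) (h1 : σ i ≠ i) (h2 : j ≠ i) :
    Qf σ (fun m => f m + e * ((if m = j then 1 else 0) - (if m = σ i then 1 else 0))) =
      Qf σ f + 2 * e * (f (σ j) - f i) + e ^ 2 * (if σ j = j then 1 else 0) := by
  unfold Qf
  have e1 : ∀ m, (σ m = j ↔ m = σ j) := fun m => ⟨fun h => by rw [← h, hσ], fun h => by rw [h, hσ]⟩
  have e2 : ∀ m, (σ m = σ i ↔ m = i) := fun m => σ.injective.eq_iff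
  have h3 : ∀ m : Fin n, (f m + e * ((if m = j then 1 else 0) - (if m = σ i then 1 else 0))) *
      (f (σ m) + e * ((if σ m = j then 1 else 0) - (if σ m = σ i then 1 else 0))) =
      f m * f (σ m) + (if m = j then 1 else 0) * (e * f (σ m)) - (if m = σ i then 1 else 0) * (e * f (σ m)) +
        (if m = σ j then 1 else 0) * (e * f m) - (if m = i then 1 else 0) * (e * f m) +
        (if m = j then 1 else 0) * (e ^ 2 * ((if m = σ j then 1 else 0) - (if m = i then 1 else 0))) -
        (if m = σ i then 1 else 0) * (e ^ 2 * ((if m = σ j then 1 else 0) - (if m = i then 1 else 0))) := by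
    intro m
    simp only [e1, e2]
    ring
  rw [Finset.sum_congr rfl fun m _ => h3 m]
  simp only [Finset.sum_add_distrib, Finset.sum_sub_distrib, ite_mul, one_mul, zero_mul, Finset.sum_ite_eq',
    Finset.mem_univ, if_true]
  have h4 : ¬ σ i = σ j := fun h => h2 (σ.injective h).symm
  rw [if_neg h2, if_neg h1, if_neg h4, hσ]
  have h5 : (j = σ j) ↔ (σ j = j) := eq_comm
  simp only [h5]
  by_cases h6 : σ j = j
  · simp only [h6, if_true]
    ring
  · simp only [h6, if_false]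
    ring

end Pool.Agent.Lib.MP079fc8
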