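import Pool.Agent.Lib.MP_079fc8_co.Ivo3

/-!
MP_079fc8_co. Involutions: optimal families for the height function.
-/

set_option autoImplicit false

namespace Pool.Agent.Lib.MP079fc8

open Finset Pool.Agent.Lib.HyS

variable {n : ℕ} {σ : Equiv.Perm (Fin n)}

/-- heights near `At`, an optimal family, and a moved member with its image -/
structure Mem (σ : Equiv.Perm (Fin n)) (k : ℕ) (d : Finset (Fin n) → ℝ) (S : Finset (Finset (Fin n)))
    (I : Finset (Fin n)) : Prop where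
  mem : I ∈ S
  mem' : mp σ I ∈ S
  ne : mp σ I ≠ I

variable {k : ℕ} {d : Finset (Fin n) → ℝ} {S : Finset (Finset (Fin n))}

theorem noX (hk : 0 < k) (hσ : ∀ i, σ (σ i) = i) (hd1 : ∀ I, At σ I ≤ d I) (hd2 : ∀ I, d I ≤ At σ I + 1 / 8)
    (hd3 : ∀ I, d (mp σ I) = d I) (hS : Opt k d S) {I J X : Finset (Fin n)} (hI : Mem σ k d S I)
    (hJ : Mem σ k d S J) (hX : X.card = k) (hXi : ∀ i ∈ X, σ i ∈ X)
    (h0 : ∀ i, i ∈ I → σ i ∈ I → i ∈ J → σ i ∈ J → i ∈ X)
    (h1 : ∀ i ∈ X, i ∈ I ∨ σ i ∈ I ∨ i ∈ J ∨ σ i ∈ J) : False := by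
  have h2 := opt_four hk hS hI.mem hI.mem' hJ.mem hJ.mem' hX (fun i a b c e => by
    rw [mem_mp hσ] at b e
    exact h0 i a b c e) (fun i a => by
    rw [mem_mp hσ, mem_mp hσ]
    exact h1 i a) (b := -(n : ℝ)) (fun L => (At_lb L).trans (hd1 L))
  rw [hd3, hd3] at h2
  have h3 := At_fix (mp_eq hσ hXi)
  have h4 := hd1 X
  have h5 := hd2 I
  have h6 := hd2 J
  have h7 := At_ub hI.ne
  have h8 := At_ub hJ.ne
  have h9 := Qf_nonneg (σ := σ) I
  have h10 := Qf_nonneg (σ := σ) J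
  have h11 : (0 : ℝ) ≤ n := Nat.cast_nonneg n
  linarith

theorem parB (hk : 0 < k) (hσ : ∀ i, σ (σ i) = i) (hd1 : ∀ I, At σ I ≤ d I) (hd2 : ∀ I, d I ≤ At σ I + 1 / 8)
    (hd3 : ∀ I, d (mp σ I) = d I) (hS : Opt k d S) {I : Finset (Fin n)} (hI : Mem σ k d S I) (m : ℕ)
    (hm : (I ∩ mp σ I).card + m = k) : ¬ Even m := by
  intro hev
  obtain ⟨X, hX1, hX2, hX3, hX4⟩ := inv_between σ hσ k (I ∪ mp σ I) (by
    intro i hi
    simp only [mem_union, mem_mp hσ, hσ] at hi ⊢
    exact hi.symm) (by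
    rw [← hS.1 I hI.mem]
    exact card_le_card subset_union_left) m (I ∩ mp σ I) (by
    intro i hi
    simp only [mem_inter, mem_mp hσ, hσ] at hi ⊢
    exact hi.symm) (inter_subset_left.trans subset_union_left) hm (Or.inl hev)
  refine noX hk hσ hd1 hd2 hd3 hS hI hI hX4 hX3 (fun i a b _ _ => hX1 (mem_inter.2 ⟨a, (mem_mp hσ _ _).2 b⟩)) ?_
  intro i hi
  have := hX2 hi
  rw [mem_union, mem_mp hσ] at this
  tauto

theorem fixC (hk : 0 < k) (hσ : ∀ i, σ (σ i) = i) (hd1 : ∀ I, At σ I ≤ d I) (hd2 : ∀ I, d I ≤ At σ I + 1 / 8)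
    (hd3 : ∀ I, d (mp σ I) = d I) (hS : Opt k d S) {I J : Finset (Fin n)} (hI : Mem σ k d S I)
    (hJ : Mem σ k d S J) {g : Fin n} (hg : σ g = g) (hgI : g ∈ I) : g ∈ J := by
  by_contra hgJ
  have hle : (I ∩ mp σ I ∩ (J ∩ mp σ J)).card ≤ k := by
    rw [← hS.1 I hI.mem]
    exact card_le_card (inter_subset_left.trans inter_subset_left)
  obtain ⟨X, hX1, hX2, hX3, hX4⟩ := inv_between σ hσ k (I ∪ mp σ I ∪ (J ∪ mp σ J)) (by
    intro i hi
    simp only [mem_union, mem_mp hσ, hσ] at hi ⊢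
    tauto) (by
    rw [← hS.1 I hI.mem]
    exact card_le_card (subset_union_left.trans subset_union_left)) (k - (I ∩ mp σ I ∩ (J ∩ mp σ J)).card)
    (I ∩ mp σ I ∩ (J ∩ mp σ J)) (by
    intro i hi
    simp only [mem_inter, mem_mp hσ, hσ] at hi ⊢
    tauto) (by
    intro i hi
    simp only [mem_inter, mem_union, mem_mp hσ] at hi ⊢
    tauto) (by omega) (Or.inr ⟨g, by
      simp only [mem_union, mem_mp hσ]
      tauto, by
      simp only [mem_inter, mem_mp hσ]
      tauto, hg⟩)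
  refine noX hk hσ hd1 hd2 hd3 hS hI hJ hX4 hX3 (fun i a b c e => hX1 ?_) ?_
  · simp only [mem_inter, mem_mp hσ]
    tauto
  · intro i hi
    have := hX2 hi
    simp only [mem_union, mem_mp hσ] at this
    tauto

theorem conD (hσ : ∀ i, σ (σ i) = i) (hd1 : ∀ I, At σ I ≤ d I) (hd2 : ∀ I, d I ≤ At σ I + 1 / 8)
    (hd3 : ∀ I, d (mp σ I) = d I) (hS : Opt k d S) {I : Finset (Fin n)} (hI : Mem σ k d S I) : Con σ I := by
  classical
  by_contra hcon
  set I' : Finset (Fin n) := univ.filter fun i =>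
    (i ∈ I ∧ σ i ∈ I) ∨ ((i ∈ I ∨ σ i ∈ I) ∧ ¬ (i ∈ I ∧ σ i ∈ I) ∧ i < σ i) with hI'
  have hmem : ∀ i, i ∈ I' ↔ ((i ∈ I ∧ σ i ∈ I) ∨ ((i ∈ I ∨ σ i ∈ I) ∧ ¬ (i ∈ I ∧ σ i ∈ I) ∧ i < σ i)) := by
    intro i
    rw [hI', mem_filter]
    exact ⟨fun h => h.2, fun h => ⟨mem_univ _, h⟩⟩
  have hpt : ∀ i, (ind I i + ind (mp σ I) i : ℝ) = ind I' i + ind (mp σ I') i := by
    intro i
    rw [ind_mp hσ, ind_mp hσ]
    unfold ind
    simp only [hmem, hσ]
    rcases lt_trichotomy i (σ i) with h | h | h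
    · have h2 : ¬ σ i < i := not_lt.2 h.le
      by_cases a : i ∈ I <;> by_cases b : σ i ∈ I <;> simp [a, b, h, h2]
    · rw [← h]
      by_cases a : i ∈ I <;> simp [a]
    · have h2 : ¬ i < σ i := not_lt.2 h.le
      by_cases a : i ∈ I <;> by_cases b : σ i ∈ I <;> simp [a, b, h, h2]
  have hcard : I'.card = k := by
    have h1 : ∑ i, (ind I i + ind (mp σ I) i : ℝ) = ∑ i, (ind I' i + ind (mp σ I') i) :=
      Finset.sum_congr rfl fun i _ => hpt i
    rw [Finset.sum_add_distrib, Finset.sum_add_distrib, sum_ind, sum_ind, sum_ind, sum_ind, card_mp, card_mp] at h1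
    have h2 : (I'.card : ℝ) = I.card := by linarith
    rw [← hS.1 I hI.mem]
    exact_mod_cast h2
  have hQ : Qf σ (ind I') = Qf σ (ind I) := by
    unfold Qf ind
    refine Finset.sum_congr rfl fun i _ => ?_
    simp only [hmem, hσ]
    rcases lt_trichotomy i (σ i) with h | h | h
    · have h2 : ¬ σ i < i := not_lt.2 h.le
      by_cases a : i ∈ I <;> by_cases b : σ i ∈ I <;> simp [a, b, h, h2]
    · rw [← h]
      by_cases a : i ∈ I <;> simp [a]
    · have h2 : ¬ i < σ i := not_lt.2 h.le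
      by_cases a : i ∈ I <;> by_cases b : σ i ∈ I <;> simp [a, b, h, h2]
  have hcon' : Con σ I' := by
    left
    intro i hi hsi
    rw [hmem] at hi hsi
    rw [hσ] at hsi
    tauto
  have h2 := opt_two hS hI.mem hI.mem' hcard (by rw [card_mp, hcard] : (mp σ I').card = k) (funext hpt)
  rw [hd3, hd3] at h2
  have h3 := At_ge_con hcon'
  have h4 := At_not hI.ne hcon
  have h5 := hd1 I'
  have h6 := hd2 I
  rw [hQ] at h3
  linarith

theorem fullE (hk : 0 < k) (hσ : ∀ i, σ (σ i) = i) (hd1 : ∀ I, At σ I ≤ d I) (hd2 : ∀ I, d I ≤ At σ I + 1 / 8)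
    (hd3 : ∀ I, d (mp σ I) = d I) (hS : Opt k d S) {I J : Finset (Fin n)} (hI : Mem σ k d S I)
    (hJ : Mem σ k d S J) {i : Fin n} (h1 : i ∈ I) (h2 : σ i ∈ I) (h3 : i ∉ J) (h4 : σ i ∉ J) : False := by
  classical
  have hne : σ i ≠ i := fun h => h3 (fixC hk hσ hd1 hd2 hd3 hS hI hJ h h1)
  have hcI := hS.1 I hI.mem
  have hcJ := hS.1 J hJ.mem
  have hex : ∃ j, j ∈ J ∧ j ∉ I ∧ (σ j ∈ I → σ j ∈ J) := by
    by_contra hcon
    push Not at hcon
    have h5 : ((J \ I).image σ) ⊆ ((I \ J).erase i).erase (σ i) := by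
      intro x hx
      rw [mem_image] at hx
      obtain ⟨j, hj, rfl⟩ := hx
      rw [mem_sdiff] at hj
      obtain ⟨h6, h7⟩ := hcon j hj.1 hj.2
      rw [mem_erase, mem_erase, mem_sdiff]
      refine ⟨?_, ?_, h6, h7⟩
      · intro h
        have h8 := σ.injective h
        rw [h8] at hj
        exact hj.2 h1
      · intro h
        have h8 : j = σ i := by rw [← h, hσ]
        rw [h8] at hj
        exact hj.2 h2
    have h6 := card_le_card h5
    rw [card_image_of_injective _ σ.injective, card_erase_of_mem (by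
      rw [mem_erase, mem_sdiff]
      exact ⟨hne, h2, h4⟩), card_erase_of_mem (by
      rw [mem_sdiff]
      exact ⟨h1, h3⟩), card_sdiff_comm (hcJ.trans hcI.symm)] at h6
    have h7 : 0 < (I \ J).card := card_pos.2 ⟨i, mem_sdiff.2 ⟨h1, h3⟩⟩
    omega
  obtain ⟨j, hjJ, hjI, hj⟩ := hex
  have hji : j ≠ i := fun h => hjI (h ▸ h1)
  have hjs : j ≠ σ i := fun h => hjI (h ▸ h2)
  set I' : Finset (Fin n) := insert j (I.erase (σ i)) with hI'
  set J' : Finset (Fin n) := insert (σ i) (J.erase j) with hJ'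
  have e1 : ∀ m, (ind I' m : ℝ) = ind I m + 1 * ((if m = j then 1 else 0) - (if m = σ i then 1 else 0)) := by
    intro m
    unfold ind
    simp only [hI', mem_insert, mem_erase]
    by_cases a : m = j
    · subst a
      simp [hjI, hjs]
    · by_cases b : m = σ i
      · subst b
        simp [a, h2]
      · simp [a, b]
  have e2 : ∀ m, (ind J' m : ℝ) = ind J m + (-1) * ((if m = j then 1 else 0) - (if m = σ i then 1 else 0)) := by
    intro m
    unfold ind
    simp only [hJ', mem_insert, mem_erase]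
    by_cases b : m = σ i
    · subst b
      simp [hjs.symm, h4]
    · by_cases a : m = j
      · subst a
        simp [b, hjJ]
      · simp [a, b]
  have c1 : I'.card = k := by
    rw [hI', card_insert_of_notMem (fun h => hjI (mem_of_mem_erase h)), card_erase_of_mem h2, hcI]
    omega
  have c2 : J'.card = k := by
    rw [hJ', card_insert_of_notMem (fun h => h4 (mem_of_mem_erase h)), card_erase_of_mem hjJ, hcJ]
    omega
  have q1 : Qf σ (ind I') = Qf σ (ind I) + 2 * 1 * (ind I (σ j) - ind I i) + 1 ^ 2 * (if σ j = j then 1 else 0) := by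
    rw [← Qf_exch hσ (ind I) 1 i j hne hji]
    congr 1
    funext m
    exact e1 m
  have q2 : Qf σ (ind J') = Qf σ (ind J) + 2 * (-1) * (ind J (σ j) - ind J i) + (-1) ^ 2 * (if σ j = j then 1 else 0) := by
    rw [← Qf_exch hσ (ind J) (-1) i j hne hji]
    congr 1
    funext m
    exact e2 m
  have v1 : (ind I i : ℝ) = 1 := if_pos h1
  have v2 : (ind J i : ℝ) = 0 := if_neg h3
  have hq : Qf σ (ind I') + Qf σ (ind J') ≤ Qf σ (ind I) + Qf σ (ind J) - 2 := by
    rw [q1, q2, v1, v2]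
    by_cases hjj : σ j = j
    · have v3 : (ind I (σ j) : ℝ) = 0 := if_neg (by rw [hjj]; exact hjI)
      have v4 : (ind J (σ j) : ℝ) = 1 := if_pos (by rw [hjj]; exact hjJ)
      rw [v3, v4, if_pos hjj]
      linarith
    · have v3 : (ind I (σ j) : ℝ) ≤ ind J (σ j) := by
        unfold ind
        by_cases a : σ j ∈ I
        · rw [if_pos a, if_pos (hj a)]
        · rw [if_neg a]
          split_ifs <;> norm_num
      rw [if_neg hjj]
      linarith
  have h6 := opt_two hS hI.mem hJ.mem c1 c2 (by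
    funext m
    show (ind I m + ind J m : ℝ) = ind I' m + ind J' m
    rw [e1, e2]
    ring)
  have h7 := hd1 I'
  have h8 := hd1 J'
  have h9 := At_ge (σ := σ) I'
  have h10 := At_ge (σ := σ) J'
  have h11 := hd2 I
  have h12 := hd2 J
  have h13 := At_ub hI.ne
  have h14 := At_ub hJ.ne
  linarith

end Pool.Agent.Lib.MP079fc8
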