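import Pool.Agent.Lib.MP_079fc8_co.Ivo4

/-!
MP_079fc8_co. Involutions: every involution leaves some lattice triangulation of the hypersimplex invariant.
-/

set_option autoImplicit false

namespace Pool.Agent.Lib.MP079fc8

open Finset Pool.Agent.Lib.HyS

variable {n : ℕ} {σ : Equiv.Perm (Fin n)} {k : ℕ} {d : Finset (Fin n) → ℝ} {S : Finset (Finset (Fin n))}

/-- the dependencies of an optimal family vanish -/
theorem dep_zero (hk : 0 < k) (hσ : ∀ i, σ (σ i) = i) (hd1 : ∀ I, At σ I ≤ d I) (hd2 : ∀ I, d I ≤ At σ I + 1 / 8)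
    (hd3 : ∀ I, d (mp σ I) = d I) (hS : Opt k d S)
    (gen : ∀ c, Dep S c → (∀ I, mp σ I = I → c I = 0) ∧ ∀ I, mp σ I ≠ I → c I + c (mp σ I) = 0)
    (c : Finset (Fin n) → ℝ) (hc : Dep S c) (I₀ : Finset (Fin n)) : c I₀ = 0 := by
  classical
  by_contra hI₀
  obtain ⟨g1, g2⟩ := gen c hc
  have hne : ∀ I, c I ≠ 0 → mp σ I ≠ I := fun I h h2 => h (g1 I h2)
  have hneg : ∀ I, c (mp σ I) = -c I := by
    intro I
    by_cases h : mp σ I = I
    · rw [h, g1 I h, neg_zero]
    · linarith [g2 I h]
  have hmem : ∀ I, c I ≠ 0 → Mem σ k d S I := by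
    intro I h
    refine ⟨?_, ?_, hne I h⟩
    · by_contra h2
      exact h (hc.1 I h2)
    · by_contra h2
      have h3 := hc.1 _ h2
      rw [hneg] at h3
      exact h (by linarith)
  set o : Finset (Fin n) → ℝ := fun I => if (∀ i ∈ I, σ i ∉ I → i < σ i) then 1 else -1 with ho
  have hsplit : ∀ I, c I ≠ 0 → ∃ i ∈ I, σ i ∉ I := by
    intro I h
    by_contra h2
    push Not at h2
    exact hne I h (mp_eq hσ h2)
  have hoo : ∀ I, c I ≠ 0 → o (mp σ I) = -o I := by
    intro I h
    obtain ⟨i, hi, hsi⟩ := hsplit I h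
    have hcon := conD hσ hd1 hd2 hd3 hS (hmem I h)
    simp only [ho]
    by_cases h2 : ∀ i ∈ I, σ i ∉ I → i < σ i
    · rw [if_pos h2, if_neg]
      intro h3
      have h4 := h3 (σ i) (by rw [mem_mp hσ, hσ]; exact hi) (by rw [mem_mp hσ, hσ]; exact hsi)
      rw [hσ] at h4
      exact lt_asymm h4 (h2 i hi hsi)
    · rw [if_neg h2, if_pos, neg_neg]
      have h3 : ∀ i ∈ I, σ i ∉ I → σ i < i := by
        rcases hcon with h4 | h4
        · exact absurd h4 h2
        · exact h4
      intro j hj hsj
      rw [mem_mp hσ] at hj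
      rw [mem_mp hσ, hσ] at hsj
      have h5 := h3 (σ j) hj (by rwa [hσ])
      rwa [hσ] at h5
  set c' : Finset (Fin n) → ℝ := fun I => o I * c I with hc'
  have hsym : ∀ I, c' (mp σ I) = c' I := by
    intro I
    simp only [hc']
    by_cases h : c I = 0
    · rw [hneg, h, neg_zero, mul_zero, mul_zero]
    · rw [hneg, hoo I h]
      ring
  set V : Finset (Fin n) := univ.filter fun i => ∃ I, c I ≠ 0 ∧ i ∈ I ∧ σ i ∈ I with hV
  have hVm : ∀ i, i ∈ V ↔ ∃ I, c I ≠ 0 ∧ i ∈ I ∧ σ i ∈ I := by
    intro i
    rw [hV, mem_filter]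
    exact ⟨fun h => h.2, fun h => ⟨mem_univ _, h⟩⟩
  set a : Fin n → ℝ := fun i => if i < σ i then 1 else if σ i < i then -1 else 0 with ha
  -- the pointwise identity
  have hpt : ∀ I i, c' I * (ind I i + ind I (σ i)) =
      (if i ∈ V then 2 * c' I else 0) + (if i ∈ V then -1 else 1) * (a i * (c I * (ind I i - ind I (σ i)))) := by
    intro I i
    by_cases h : c I = 0
    · simp only [hc', h]
      simp
    · have hcon := conD hσ hd1 hd2 hd3 hS (hmem I h)
      by_cases h1 : i ∈ I <;> by_cases h2 : σ i ∈ I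
      · have h3 : i ∈ V := (hVm i).2 ⟨I, h, h1, h2⟩
        have v1 : (ind I i : ℝ) = 1 := if_pos h1
        have v2 : (ind I (σ i) : ℝ) = 1 := if_pos h2
        rw [if_pos h3, if_pos h3, v1, v2]
        ring
      · have v1 : (ind I i : ℝ) = 1 := if_pos h1
        have v2 : (ind I (σ i) : ℝ) = 0 := if_neg h2
        rw [v1, v2]
        by_cases h4 : ∀ i ∈ I, σ i ∉ I → i < σ i
        · have h5 := h4 i h1 h2
          have h6 : c' I = c I := by
            simp only [hc', ho]
            rw [if_pos h4, one_mul]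
          have h7 : a i = 1 := if_pos h5
          rw [h6, h7]
          split_ifs <;> ring
        · have h5 : σ i < i := by
            rcases hcon with h8 | h8
            · exact absurd h8 h4
            · exact h8 i h1 h2
          have h6 : c' I = -c I := by
            simp only [hc', ho]
            rw [if_neg h4]
            ring
          have h7 : a i = -1 := by
            simp only [ha]
            rw [if_neg (not_lt.2 h5.le), if_pos h5]
          rw [h6, h7]
          split_ifs <;> ring
      · have v1 : (ind I i : ℝ) = 0 := if_neg h1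
        have v2 : (ind I (σ i) : ℝ) = 1 := if_pos h2
        rw [v1, v2]
        by_cases h4 : ∀ i ∈ I, σ i ∉ I → i < σ i
        · have h5 := h4 (σ i) h2 (by rwa [hσ])
          rw [hσ] at h5
          have h6 : c' I = c I := by
            simp only [hc', ho]
            rw [if_pos h4, one_mul]
          have h7 : a i = -1 := by
            simp only [ha]
            rw [if_neg (not_lt.2 h5.le), if_pos h5]
          rw [h6, h7]
          split_ifs <;> ring
        · have h5 : i < σ i := by
            rcases hcon with h8 | h8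
            · exact absurd h8 h4
            · have := h8 (σ i) h2 (by rwa [hσ])
              rwa [hσ] at this
          have h6 : c' I = -c I := by
            simp only [hc', ho]
            rw [if_neg h4]
            ring
          have h7 : a i = 1 := if_pos h5
          rw [h6, h7]
          split_ifs <;> ring
      · have h3 : i ∉ V := by
          rw [hVm]
          rintro ⟨J, hJ, h5, h6⟩
          exact fullE hk hσ hd1 hd2 hd3 hS (hmem J hJ) (hmem I h) h5 h6 h1 h2
        have v1 : (ind I i : ℝ) = 0 := if_neg h1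
        have v2 : (ind I (σ i) : ℝ) = 0 := if_neg h2
        rw [if_neg h3, if_neg h3, v1, v2]
        ring
  have hco : ∀ i, ∑ I, c I * ind I i = 0 := by
    intro i
    have h := congrFun hc.2 i
    simpa [Finset.sum_apply, Pi.smul_apply, smul_eq_mul] using h
  set C : ℝ := ∑ I, c' I with hC
  have hg1 : ∀ i, ∑ I, c' I * ind I (σ i) = ∑ I, c' I * ind I i := by
    intro i
    have hinv : Function.Involutive (mp σ) := mp_mp hσ
    rw [← Equiv.sum_comp (Function.Involutive.toPerm (mp σ) hinv)]
    refine Finset.sum_congr rfl fun I _ => ?_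
    show c' (mp σ I) * ind (mp σ I) (σ i) = _
    rw [hsym, ind_mp hσ, hσ]
  have hg2 : ∀ i, ∑ I, c' I * ind I i = if i ∈ V then C else 0 := by
    intro i
    have h1 : ∑ I, c' I * (ind I i + ind I (σ i)) = ∑ I, c' I * ind I i + ∑ I, c' I * ind I i := by
      conv_rhs => rhs; rw [← hg1 i]
      rw [← Finset.sum_add_distrib]
      refine Finset.sum_congr rfl fun I _ => ?_
      ring
    rw [Finset.sum_congr rfl fun I _ => hpt I i, Finset.sum_add_distrib, ← Finset.mul_sum, ← Finset.mul_sum] at h1
    have h2 : ∑ I, c I * (ind I i - ind I (σ i)) = 0 := by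
      simp only [mul_sub, Finset.sum_sub_distrib]
      rw [hco, hco, sub_zero]
    rw [h2, mul_zero, mul_zero, add_zero] at h1
    by_cases h3 : i ∈ V
    · simp only [h3, if_true] at h1 ⊢
      rw [← Finset.mul_sum] at h1
      linarith
    · simp only [h3, if_false, Finset.sum_const_zero] at h1 ⊢
      linarith
  have hcard : ∀ I, c I ≠ 0 → I.card = k := fun I h => hS.1 I (hmem I h).mem
  have hsumk : (k : ℝ) * C = V.card * C := by
    have h1 : ∑ i, ∑ I, c' I * ind I i = (k : ℝ) * C := by
      rw [Finset.sum_comm, hC, Finset.mul_sum]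
      refine Finset.sum_congr rfl fun I _ => ?_
      rw [← Finset.mul_sum, sum_ind]
      by_cases h : c I = 0
      · simp only [hc', h, mul_zero, zero_mul]
      · rw [hcard I h, mul_comm]
    rw [← h1, Finset.sum_congr rfl fun i _ => hg2 i, Finset.sum_ite_mem, Finset.univ_inter, Finset.sum_const,
      nsmul_eq_mul]
  have hVi : ∀ i ∈ V, σ i ∈ V := by
    intro i hi
    rw [hVm] at hi ⊢
    obtain ⟨I, h1, h2, h3⟩ := hi
    exact ⟨I, h1, h3, by rwa [hσ]⟩
  have hpar : V.card % 2 = (I₀ ∩ mp σ I₀).card % 2 := by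
    refine inv_parity' σ hσ V (I₀ ∩ mp σ I₀) hVi ?_ ?_
    · intro i hi
      simp only [mem_inter, mem_mp hσ, hσ] at hi ⊢
      exact hi.symm
    · intro i hi
      rw [hVm, mem_inter, mem_mp hσ, hi]
      constructor
      · rintro ⟨I, h1, h2, -⟩
        have h3 := fixC hk hσ hd1 hd2 hd3 hS (hmem I h1) (hmem I₀ hI₀) hi h2
        exact ⟨h3, h3⟩
      · rintro ⟨h1, -⟩
        exact ⟨I₀, hI₀, h1, h1⟩
  have hle : (I₀ ∩ mp σ I₀).card ≤ k := by
    rw [← hcard I₀ hI₀]
    exact card_le_card inter_subset_left
  have hodd := parB hk hσ hd1 hd2 hd3 hS (hmem I₀ hI₀) (k - (I₀ ∩ mp σ I₀).card) (by omega)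
  have hkV : k ≠ V.card := by
    intro h
    apply hodd
    rw [Nat.even_iff]
    omega
  have hC0 : C = 0 := by
    have h1 : ((k : ℝ) - V.card) * C = 0 := by linarith
    rcases mul_eq_zero.1 h1 with h2 | h2
    · exact absurd (by exact_mod_cast sub_eq_zero.1 h2) hkV
    · exact h2
  have hdep : Dep S c' := by
    refine ⟨fun I hI => ?_, ?_⟩
    · simp only [hc']
      rw [hc.1 I hI, mul_zero]
    · funext i
      have h := hg2 i
      rw [hC0, ite_self] at h
      simpa [Finset.sum_apply, Pi.smul_apply, smul_eq_mul] using h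
  have h1 := (gen c' hdep).2 I₀ (hne I₀ hI₀)
  rw [hsym] at h1
  have h2 : c' I₀ = 0 := by linarith
  simp only [hc', ho] at h2
  rcases mul_eq_zero.1 h2 with h3 | h3
  · split_ifs at h3 <;> norm_num at h3
  · exact hI₀ h3

theorem invo_exists {k : ℕ} (hk : 0 < k) (σ : Equiv.Perm (Fin n)) (hσ : ∀ i, σ (σ i) = i)
    (G : Subgroup (Equiv.Perm (Fin n))) (hG : ∀ τ ∈ G, τ = 1 ∨ τ = σ) :
    ∃ T : LatticeTriangulation k n, Invariant G T := by
  classical
  let e : Finset (Fin n) → ℕ := fun I => (Fintype.equivFin (Finset (Fin n)) I : ℕ)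
  have he : Function.Injective e := fun I J h => (Fintype.equivFin (Finset (Fin n))).injective (Fin.ext h)
  let idx : Finset (Fin n) → ℕ := fun I => 1 + min (e I) (e (mp σ I))
  have hidx : ∀ I, idx (mp σ I) = idx I := by
    intro I
    show 1 + min (e (mp σ I)) (e (mp σ (mp σ I))) = 1 + min (e I) (e (mp σ I))
    rw [mp_mp hσ, min_comm]
  have hidx2 : ∀ I J, idx I = idx J → I = J ∨ I = mp σ J := by
    intro I J h
    have h' : 1 + min (e I) (e (mp σ I)) = 1 + min (e J) (e (mp σ J)) := h
    have h1 : min (e I) (e (mp σ I)) = min (e J) (e (mp σ J)) := by omega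
    rcases min_choice (e I) (e (mp σ I)) with h2 | h2 <;> rcases min_choice (e J) (e (mp σ J)) with h3 | h3 <;>
      rw [h2, h3] at h1
    · exact Or.inl (he h1)
    · exact Or.inr (he h1)
    · right
      rw [← he h1, mp_mp hσ]
    · left
      rw [← mp_mp hσ I, he h1, mp_mp hσ]
  obtain ⟨t, ht0, ht1, ht⟩ := generic_add (At σ) idx (fun I => Nat.le_add_right 1 _) (δ := 1 / 8) (by norm_num)
  have htp : ∀ I, 0 ≤ t ^ idx I ∧ t ^ idx I ≤ 1 / 8 := by
    intro I
    refine ⟨pow_nonneg ht0.le _, ?_⟩
    calc t ^ idx I ≤ t ^ 1 := pow_le_pow_of_le_one ht0.le (by linarith) (Nat.le_add_right 1 _)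
      _ = t := pow_one t
      _ ≤ 1 / 8 := ht1.le
  have hd3 : ∀ I, At σ (mp σ I) + t ^ idx (mp σ I) = At σ I + t ^ idx I := fun I => by
    rw [At_mp hσ, hidx]
  refine regular_exists hk (fun I => At σ I + t ^ idx I) ?_ G ?_
  · intro S hS c hc I
    refine dep_zero (d := fun I => At σ I + t ^ idx I) hk hσ (fun I => ?_) (fun I => ?_) hd3 hS ?_ c hc I
    · have := (htp I).1
      show At σ I ≤ At σ I + t ^ idx I
      linarith
    · have := (htp I).2
      show At σ I + t ^ idx I ≤ At σ I + 1 / 8
      linarith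
    · intro c hc
      have h1 := ht S (fun c hc => opt_dep hS hc) c hc
      constructor
      · intro I hI
        have h2 := h1 (idx I)
        have h3 : univ.filter (fun J => idx J = idx I) = {I} := by
          ext J
          rw [mem_filter, mem_singleton]
          constructor
          · rintro ⟨-, h⟩
            rcases hidx2 J I h with h | h
            · exact h
            · rw [h, hI]
          · rintro rfl
            exact ⟨mem_univ _, rfl⟩
        rwa [h3, sum_singleton] at h2
      · intro I hI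
        have h2 := h1 (idx I)
        have h3 : univ.filter (fun J => idx J = idx I) = {I, mp σ I} := by
          ext J
          rw [mem_filter, mem_insert, mem_singleton]
          constructor
          · rintro ⟨-, h⟩
            exact hidx2 J I h
          · rintro (rfl | rfl)
            · exact ⟨mem_univ _, rfl⟩
            · exact ⟨mem_univ _, hidx I⟩
        rwa [h3, sum_pair hI.symm] at h2
  · intro τ hτ I
    rcases hG τ hτ with rfl | rfl
    · have h1 : I.map (1 : Equiv.Perm (Fin n)).toEmbedding = I := by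
        ext i
        rw [Finset.mem_map_equiv]
        rfl
      show At σ (I.map _) + t ^ idx (I.map _) = _
      rw [h1]
    · exact hd3 I

end Pool.Agent.Lib.MP079fc8
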