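import Pool.Agent.Lib.HyS.Alc
import Pool.Agent.Lib.HyS.Conj

/-!
MP_079fc8_co. Groups of prime order without fixed index are conjugate into the dihedral group.
-/

set_option autoImplicit false

namespace Pool.Agent.Lib.MP079fc8

open Finset Pool.Agent.Lib.HyS

private theorem type_free {n p : ℕ} (hp : p.Prime) (σ : Equiv.Perm (Fin n)) (hσ : orderOf σ = p)
    (hfree : ∀ i, σ i ≠ i) : ∃ m : ℕ, σ.cycleType = Multiset.replicate (m + 1) p ∧ (m + 1) * p = n := by
  obtain ⟨m, hm⟩ := Equiv.Perm.cycleType_prime_order (σ := σ) (by rw [hσ]; exact hp)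
  rw [hσ] at hm
  refine ⟨m, hm, ?_⟩
  have h1 := Equiv.Perm.sum_cycleType σ
  have h2 : σ.support = univ := by
    ext i
    simp only [Equiv.Perm.mem_support, mem_univ, iff_true]
    exact hfree i
  rw [hm, h2, Multiset.sum_replicate, card_univ, Fintype.card_fin, smul_eq_mul] at h1
  exact h1

theorem prime_free {n p : ℕ} (hp : p.Prime) (σ : Equiv.Perm (Fin n)) (hσ : orderOf σ = p)
    (hfree : ∀ i, σ i ≠ i) : ∃ ρ : Equiv.Perm (Fin n), ρ * σ * ρ⁻¹ ∈ dihedral n := by
  obtain ⟨m, hm, hmn⟩ := type_free hp σ hσ hfree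
  have hp2 := hp.two_le
  have hn : 2 ≤ n := by
    rw [← hmn]
    nlinarith [Nat.zero_le m]
  obtain ⟨N, rfl⟩ : ∃ N, n = N + 2 := ⟨n - 2, by omega⟩
  have hcyc := isCycle_finRotate (n := N)
  have hord : orderOf (finRotate (N + 2)) = N + 2 := by
    rw [hcyc.orderOf, support_finRotate, card_univ, Fintype.card_fin]
  have hmv : ∀ i, finRotate (N + 2) i ≠ i := by
    intro i
    have : i ∈ (finRotate (N + 2)).support := by
      rw [support_finRotate]
      exact mem_univ i
    exact Equiv.Perm.mem_support.1 this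
  set τ := (finRotate (N + 2)) ^ (m + 1) with hτ
  have hlt : m + 1 < N + 2 := by
    rw [← hmn]
    nlinarith [Nat.zero_le m]
  have hτ1 : τ ≠ 1 := by
    intro h
    have h1 := orderOf_dvd_of_pow_eq_one h
    rw [hord] at h1
    have := Nat.le_of_dvd (by omega) h1
    omega
  have hτp : orderOf τ = p := by
    have : Fact p.Prime := ⟨hp⟩
    refine orderOf_eq_prime ?_ hτ1
    have h0 := pow_orderOf_eq_one (finRotate (N + 2))
    rw [hord] at h0
    rw [hτ, ← pow_mul, hmn]
    exact h0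
  have hτf : ∀ i, τ i ≠ i := by
    intro i h
    exact hτ1 ((hcyc.pow_eq_one_iff' (hmv i)).2 h)
  obtain ⟨m', hm', hmn'⟩ := type_free hp τ hτp hτf
  have hmm : m' = m := by
    have h1 : (m' + 1) * p = (m + 1) * p := by rw [hmn, hmn']
    have h2 := Nat.eq_of_mul_eq_mul_right (by omega : 0 < p) h1
    omega
  have hconj : IsConj σ τ := by
    rw [Equiv.Perm.isConj_iff_cycleType_eq, hm, hm', hmm]
  obtain ⟨ρ, hρ⟩ := isConj_iff.1 hconj
  refine ⟨ρ, ?_⟩
  rw [hρ, hτ]
  exact Subgroup.pow_mem _ (Subgroup.subset_closure (by simp)) _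

/-- a group of prime order without fixed index leaves a lattice triangulation invariant -/
theorem free_exists {n : ℕ} (k : ℕ) (G : Subgroup (Equiv.Perm (Fin n))) (hp : (Nat.card G).Prime)
    (hfree : ¬ ∃ i : Fin n, ∀ g ∈ G, g i = i) : ∃ T : LatticeTriangulation k n, Invariant G T := by
  have : Fact (Nat.card G).Prime := ⟨hp⟩
  have hnt : Nontrivial G := by
    rw [← Finite.one_lt_card_iff_nontrivial]
    exact hp.one_lt
  obtain ⟨g, hg⟩ := exists_ne (1 : G)
  have hgen : ∀ h : G, h ∈ Subgroup.zpowers g := fun h => mem_zpowers_of_prime_card rfl hg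
  have hgen' : ∀ h ∈ G, h ∈ Subgroup.zpowers (g : Equiv.Perm (Fin n)) := by
    intro h hh
    obtain ⟨z, hz⟩ := Subgroup.mem_zpowers_iff.1 (hgen ⟨h, hh⟩)
    refine Subgroup.mem_zpowers_iff.2 ⟨z, ?_⟩
    have := congrArg (fun x : G => (x : Equiv.Perm (Fin n))) hz
    simpa using this
  have hord : orderOf (g : Equiv.Perm (Fin n)) = Nat.card G := by
    rw [Subgroup.orderOf_coe]
    exact orderOf_eq_card_of_forall_mem_zpowers hgen
  have hf : ∀ i, (g : Equiv.Perm (Fin n)) i ≠ i := by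
    intro i hi
    apply hfree
    refine ⟨i, fun h hh => ?_⟩
    obtain ⟨z, rfl⟩ := Subgroup.mem_zpowers_iff.1 (hgen' h hh)
    have h1 : (g : Equiv.Perm (Fin n)) ∈ MulAction.stabilizer (Equiv.Perm (Fin n)) i := hi
    exact Subgroup.zpow_mem _ h1 z
  obtain ⟨ρ, hρ⟩ := prime_free hp _ hord hf
  obtain ⟨T, hT⟩ := alcoved_exists k n
  refine exists_conj T hT ρ fun τ hτ => ?_
  obtain ⟨z, rfl⟩ := Subgroup.mem_zpowers_iff.1 (hgen' τ hτ)
  rw [← conj_zpow]
  exact Subgroup.zpow_mem _ hρ z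

end Pool.Agent.Lib.MP079fc8
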