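import Pool.Agent.Lib.MP_079fc8_co.Design

/-!
MP_079fc8_co. The simplex on the other side of a facet of the carrier of the barycentre: existence and uniqueness.
-/

set_option autoImplicit false
set_option linter.unusedSectionVars false

namespace Pool.Agent.Lib.MP079fc8

open Finset

variable {ι : Type} [Fintype ι] [DecidableEq ι]
variable {k : ℕ} {G : Set (Equiv.Perm ι)} {T : Set (Finset (ι → ℝ))}

theorem exists_basis {F : Finset (ι → ℝ)} (h : ∀ w : (ι → ℝ) → ℝ, ∑ x ∈ F, w x • x = 0 → ∀ x ∈ F, w x = 0)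
    (hsp : Submodule.span ℝ (F : Set (ι → ℝ)) = ⊤) : ∃ b : Module.Basis F ℝ (ι → ℝ), ∀ x : F, b x = x := by
  have hr' : Set.range (fun x : F => (x : ι → ℝ)) = (F : Set (ι → ℝ)) := by
    ext y
    simp
  exact ⟨Module.Basis.mk (li_family h) (by rw [hr', hsp]), fun x => Module.Basis.mk_apply _ _ x⟩

theorem exists_coord {F : Finset (ι → ℝ)} (h : ∀ w : (ι → ℝ) → ℝ, ∑ x ∈ F, w x • x = 0 → ∀ x ∈ F, w x = 0)
    (hsp : Submodule.span ℝ (F : Set (ι → ℝ)) = ⊤) (B : ι → ℝ) (hB : B ∈ F) :
    ∃ φ : (ι → ℝ) →ₗ[ℝ] ℝ, φ B = 1 ∧ ∀ C ∈ F, C ≠ B → φ C = 0 := by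
  classical
  obtain ⟨b, hb⟩ := exists_basis h hsp
  refine ⟨b.coord ⟨B, hB⟩, ?_, fun C hC hCB => ?_⟩
  · have h2 : b.coord ⟨B, hB⟩ (b ⟨B, hB⟩) = 1 := by
      rw [Module.Basis.coord_apply, Module.Basis.repr_self, Finsupp.single_eq_same]
    rwa [hb ⟨B, hB⟩] at h2
  · have h2 : b.coord ⟨B, hB⟩ (b ⟨C, hC⟩) = 0 := by
      rw [Module.Basis.coord_apply, Module.Basis.repr_self, Finsupp.single_eq_of_ne]
      intro h2
      exact hCB (congrArg Subtype.val h2).symm
    rwa [hb ⟨C, hC⟩] at h2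

theorem tri_finite (h : Tri k G T) : T.Finite := by
  classical
  let V : Finset (ι → ℝ) := (Finset.univ : Finset (Finset ι)).image fun J i => if i ∈ J then 1 else 0
  refine (V.powerset.finite_toSet).subset fun s hs => ?_
  rw [mem_coe, mem_powerset]
  intro x hx
  refine mem_image.2 ⟨Finset.univ.filter fun i => x i = 1, mem_univ _, ?_⟩
  funext i
  rcases h.vtx s hs x hx i with h1 | h1
  · simp [h1]
  · simp [h1]

theorem nbr_exists (h : Tri k G T) (hk : 2 ≤ k) (hkn : k + 2 ≤ Fintype.card ι) {F : Finset (ι → ℝ)} (hF : F ∈ T)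
    (hcard : F.card = Fintype.card ι) (hr : ∀ i, ∑ x ∈ F, x i = (k : ℝ))
    (hsp : Submodule.span ℝ (F : Set (ι → ℝ)) = ⊤) {B : ι → ℝ} (hB : B ∈ F) :
    ∃ J, J ∉ F ∧ insert J (F.erase B) ∈ T := by
  classical
  set n : ℕ := Fintype.card ι with hn
  have hkn' : (k : ℝ) + 2 ≤ n := by exact_mod_cast hkn
  have hk' : (2 : ℝ) ≤ k := by exact_mod_cast hk
  have hn1 : (0 : ℝ) < (n : ℝ) - 1 := by linarith
  set D := F.erase B with hD
  have hDcard : (D.card : ℝ) = (n : ℝ) - 1 := by
    rw [hD, card_erase_of_mem hB, hcard, Nat.cast_sub (by omega)]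
    norm_num
  set v : ι → ℝ := ∑ C ∈ D, C with hv
  have hvi : ∀ i, v i = k - B i := by
    intro i
    rw [hv, Finset.sum_apply, ← hr i, ← Finset.add_sum_erase F (fun x => x i) hB]
    ring
  have hphi := fun (C : ι → ℝ) (hC : C ∈ F) => exists_coord (h.li F hF) hsp C hC
  -- the point
  set c : ℝ → (ι → ℝ) := fun ε => ((1 + ε) / ((n : ℝ) - 1)) • v - ε • B with hc
  have hcc : Continuous c := by
    rw [hc]
    fun_prop
  have hc0 : c 0 = (1 / ((n : ℝ) - 1)) • v := by
    rw [hc]
    simp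
  have hm : c 0 ∈ convexHull ℝ (D : Set (ι → ℝ)) := by
    rw [hc0, hv, Finset.smul_sum]
    refine (convex_convexHull ℝ _).sum_mem (fun _ _ => by positivity) ?_ fun x hx => subset_convexHull ℝ _ hx
    rw [Finset.sum_const, nsmul_eq_mul, hDcard]
    field_simp
  have hDT : D ∈ T := h.down F hF D (erase_subset _ _) (hull_nonempty hm)
  set U : Set (ι → ℝ) := ⋃ s ∈ {s | s ∈ T ∧ ¬ D ⊆ s}, convexHull ℝ (s : Set (ι → ℝ)) with hU
  have hUc : IsClosed U :=
    ((tri_finite h).subset fun s hs => hs.1).isClosed_biUnion fun s _ => (s.finite_toSet).isClosed_convexHull ℝ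
  have hmU : c 0 ∉ U := by
    intro hmem
    rw [hU, Set.mem_iUnion₂] at hmem
    obtain ⟨s, ⟨hs, hDs⟩, hms⟩ := hmem
    obtain ⟨C, hCD, hCs⟩ := not_subset.1 hDs
    have h1 := h.inter D hDT s hs _ hm hms
    have hCF : C ∈ F := mem_of_mem_erase hCD
    obtain ⟨φ, h2, h3⟩ := hphi C hCF
    have h4 : φ (c 0) = 0 := by
      refine hull_zero φ _ (fun x hx => ?_) _ h1
      rw [mem_coe, mem_inter] at hx
      refine h3 x (mem_of_mem_erase hx.1) ?_
      rintro rfl
      exact hCs hx.2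
    rw [hc0, map_smul, hv, map_sum, Finset.sum_eq_single C (fun x hx hxC => h3 x (mem_of_mem_erase hx) hxC)
      (fun h5 => absurd hCD h5), h2, smul_eq_mul, mul_one] at h4
    have : (0 : ℝ) < 1 / ((n : ℝ) - 1) := by positivity
    linarith
  obtain ⟨δ, hδ, hball⟩ := Metric.isOpen_iff.1 (hUc.isOpen_compl.preimage hcc) 0 hmU
  set ε : ℝ := min (δ / 2) (1 / ((n : ℝ) - 1)) with hε
  have hε0 : 0 < ε := lt_min (by linarith) (by positivity)
  have hε1 : ε ≤ 1 / ((n : ℝ) - 1) := min_le_right _ _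
  have hεU : c ε ∉ U := by
    refine hball ?_
    rw [Metric.mem_ball, Real.dist_eq, sub_zero, abs_of_pos hε0]
    exact lt_of_le_of_lt (min_le_left _ _) (by linarith)
  have hεn : ε * ((n : ℝ) - 1) ≤ 1 := by
    rwa [le_div_iff₀ hn1] at hε1
  have hci : ∀ i, c ε i = (1 + ε) / ((n : ℝ) - 1) * (k - B i) - ε * B i := by
    intro i
    rw [hc]
    simp only [Pi.sub_apply, Pi.smul_apply, smul_eq_mul, hvi]
  obtain ⟨s, hs, hcs⟩ := h.cover (c ε) (fun i => by
    rw [hci i]
    rcases h.vtx F hF B hB i with h1 | h1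
    · rw [h1, sub_zero, mul_zero, sub_zero]
      refine ⟨by positivity, ?_⟩
      rw [div_mul_eq_mul_div, div_le_one hn1]
      nlinarith
    · rw [h1, mul_one]
      constructor
      · rw [div_mul_eq_mul_div, sub_nonneg, le_div_iff₀ hn1]
        nlinarith
      · have h2 : (1 + ε) / ((n : ℝ) - 1) * (k - 1) ≤ 1 := by
          rw [div_mul_eq_mul_div, div_le_one hn1]
          nlinarith
        linarith) (by
    rw [Finset.sum_congr rfl (fun i _ => hci i), Finset.sum_sub_distrib, ← Finset.mul_sum, ← Finset.mul_sum,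
      Finset.sum_sub_distrib, h.sum F hF B hB, Finset.sum_const, Finset.card_univ, ← hn, nsmul_eq_mul]
    field_simp
    ring)
  have hDs : D ⊆ s := by
    by_contra hcon
    exact hεU (Set.mem_iUnion₂.2 ⟨s, ⟨hs, hcon⟩, hcs⟩)
  obtain ⟨φ, h2, h3⟩ := hphi B hB
  have hφv : φ v = 0 := by
    rw [hv, map_sum]
    exact Finset.sum_eq_zero fun x hx => h3 x (mem_of_mem_erase hx) (ne_of_mem_erase hx)
  have hφc : φ (c ε) = -ε := by
    rw [hc]
    simp only [map_sub, map_smul, hφv, h2, smul_eq_mul]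
    ring
  have hsF : ¬ s ⊆ F := by
    intro hcon
    have h4 : 0 ≤ φ (c ε) := by
      refine hull_nonneg φ _ (fun x hx => ?_) _ hcs
      by_cases hxB : x = B
      · rw [hxB, h2]
        exact zero_le_one
      · rw [h3 x (hcon hx) hxB]
    linarith
  obtain ⟨J, hJs, hJF⟩ := not_subset.1 hsF
  exact ⟨J, hJF, h.down s hs _ (insert_subset hJs hDs) (insert_nonempty _ _)⟩

/-- two simplices with a common facet on the same side of it are equal -/
theorem overlap (h : Tri k G T) (hk : 1 ≤ k) {D : Finset (ι → ℝ)} {P Q : ι → ℝ} (hDn : D.Nonempty) (hPD : P ∉ D) (hQD : Q ∉ D)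
    (hP : insert P D ∈ T) (hQ : insert Q D ∈ T) (hsp : Submodule.span ℝ ((insert P D : Finset (ι → ℝ)) : Set (ι → ℝ)) = ⊤)
    (φ : (ι → ℝ) →ₗ[ℝ] ℝ) (hφ : ∀ C ∈ D, φ C = 0) (hPQ : 0 < φ P * φ Q) : P = Q := by
  classical
  by_contra hne
  have hQsp : Q ∈ Submodule.span ℝ ((insert P D : Finset (ι → ℝ)) : Set (ι → ℝ)) := by
    rw [hsp]
    trivial
  rw [coe_insert, Submodule.mem_span_insert] at hQsp
  obtain ⟨a, z, hz, hQz⟩ := hQsp
  obtain ⟨d, -, hd⟩ := Submodule.mem_span_finset.1 hz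
  have hφz : φ z = 0 := by
    rw [← hd, map_sum]
    exact Finset.sum_eq_zero fun C hC => by rw [map_smul, hφ C hC, smul_zero]
  have hφQ : φ Q = a * φ P := by
    rw [hQz, map_add, map_smul, hφz, add_zero, smul_eq_mul]
  have ha : 0 < a := by
    rw [hφQ] at hPQ
    by_contra hcon
    push Not at hcon
    nlinarith [mul_self_nonneg (φ P)]
  have hk0 : (k : ℝ) ≠ 0 := by
    have : k ≠ 0 := by omega
    exact_mod_cast this
  -- the coefficients have sum one
  have hsum : a + ∑ C ∈ D, d C = 1 := by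
    have h1 : ∑ i, Q i = (k : ℝ) := h.sum _ hQ Q (mem_insert_self _ _)
    have h2 : ∑ i, Q i = a * k + ∑ C ∈ D, d C * k := by
      have h3 : ∀ i, Q i = a * P i + ∑ C ∈ D, d C * C i := by
        intro i
        rw [hQz, ← hd, Pi.add_apply, Pi.smul_apply, Finset.sum_apply, smul_eq_mul]
        simp only [Pi.smul_apply, smul_eq_mul]
      rw [Finset.sum_congr rfl (fun i _ => h3 i), Finset.sum_add_distrib, ← Finset.mul_sum,
        h.sum _ hP P (mem_insert_self _ _), Finset.sum_comm]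
      congr 1
      refine Finset.sum_congr rfl fun C hC => ?_
      rw [← Finset.mul_sum, h.sum _ hP C (mem_insert_of_mem hC)]
    rw [h1, ← Finset.sum_mul, ← add_mul] at h2
    exact mul_right_cancel₀ hk0 (by rw [one_mul]; exact h2.symm)
  have hN : (0 : ℝ) < D.card := by
    have := hDn.card_pos
    exact_mod_cast this
  set N : ℝ := (D.card : ℝ) with hNdef
  set M : ℝ := ∑ C ∈ D, |d C| with hM
  have hM0 : 0 ≤ M := Finset.sum_nonneg fun C _ => abs_nonneg _
  set t : ℝ := 1 / (1 + N * M) with ht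
  have hNM : 0 ≤ N * M := mul_nonneg hN.le hM0
  have ht0 : 0 < t := by positivity
  have ht1 : t ≤ 1 := by
    rw [ht, div_le_one (by linarith)]
    linarith
  have htN : t * (1 + N * M) = 1 := by
    rw [ht]
    field_simp
  set m : ι → ℝ := ∑ C ∈ D, (1 / N) • C with hm
  have hmD : m ∈ convexHull ℝ (D : Set (ι → ℝ)) := by
    refine (convex_convexHull ℝ _).sum_mem (fun _ _ => by positivity) ?_ fun x hx => subset_convexHull ℝ _ hx
    rw [Finset.sum_const, nsmul_eq_mul, ← hNdef]
    field_simp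
  set c : ι → ℝ := (1 - t) • m + t • Q with hc
  have hcQ : c ∈ convexHull ℝ ((insert Q D : Finset (ι → ℝ)) : Set (ι → ℝ)) := by
    refine (convex_convexHull ℝ _) (convexHull_mono ?_ hmD) (subset_convexHull ℝ _ ?_) (by linarith) ht0.le (by ring)
    · exact_mod_cast subset_insert Q D
    · rw [mem_coe]
      exact mem_insert_self _ _
  have hcP : c ∈ convexHull ℝ ((insert P D : Finset (ι → ℝ)) : Set (ι → ℝ)) := by
    have h1 : c = ∑ x ∈ insert P D, (if x = P then t * a else (1 - t) * (1 / N) + t * d x) • x := by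
      rw [Finset.sum_insert hPD, if_pos rfl, hc, hm, hQz, ← hd, Finset.smul_sum, smul_add, Finset.smul_sum, smul_smul]
      have h2 : ∑ x ∈ D, (if x = P then t * a else (1 - t) * (1 / N) + t * d x) • x =
          ∑ x ∈ D, (1 - t) • (1 / N) • x + ∑ x ∈ D, t • d x • x := by
        rw [← Finset.sum_add_distrib]
        refine Finset.sum_congr rfl fun x hx => ?_
        rw [if_neg (fun hxP : x = P => hPD (hxP ▸ hx)), add_smul, smul_smul, smul_smul]
      rw [h2]
      abel
    rw [h1]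
    refine (convex_convexHull ℝ _).sum_mem (fun x hx => ?_) ?_ fun x hx => subset_convexHull ℝ _ hx
    · rcases mem_insert.1 hx with hx | hx
      · rw [if_pos hx]
        positivity
      · rw [if_neg (fun hxP : x = P => hPD (hxP ▸ hx))]
        have h3 : |d x| ≤ M := Finset.single_le_sum (f := fun C => |d C|) (fun C _ => abs_nonneg _) hx
        have h4 : -M ≤ d x := by
          have := neg_abs_le (d x)
          linarith
        have h5 : (1 - t) * (1 / N) = t * M := by
          field_simp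
          linarith
        rw [h5]
        nlinarith
    · rw [Finset.sum_insert hPD, if_pos rfl]
      have h2 : ∑ x ∈ D, (if x = P then t * a else (1 - t) * (1 / N) + t * d x) = (1 - t) + t * ∑ x ∈ D, d x := by
        rw [Finset.sum_congr rfl (fun x hx => if_neg (fun hxP : x = P => hPD (hxP ▸ hx))), Finset.sum_add_distrib, Finset.sum_const,
          nsmul_eq_mul, ← hNdef, Finset.mul_sum]
        field_simp
      rw [h2]
      have h3 : t * a + ((1 - t) + t * ∑ x ∈ D, d x) = 1 - t + t * (a + ∑ x ∈ D, d x) := by ring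
      rw [h3, hsum]
      ring
  have hcD := h.inter _ hP _ hQ c hcP hcQ
  have hint : (insert P D ∩ insert Q D : Finset (ι → ℝ)) = D := by
    ext x
    simp only [mem_inter, mem_insert]
    constructor
    · rintro ⟨h1 | h1, h2 | h2⟩
      · exact absurd (h1.symm.trans h2) hne
      · exact h2
      · exact h1
      · exact h1
    · exact fun hx => ⟨Or.inr hx, Or.inr hx⟩
  rw [hint] at hcD
  have hφc : φ c = 0 := hull_zero φ _ (fun x hx => hφ x hx) _ hcD
  have hφm : φ m = 0 := hull_zero φ _ (fun x hx => hφ x hx) _ hmD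
  rw [hc, map_add, map_smul, map_smul, hφm, smul_zero, zero_add, smul_eq_mul] at hφc
  have : φ Q = 0 := by
    rcases mul_eq_zero.1 hφc with h1 | h1
    · exact absurd h1 ht0.ne'
    · exact h1
  rw [this, mul_zero] at hPQ
  exact lt_irrefl _ hPQ

end Pool.Agent.Lib.MP079fc8
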