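import Pool.Agent.Lib.MP_079fc8_co.Nbr

/-!
MP_079fc8_co. A two-transitive group leaves no lattice triangulation of the hypersimplex invariant (abstract form).
-/

set_option autoImplicit false
set_option linter.unusedSectionVars false

namespace Pool.Agent.Lib.MP079fc8

open Finset

variable {ι : Type} [Fintype ι] [DecidableEq ι]
variable {k : ℕ} {G : Set (Equiv.Perm ι)} {T : Set (Finset (ι → ℝ))}

theorem nbr_aux (h : Tri k G T) {F : Finset (ι → ℝ)}
    (hsp : Submodule.span ℝ (F : Set (ι → ℝ)) = ⊤) {B : ι → ℝ} (hB : B ∈ F) (φ : (ι → ℝ) →ₗ[ℝ] ℝ) (hφB : φ B = 1)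
    (hφ : ∀ C ∈ F.erase B, φ C = 0) {J : ι → ℝ} (hJF : J ∉ F) (hJ : insert J (F.erase B) ∈ T) :
    φ J ≠ 0 ∧ Submodule.span ℝ ((insert J (F.erase B) : Finset (ι → ℝ)) : Set (ι → ℝ)) = ⊤ := by
  classical
  have hJD : J ∉ F.erase B := fun h1 => hJF (mem_of_mem_erase h1)
  have hJsp : J ∈ Submodule.span ℝ ((insert B (F.erase B) : Finset (ι → ℝ)) : Set (ι → ℝ)) := by
    rw [insert_erase hB, hsp]
    trivial
  rw [coe_insert, Submodule.mem_span_insert] at hJsp
  obtain ⟨a, z, hz, hJz⟩ := hJsp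
  obtain ⟨d, -, hd⟩ := Submodule.mem_span_finset.1 hz
  have hφz : φ z = 0 := by
    rw [← hd, map_sum]
    exact Finset.sum_eq_zero fun C hC => by rw [map_smul, hφ C hC, smul_zero]
  have hφJ : φ J = a := by
    rw [hJz, map_add, map_smul, hφz, add_zero, smul_eq_mul, hφB, mul_one]
  have ha : a ≠ 0 := by
    intro ha0
    have h1 := h.li _ hJ (fun x => if x = J then 1 else -d x) (by
      rw [Finset.sum_insert hJD, if_pos rfl, one_smul]
      have h2 : ∑ x ∈ F.erase B, (if x = J then 1 else -d x) • x = -z := by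
        rw [← hd, ← Finset.sum_neg_distrib]
        refine Finset.sum_congr rfl fun x hx => ?_
        rw [if_neg (fun hxJ : x = J => hJD (hxJ ▸ hx)), neg_smul]
      rw [h2, hJz, ha0, zero_smul, zero_add, add_neg_cancel]) J (mem_insert_self _ _)
    simp at h1
  refine ⟨by rw [hφJ]; exact ha, ?_⟩
  rw [eq_top_iff, ← hsp, Submodule.span_le]
  intro x hx
  rw [SetLike.mem_coe]
  by_cases hxB : x = B
  · have h1 : B = a⁻¹ • (J - z) := by
      rw [hJz, add_sub_cancel_right, smul_smul, inv_mul_cancel₀ ha, one_smul]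
    have h2 : a⁻¹ • (J - z) ∈ Submodule.span ℝ ((insert J (F.erase B) : Finset (ι → ℝ)) : Set (ι → ℝ)) := by
      refine Submodule.smul_mem _ _ (Submodule.sub_mem _ (Submodule.subset_span ?_) (Submodule.span_mono ?_ hz))
      · rw [mem_coe]
        exact mem_insert_self _ _
      · exact_mod_cast subset_insert J (F.erase B)
    rw [← h1] at h2
    rw [hxB]
    exact h2
  · refine Submodule.subset_span ?_
    rw [mem_coe]
    exact mem_insert_of_mem (mem_erase.2 ⟨hxB, hx⟩)

theorem nbr_unique (h : Tri k G T) (hk : 1 ≤ k) {F : Finset (ι → ℝ)} (hF : F ∈ T) (hcard : 2 ≤ F.card)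
    (hsp : Submodule.span ℝ (F : Set (ι → ℝ)) = ⊤) {B : ι → ℝ} (hB : B ∈ F) {J J' : ι → ℝ} (hJF : J ∉ F) (hJF' : J' ∉ F)
    (hJ : insert J (F.erase B) ∈ T) (hJ' : insert J' (F.erase B) ∈ T) : J = J' := by
  classical
  obtain ⟨φ, hφB, hφ'⟩ := exists_coord (h.li F hF) hsp B hB
  have hφ : ∀ C ∈ F.erase B, φ C = 0 := fun C hC => hφ' C (mem_of_mem_erase hC) (ne_of_mem_erase hC)
  have hDn : (F.erase B).Nonempty := by
    rw [← card_pos, card_erase_of_mem hB]
    omega
  have hneg : ∀ K : ι → ℝ, K ∉ F → insert K (F.erase B) ∈ T → φ K < 0 := by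
    intro K hK hKT
    obtain ⟨h1, -⟩ := nbr_aux h hsp hB φ hφB hφ hK hKT
    rcases lt_or_gt_of_ne h1 with h2 | h2
    · exact h2
    · exfalso
      have h3 : B = K := overlap h hk hDn (fun h4 => (ne_of_mem_erase h4) rfl) (fun h4 => hK (mem_of_mem_erase h4))
        (by rw [insert_erase hB]; exact hF) hKT (by rw [insert_erase hB]; exact hsp) φ hφ (by rw [hφB, one_mul]; exact h2)
      exact hK (h3 ▸ hB)
  have h1 := hneg J hJF hJ
  have h2 := hneg J' hJF' hJ'
  exact overlap h hk hDn (fun h4 => hJF (mem_of_mem_erase h4)) (fun h4 => hJF' (mem_of_mem_erase h4)) hJ hJ'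
    (nbr_aux h hsp hB φ hφB hφ hJF hJ).2 φ hφ (mul_pos_of_neg_of_neg h1 h2)

theorem no_tri (h : Tri k G T) (hk : 2 ≤ k) (hkn : k + 2 ≤ Fintype.card ι) (htt : TT G) : False := by
  classical
  obtain ⟨F, hF, hFi, hcard, hr, hl, hsp⟩ := design h (by omega) (by omega) (by omega) htt.th
  have hJ : ∀ B ∈ F, ∃ J, J ∉ F ∧ insert J (F.erase B) ∈ T := fun B hB => nbr_exists h hk hkn hF hcard hr hsp hB
  choose! J hJF hJT using hJ
  obtain ⟨b, hb⟩ := exists_basis (h.li F hF) hsp
  set Θ : (ι → ℝ) →ₗ[ℝ] (ι → ℝ) := b.constr ℝ (fun x : F => J x) with hΘ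
  have hΘF : ∀ B ∈ F, Θ B = J B := by
    intro B hB
    have h1 : Θ (b ⟨B, hB⟩) = J B := by
      rw [hΘ, Module.Basis.constr_basis]
    rwa [hb ⟨B, hB⟩] at h1
  have hpF : ∀ g ∈ G, ∀ B ∈ F, pm g B ∈ F := by
    intro g hg B hB
    have := mem_image_of_mem (pm g) hB
    rwa [hFi g hg] at this
  have hJg : ∀ g ∈ G, ∀ B ∈ F, J (pm g B) = pm g (J B) := by
    intro g hg B hB
    have hgB := hpF g hg B hB
    refine nbr_unique h (by omega) hF (by omega) hsp hgB (hJF _ hgB) ?_ (hJT _ hgB) ?_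
    · intro h1
      rw [← hFi g hg] at h1
      obtain ⟨y, hy, hyJ⟩ := mem_image.1 h1
      exact hJF B hB (pm_inj g hyJ ▸ hy)
    · have h1 := h.inv g hg _ (hJT B hB)
      rwa [image_insert, image_erase (pm_inj g), hFi g hg] at h1
  have hΘg : ∀ g ∈ G, ∀ v, Θ (pm g v) = pm g (Θ v) := by
    intro g hg v
    have h1 : Θ ∘ₗ (pm g) = (pm g) ∘ₗ Θ := by
      refine b.ext fun x => ?_
      rw [LinearMap.comp_apply, LinearMap.comp_apply, hb x, hΘF x x.2, hΘF _ (hpF g hg x x.2), hJg g hg x x.2]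
    exact congrArg (fun f => f v) (congrArg DFunLike.coe h1)
  have hsg : ∀ (g : Equiv.Perm ι) (j : ι), pm g (Pi.single j (1 : ℝ)) = Pi.single (g j) 1 := by
    intro g j
    funext i
    rw [pm_apply]
    by_cases hij : g.symm i = j
    · rw [hij, Pi.single_eq_same, ← hij, Equiv.apply_symm_apply, Pi.single_eq_same]
    · rw [Pi.single_eq_of_ne hij, Pi.single_eq_of_ne]
      intro h1
      exact hij (by rw [h1, Equiv.symm_apply_apply])
  have hτ : ∀ g ∈ G, ∀ i j : ι, Θ (Pi.single (g j) 1) (g i) = Θ (Pi.single j 1) i := by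
    intro g hg i j
    rw [← hsg, hΘg g hg, pm_apply, Equiv.symm_apply_apply]
  have hnt : Nontrivial ι := Fintype.one_lt_card_iff_nontrivial.1 (by omega)
  obtain ⟨i0, i1, h01⟩ := exists_pair_ne ι
  set α : ℝ := Θ (Pi.single i0 1) i0 with hα
  set β : ℝ := Θ (Pi.single i0 1) i1 with hβ
  have hαj : ∀ j, Θ (Pi.single j 1) j = α := by
    intro j
    obtain ⟨d, hd⟩ := exists_ne j
    obtain ⟨g, hg, h1, h2⟩ := htt i0 i1 j d h01 hd.symm
    rw [hα, ← hτ g hg i0 i0, h1]
  have hβj : ∀ i j, i ≠ j → Θ (Pi.single j 1) i = β := by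
    intro i j hij
    obtain ⟨g, hg, h1, h2⟩ := htt i0 i1 j i h01 hij.symm
    rw [hβ, ← hτ g hg i1 i0, h1, h2]
  have hΘv : ∀ (v : ι → ℝ) (i : ι), Θ v i = (α - β) * v i + β * ∑ j, v j := by
    intro v i
    have h1 : v = ∑ j, v j • (Pi.single j (1 : ℝ) : ι → ℝ) := by
      funext j
      rw [Finset.sum_apply, Finset.sum_eq_single j]
      · rw [Pi.smul_apply, Pi.single_eq_same, smul_eq_mul, mul_one]
      · intro b _ hb
        rw [Pi.smul_apply, Pi.single_eq_of_ne hb.symm, smul_zero]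
      · intro hj
        exact absurd (Finset.mem_univ j) hj
    have h2 : Θ v i = ∑ j, v j * Θ (Pi.single j 1) i := by
      conv_lhs => rw [h1]
      rw [map_sum, Finset.sum_apply]
      refine Finset.sum_congr rfl fun j _ => ?_
      rw [map_smul, Pi.smul_apply, smul_eq_mul]
    rw [h2, ← Finset.add_sum_erase Finset.univ _ (Finset.mem_univ i), hαj i,
      Finset.sum_congr rfl (fun j hj => by rw [hβj i j (Finset.ne_of_mem_erase hj).symm]), ← Finset.sum_mul]
    have h3 : ∑ j ∈ Finset.univ.erase i, v j = ∑ j, v j - v i := by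
      rw [← Finset.add_sum_erase Finset.univ v (Finset.mem_univ i)]
      ring
    rw [h3]
    ring
  set n : ℕ := Fintype.card ι with hn
  have hkn' : (k : ℝ) + 2 ≤ n := by exact_mod_cast hkn
  have hk' : (2 : ℝ) ≤ k := by exact_mod_cast hk
  obtain ⟨B, hB⟩ : F.Nonempty := by
    rw [← card_pos]
    omega
  have hBsum := h.sum F hF B hB
  have hJsum := h.sum _ (hJT B hB) (J B) (mem_insert_self _ _)
  have hJv := h.vtx _ (hJT B hB) (J B) (mem_insert_self _ _)
  have hJB : ∀ i, J B i = (α - β) * B i + β * k := by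
    intro i
    rw [← hΘF B hB, hΘv, hBsum]
  obtain ⟨p, hp⟩ : ∃ p, B p = 1 := by
    by_contra hcon
    push Not at hcon
    have h1 : ∑ i, B i = 0 := Finset.sum_eq_zero fun i _ => (h.vtx F hF B hB i).resolve_right (hcon i)
    rw [hBsum] at h1
    linarith
  obtain ⟨q, hq⟩ : ∃ q, B q = 0 := by
    by_contra hcon
    push Not at hcon
    have h1 : ∑ i, B i = ∑ i : ι, (1 : ℝ) :=
      Finset.sum_congr rfl fun i _ => (h.vtx F hF B hB i).resolve_left (hcon i)
    rw [hBsum, Finset.sum_const, Finset.card_univ, ← hn, nsmul_eq_mul, mul_one] at h1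
    linarith
  have hp' := hJB p
  have hq' := hJB q
  rw [hp, mul_one] at hp'
  rw [hq, mul_zero, zero_add] at hq'
  have hn2k : (n : ℝ) = 2 * k := by
    rcases hJv q with h1 | h1
    · rw [h1] at hq'
      rcases hJv p with h2 | h2
      · exfalso
        have h3 : α - β = 0 := by linarith
        have h4 : ∑ i, J B i = 0 := Finset.sum_eq_zero fun i _ => by rw [hJB i, h3, ← hq']; ring
        linarith
      · exfalso
        have h3 : α - β = 1 := by linarith
        have h4 : J B = B := by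
          funext i
          rw [hJB i, h3, ← hq']
          ring
        exact hJF B hB (by rw [h4]; exact hB)
    · rw [h1] at hq'
      rcases hJv p with h2 | h2
      · have h3 : α - β = -1 := by linarith
        have h4 : ∑ i, J B i = ∑ i, (1 - B i) := Finset.sum_congr rfl fun i _ => by rw [hJB i, h3, ← hq']; ring
        rw [Finset.sum_sub_distrib, hBsum, Finset.sum_const, Finset.card_univ, ← hn, nsmul_eq_mul, mul_one] at h4
        linarith
      · exfalso
        have h3 : α - β = 0 := by linarith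
        have h4 : ∑ i, J B i = ∑ i : ι, (1 : ℝ) := Finset.sum_congr rfl fun i _ => by rw [hJB i, h3, ← hq']; ring
        rw [Finset.sum_const, Finset.card_univ, ← hn, nsmul_eq_mul, mul_one] at h4
        linarith
  -- integrality
  obtain ⟨m, hm⟩ : ∃ m : ℕ, ∑ x ∈ F, x i0 * x i1 = (m : ℝ) := by
    refine ⟨(F.filter fun x => x i0 = 1 ∧ x i1 = 1).card, ?_⟩
    rw [← Finset.sum_boole]
    refine Finset.sum_congr rfl fun x hx => ?_
    rcases h.vtx F hF x hx i0 with h1 | h1 <;> rcases h.vtx F hF x hx i1 with h2 | h2 <;> simp [h1, h2]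
  have h5 := hl i0 i1 h01
  rw [hm, hn2k] at h5
  have h6 : (2 * (k : ℤ) - 1) * (2 * (k : ℤ) - 1 - 4 * m) = 1 := by
    have h7 : ((2 * (k : ℝ) - 1) * (2 * (k : ℝ) - 1 - 4 * m) : ℝ) = 1 := by linarith
    exact_mod_cast h7
  rcases Int.eq_one_or_neg_one_of_mul_eq_one h6 with h7 | h7 <;> omega

end Pool.Agent.Lib.MP079fc8
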