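import Pool.Agent.Lib.MP_079fc8_co.Bridge

/-!
MP_079fc8_co. The orbits of subgroups with fixed points.
-/

set_option autoImplicit false
set_option linter.unusedSectionVars false

namespace Pool.Agent.Lib.MP079fc8

open Finset

variable {κ : Type} [Fintype κ] [DecidableEq κ]

/-- the orbit as a finite set -/
noncomputable def orb (H : Subgroup (Equiv.Perm κ)) (a : κ) : Finset κ := (Set.toFinite (MulAction.orbit H a)).toFinset

theorem mem_orb {H : Subgroup (Equiv.Perm κ)} {a b : κ} : b ∈ orb H a ↔ ∃ g ∈ H, g a = b := by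
  rw [orb, Set.Finite.mem_toFinset, MulAction.mem_orbit_iff]
  constructor
  · rintro ⟨⟨g, hg⟩, h⟩
    exact ⟨g, hg, h⟩
  · rintro ⟨g, hg, h⟩
    exact ⟨⟨g, hg⟩, h⟩

theorem coe_orb (H : Subgroup (Equiv.Perm κ)) (a : κ) : (orb H a : Set κ) = MulAction.orbit H a := by
  rw [orb, Set.Finite.coe_toFinset]

theorem card_orb (H : Subgroup (Equiv.Perm κ)) (a : κ) : (orb H a).card = (MulAction.orbit H a).ncard := by
  rw [← coe_orb, Set.ncard_coe_finset]

theorem orb_inv {H : Subgroup (Equiv.Perm κ)} {a : κ} : ∀ g ∈ H, ∀ i, g i ∈ orb H a ↔ i ∈ orb H a := by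
  intro g hg i
  rw [mem_orb, mem_orb]
  constructor
  · rintro ⟨f, hf, h⟩
    refine ⟨g⁻¹ * f, H.mul_mem (H.inv_mem hg) hf, ?_⟩
    rw [Equiv.Perm.mul_apply, h, Equiv.Perm.inv_def, Equiv.symm_apply_apply]
  · rintro ⟨f, hf, h⟩
    exact ⟨g * f, H.mul_mem hg hf, by rw [Equiv.Perm.mul_apply, h]⟩

theorem orb_tr {H : Subgroup (Equiv.Perm κ)} {a : κ} : ∀ b ∈ orb H a, ∀ c ∈ orb H a, ∃ g ∈ H, g b = c := by
  intro b hb c hc
  obtain ⟨f, hf, h1⟩ := mem_orb.1 hb
  obtain ⟨g, hg, h2⟩ := mem_orb.1 hc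
  refine ⟨g * f⁻¹, H.mul_mem hg (H.inv_mem hf), ?_⟩
  rw [Equiv.Perm.mul_apply, ← h1, Equiv.Perm.inv_def, Equiv.symm_apply_apply, h2]

theorem notMem_orb {H : Subgroup (Equiv.Perm κ)} {a d : κ} (hd : ∀ g ∈ H, g d = d) (h2 : 2 ≤ (orb H a).card) : d ∉ orb H a := by
  intro h
  have h1 : orb H a ⊆ {d} := by
    intro c hc
    obtain ⟨g, hg, h3⟩ := orb_tr d h c hc
    rw [mem_singleton, ← h3, hd g hg]
  have h3 := card_le_card h1
  rw [card_singleton] at h3
  omega

theorem inv_iff {H : Subgroup (Equiv.Perm κ)} {I : Finset κ} (hI : ∀ g ∈ H, ∀ i ∈ I, g i ∈ I) : ∀ g ∈ H, ∀ i, g i ∈ I ↔ i ∈ I := by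
  intro g hg i
  constructor
  · intro h
    have h1 := hI g⁻¹ (H.inv_mem hg) _ h
    rwa [Equiv.Perm.inv_def, Equiv.symm_apply_apply] at h1
  · exact hI g hg i

theorem orb_main {k j : ℕ} {H : Subgroup (Equiv.Perm κ)} {T : Set (Finset (κ → ℝ))} (h : Tri k (H : Set (Equiv.Perm κ)) T)
    {I : Finset κ} {d a : κ} (hI : ∀ g ∈ H, ∀ i ∈ I, g i ∈ I) (hYI : Disjoint (orb H a) I) (hdI : d ∉ I) (hd : ∀ g ∈ H, g d = d)
    (hj : I.card + j = k) (h2 : 2 ≤ j) (h3 : j + 1 ≤ (orb H a).card) :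
    ¬ Nat.Coprime (orb H a).card j ∧ ¬ Nat.Coprime (orb H a).card (j - 1) ∧
      ¬ ∀ b ∈ orb H a, ∀ c ∈ orb H a, ∀ e ∈ orb H a, ∀ f ∈ orb H a, b ≠ c → e ≠ f →
        ∃ g ∈ H, (g b = e ∧ g c = f) ∨ (g b = f ∧ g c = e) :=
  face_fix h hYI (notMem_orb hd (by omega)) hdI hj h2 h3 orb_inv (inv_iff hI) hd orb_tr

/-- the cases `k = 2` and `k = n - 2` -/
theorem orb_two {k : ℕ} {H : Subgroup (Equiv.Perm κ)} {T : Set (Finset (κ → ℝ))} (h : Tri k (H : Set (Equiv.Perm κ)) T)
    (hk : k = 2 ∨ k + 2 = Fintype.card κ) {d : κ} (hd : ∀ g ∈ H, g d = d) (a : κ) : (orb H a).card ≤ 2 := by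
  classical
  by_contra hcon
  push Not at hcon
  have hdY := notMem_orb hd (by omega : 2 ≤ (orb H a).card)
  rcases hk with hk | hk
  · have h1 := orb_main h (I := ∅) (d := d) (a := a) (j := 2) (by simp) (disjoint_empty_right _) (by simp) hd (by simp [hk]) le_rfl
      (by omega)
    exact h1.2.1 (by norm_num)
  · have hXc : (insert d (orb H a)).card = (orb H a).card + 1 := card_insert_of_notMem hdY
    have hle : (insert d (orb H a)).card ≤ Fintype.card κ := card_le_univ _
    have hIc : (insert d (orb H a))ᶜ.card = Fintype.card κ - ((orb H a).card + 1) := by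
      rw [card_compl, hXc]
    have h1 := orb_main h (I := (insert d (orb H a))ᶜ) (d := d) (a := a) (j := (orb H a).card - 1) (by
      intro g hg i hi
      rw [mem_compl, mem_insert, not_or] at hi ⊢
      refine ⟨fun h4 => hi.1 (g.injective (h4.trans (hd g hg).symm)), fun h4 => hi.2 ((orb_inv g hg i).1 h4)⟩) (by
      rw [Finset.disjoint_left]
      intro i hi hi2
      rw [mem_compl, mem_insert, not_or] at hi2
      exact hi2.2 hi) (by
      rw [mem_compl, not_not]
      exact mem_insert_self _ _) hd (by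
      rw [hIc]
      rw [hXc] at hle
      omega) (by omega) (by omega)
    refine h1.1 ?_
    have h4 : (orb H a).card = ((orb H a).card - 1) + 1 := by omega
    rw [h4, Nat.add_sub_cancel]
    exact (Nat.coprime_self_add_right).2 (by norm_num) |>.symm

/-- an invariant set of suitable size -/
theorem exists_inv {k u : ℕ} {H : Subgroup (Equiv.Perm κ)} (hk : 2 ≤ k) (hkn : k + 2 ≤ Fintype.card κ) (hu : 3 ≤ u) (a : κ)
    (hau : (orb H a).card = u) (hmax : ∀ b, (orb H b).card ≤ u) {d1 d2 d3 : κ} (h12 : d1 ≠ d2) (h13 : d1 ≠ d3) (h23 : d2 ≠ d3)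
    (hd1 : ∀ g ∈ H, g d1 = d1) (hd2 : ∀ g ∈ H, g d2 = d2) (hd3 : ∀ g ∈ H, g d3 = d3) :
    ∃ I : Finset κ, (∀ g ∈ H, ∀ i ∈ I, g i ∈ I) ∧ Disjoint (orb H a) I ∧ d1 ∉ I ∧ I.card + 2 ≤ k ∧ k + 1 ≤ I.card + u := by
  classical
  have hY1 := notMem_orb hd1 (by omega : 2 ≤ (orb H a).card)
  have hY2 := notMem_orb hd2 (by omega : 2 ≤ (orb H a).card)
  have hY3 := notMem_orb hd3 (by omega : 2 ≤ (orb H a).card)
  set S : Finset κ := insert d1 (insert d2 (insert d3 (orb H a))) with hS
  have hSc : S.card = u + 3 := by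
    rw [hS, card_insert_of_notMem, card_insert_of_notMem, card_insert_of_notMem hY3, hau]
    · rw [mem_insert, not_or]
      exact ⟨h23, hY2⟩
    · rw [mem_insert, mem_insert, not_or, not_or]
      exact ⟨h12, h13, hY1⟩
  have hSinv : ∀ g ∈ H, ∀ i, g i ∈ S ↔ i ∈ S := by
    have hfix : ∀ g ∈ H, ∀ d, (g d = d) → ∀ i, g i = d ↔ i = d := by
      intro g hg d hgd i
      constructor
      · intro h4
        exact g.injective (h4.trans hgd.symm)
      · rintro rfl
        exact hgd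
    intro g hg i
    rw [hS, mem_insert, mem_insert, mem_insert, mem_insert, mem_insert, mem_insert, hfix g hg d1 (hd1 g hg), hfix g hg d2 (hd2 g hg),
      hfix g hg d3 (hd3 g hg), orb_inv g hg]
  -- the candidates
  set 𝓒 : Finset (Finset κ) := Finset.univ.filter fun I => (∀ g ∈ H, ∀ i ∈ I, g i ∈ I) ∧ Disjoint S I ∧ I.card + 2 ≤ k with h𝓒
  have hne : 𝓒.Nonempty := ⟨∅, mem_filter.2 ⟨mem_univ _, by simp, disjoint_empty_right _, by simpa using hk⟩⟩
  obtain ⟨I, hI, hImax⟩ := Finset.exists_max_image 𝓒 Finset.card hne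
  obtain ⟨-, hI1, hI2, hI3⟩ := mem_filter.1 hI
  have hlow : k ≤ I.card + u + 1 := by
    by_contra hcon
    push Not at hcon
    by_cases hR : S ∪ I = Finset.univ
    · have h4 := card_union_of_disjoint hI2
      rw [hR, card_univ, hSc] at h4
      omega
    · obtain ⟨b, hb⟩ : ∃ b, b ∉ S ∪ I := by
        by_contra hall
        push Not at hall
        exact hR (eq_univ_iff_forall.2 hall)
      rw [mem_union, not_or] at hb
      have hOS : ∀ c ∈ orb H b, c ∉ S ∧ c ∉ I := by
        intro c hc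
        obtain ⟨g, hg, h4⟩ := mem_orb.1 hc
        rw [← h4]
        exact ⟨fun h5 => hb.1 ((hSinv g hg b).1 h5), fun h5 => hb.2 ((inv_iff hI1 g hg b).1 h5)⟩
      have hIO : Disjoint I (orb H b) := by
        rw [Finset.disjoint_left]
        exact fun c hc hc2 => (hOS c hc2).2 hc
      have hbO : b ∈ orb H b := mem_orb.2 ⟨1, H.one_mem, rfl⟩
      have hpos : 0 < (orb H b).card := card_pos.2 ⟨b, hbO⟩
      have h5 := hmax b
      have h6 : I ∪ orb H b ∈ 𝓒 := by
        refine mem_filter.2 ⟨mem_univ _, ?_, ?_, ?_⟩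
        · intro g hg i hi
          rcases mem_union.1 hi with hi | hi
          · exact mem_union_left _ (hI1 g hg i hi)
          · exact mem_union_right _ ((orb_inv g hg i).2 hi)
        · rw [Finset.disjoint_union_right]
          refine ⟨hI2, ?_⟩
          rw [Finset.disjoint_left]
          exact fun c hc hc2 => (hOS c hc2).1 hc
        · rw [card_union_of_disjoint hIO]
          omega
      have h7 := hImax _ h6
      rw [card_union_of_disjoint hIO] at h7
      omega
  have hIS : ∀ i ∈ S, i ∉ I := fun i hi hi2 => Finset.disjoint_left.1 hI2 hi hi2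
  have hd1S : d1 ∈ S := mem_insert_self _ _
  have hd2S : d2 ∈ S := mem_insert_of_mem (mem_insert_self _ _)
  have hd3S : d3 ∈ S := mem_insert_of_mem (mem_insert_of_mem (mem_insert_self _ _))
  have hYS : ∀ i ∈ orb H a, i ∉ I := fun i hi => hIS i (mem_insert_of_mem (mem_insert_of_mem (mem_insert_of_mem hi)))
  have hYI : Disjoint (orb H a) I := Finset.disjoint_left.2 hYS
  by_cases hc1 : k + 1 ≤ I.card + u
  · exact ⟨I, hI1, hYI, hIS d1 hd1S, hI3, hc1⟩
  · by_cases hc2 : k = I.card + u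
    · refine ⟨insert d2 I, ?_, ?_, ?_, ?_, ?_⟩
      · intro g hg i hi
        rcases mem_insert.1 hi with hi | hi
        · rw [hi, hd2 g hg]
          exact mem_insert_self _ _
        · exact mem_insert_of_mem (hI1 g hg i hi)
      · rw [Finset.disjoint_insert_right]
        exact ⟨hY2, hYI⟩
      · rw [mem_insert, not_or]
        exact ⟨h12, hIS d1 hd1S⟩
      · rw [card_insert_of_notMem (hIS d2 hd2S)]
        omega
      · rw [card_insert_of_notMem (hIS d2 hd2S)]
        omega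
    · have hc3 : k = I.card + u + 1 := by omega
      have hd2' : d2 ∉ insert d3 I := by
        rw [mem_insert, not_or]
        exact ⟨h23, hIS d2 hd2S⟩
      refine ⟨insert d2 (insert d3 I), ?_, ?_, ?_, ?_, ?_⟩
      · intro g hg i hi
        rcases mem_insert.1 hi with hi | hi
        · rw [hi, hd2 g hg]
          exact mem_insert_self _ _
        · refine mem_insert_of_mem ?_
          rcases mem_insert.1 hi with hi | hi
          · rw [hi, hd3 g hg]
            exact mem_insert_self _ _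
          · exact mem_insert_of_mem (hI1 g hg i hi)
      · rw [Finset.disjoint_insert_right, Finset.disjoint_insert_right]
        exact ⟨hY2, hY3, hYI⟩
      · rw [mem_insert, mem_insert, not_or, not_or]
        exact ⟨h12, h13, hIS d1 hd1S⟩
      · rw [card_insert_of_notMem hd2', card_insert_of_notMem (hIS d3 hd3S)]
        omega
      · rw [card_insert_of_notMem hd2', card_insert_of_notMem (hIS d3 hd3S)]
        omega

theorem orb_pgroup {k p : ℕ} (hp : p.Prime) {H : Subgroup (Equiv.Perm κ)} (hH : IsPGroup p H) {T : Set (Finset (κ → ℝ))}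
    (h : Tri k (H : Set (Equiv.Perm κ)) T) (hk : 2 ≤ k) (hkn : k + 2 ≤ Fintype.card κ) {d1 d2 d3 : κ} (h12 : d1 ≠ d2)
    (h13 : d1 ≠ d3) (h23 : d2 ≠ d3) (hd1 : ∀ g ∈ H, g d1 = d1) (hd2 : ∀ g ∈ H, g d2 = d2) (hd3 : ∀ g ∈ H, g d3 = d3) (b : κ) :
    (orb H b).card ≤ 2 := by
  classical
  by_contra hcon
  push Not at hcon
  obtain ⟨a, -, hamax⟩ := Finset.exists_max_image (Finset.univ : Finset κ) (fun c => (orb H c).card) ⟨b, mem_univ _⟩
  have hu : 3 ≤ (orb H a).card := by
    have := hamax b (mem_univ _)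
    omega
  obtain ⟨I, hI1, hI2, hI3, hI4, hI5⟩ := exists_inv hk hkn hu a rfl (fun c => hamax c (mem_univ _)) h12 h13 h23 hd1 hd2 hd3
  have h1 := orb_main h (j := k - I.card) hI1 hI2 hI3 hd1 (by omega) (by omega) (by omega)
  have : Fact p.Prime := ⟨hp⟩
  obtain ⟨e, he⟩ := hH.card_orbit a
  have hue : (orb H a).card = p ^ e := by
    rw [card_orb, ← he]
    rfl
  rw [hue] at h1
  by_cases hpj : p ∣ k - I.card
  · refine h1.2.1 (Nat.Coprime.pow_left e ((Nat.Prime.coprime_iff_not_dvd hp).2 fun h4 => ?_))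
    have h5 : p ∣ 1 := by
      have h6 := Nat.dvd_sub hpj h4
      have h7 : k - I.card - (k - I.card - 1) = 1 := by omega
      rwa [h7] at h6
    exact hp.one_lt.ne' (Nat.dvd_one.1 h5)
  · exact h1.1 (Nat.Coprime.pow_left e ((Nat.Prime.coprime_iff_not_dvd hp).2 hpj))

end Pool.Agent.Lib.MP079fc8
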