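import Pool.Agent.Lib.MP_079fc8_co.Orb

/-!
MP_079fc8_co. The orbits of subgroups with many fixed points.
-/

set_option autoImplicit false
set_option linter.unusedSectionVars false

namespace Pool.Agent.Lib.MP079fc8

open Finset

variable {κ : Type} [Fintype κ] [DecidableEq κ]

/-- the common part: `I` is an invariant set off the orbit and the fixed points `D`, `t` fixed points are added -/
theorem orb_add {k t j : ℕ} {H : Subgroup (Equiv.Perm κ)} {T : Set (Finset (κ → ℝ))} (h : Tri k (H : Set (Equiv.Perm κ)) T)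
    {I D : Finset κ} {d a : κ} (hI : ∀ g ∈ H, ∀ i ∈ I, g i ∈ I) (hYI : Disjoint (orb H a) I) (hDI : Disjoint D I)
    (hdD : d ∈ D) (hD : ∀ d ∈ D, ∀ g ∈ H, g d = d) (ht : t + 1 ≤ D.card) (h2 : 2 ≤ j) (h3 : j + 1 ≤ (orb H a).card)
    (hj : I.card + t + j = k) (hco : Nat.Coprime (orb H a).card j ∨ Nat.Coprime (orb H a).card (j - 1)) : False := by
  classical
  obtain ⟨E, hE, hEc⟩ := Finset.exists_subset_card_eq (s := D.erase d) (n := t) (by
    rw [card_erase_of_mem hdD]
    omega)
  have hED : E ⊆ D := hE.trans (erase_subset _ _)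
  have hIE : Disjoint I E := (hDI.mono_left hED).symm
  have hcard : (I ∪ E).card = I.card + t := by rw [card_union_of_disjoint hIE, hEc]
  have hinv : ∀ g ∈ H, ∀ i ∈ I ∪ E, g i ∈ I ∪ E := by
    intro g hg i hi
    rcases mem_union.1 hi with hi | hi
    · exact mem_union_left _ (hI g hg i hi)
    · rw [hD i (hED hi) g hg]
      exact mem_union_right _ hi
  have hdis : Disjoint (orb H a) (I ∪ E) := by
    rw [Finset.disjoint_union_right]
    refine ⟨hYI, ?_⟩
    rw [Finset.disjoint_left]
    intro i hi hi2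
    exact notMem_orb (hD i (hED hi2)) (by omega) hi
  have hdI : d ∉ I ∪ E := by
    rw [mem_union, not_or]
    exact ⟨fun h1 => Finset.disjoint_left.1 hDI hdD h1, fun h1 => notMem_erase d D (hE h1)⟩
  have h1 := orb_main h (j := j) hinv hdis hdI (hD d hdD) (by omega) h2 h3
  rcases hco with hco | hco
  · exact h1.1 hco
  · exact h1.2.1 hco

theorem cop_pred {u : ℕ} (hu : 3 ≤ u) : Nat.Coprime u (u - 1) := by
  have h4 : u = (u - 1) + 1 := by omega
  conv_lhs => rw [h4]
  exact (Nat.coprime_self_add_right).2 (by norm_num) |>.symm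

/-- at least `k - 1` fixed points -/
theorem orb_k {k : ℕ} {H : Subgroup (Equiv.Perm κ)} {T : Set (Finset (κ → ℝ))} (h : Tri k (H : Set (Equiv.Perm κ)) T)
    (hk : 2 ≤ k) {D : Finset κ} (hD : ∀ d ∈ D, ∀ g ∈ H, g d = d) (hf : k ≤ D.card + 1) (a : κ) : (orb H a).card ≤ 2 := by
  by_contra hcon
  push Not at hcon
  obtain ⟨d, hd⟩ : D.Nonempty := card_pos.1 (by omega)
  exact orb_add h (I := ∅) (t := k - 2) (j := 2) (by simp) (disjoint_empty_right _) (disjoint_empty_right _) hd hD (by omega)
    le_rfl hcon (by rw [card_empty]; omega) (Or.inr (by norm_num))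

/-- at least `n - k - 1` fixed points -/
theorem orb_nk {k : ℕ} {H : Subgroup (Equiv.Perm κ)} {T : Set (Finset (κ → ℝ))} (h : Tri k (H : Set (Equiv.Perm κ)) T)
    (hkn : k + 2 ≤ Fintype.card κ) {D : Finset κ} (hD : ∀ d ∈ D, ∀ g ∈ H, g d = d) (hf : Fintype.card κ ≤ D.card + k + 1)
    (a : κ) : (orb H a).card ≤ 2 := by
  classical
  by_contra hcon
  push Not at hcon
  obtain ⟨D', hD', hD'c⟩ := Finset.exists_subset_card_eq (s := D) (n := Fintype.card κ - k - 1) (by omega)
  obtain ⟨d, hd⟩ : D'.Nonempty := card_pos.1 (by omega)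
  have hDY : Disjoint D' (orb H a) := by
    rw [Finset.disjoint_left]
    intro i hi hi2
    exact notMem_orb (hD i (hD' hi)) (by omega) hi2
  have hc : (D' ∪ orb H a).card = D'.card + (orb H a).card := card_union_of_disjoint hDY
  have hle : (D' ∪ orb H a).card ≤ Fintype.card κ := card_le_univ _
  refine orb_add h (I := (D' ∪ orb H a)ᶜ) (D := D') (t := 0) (j := (orb H a).card - 1) ?_ ?_ ?_ hd
    (fun i hi => hD i (hD' hi)) (by omega) (by omega) (by omega) ?_ (Or.inl (cop_pred hcon))
  · intro g hg i hi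
    rw [mem_compl, mem_union, not_or] at hi ⊢
    refine ⟨fun h4 => hi.1 ?_, fun h4 => hi.2 ((orb_inv g hg i).1 h4)⟩
    have h5 : g (g i) = g i := hD _ (hD' h4) g hg
    rwa [g.injective h5] at h4
  · rw [Finset.disjoint_left]
    intro i hi hi2
    rw [mem_compl, mem_union, not_or] at hi2
    exact hi2.2 hi
  · rw [Finset.disjoint_left]
    intro i hi hi2
    rw [mem_compl, mem_union, not_or] at hi2
    exact hi2.1 hi
  · rw [card_compl, hc]
    omega

/-- at least three fixed points; the longest orbit -/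
theorem orb_win {k : ℕ} {H : Subgroup (Equiv.Perm κ)} {T : Set (Finset (κ → ℝ))} (h : Tri k (H : Set (Equiv.Perm κ)) T)
    (hk : 2 ≤ k) (hkn : k + 2 ≤ Fintype.card κ) {D : Finset κ} (hD : ∀ d, d ∈ D ↔ ∀ g ∈ H, g d = d) (hf : 3 ≤ D.card)
    (a : κ) (hamax : ∀ b, (orb H b).card ≤ (orb H a).card)
    (hwin : ∀ x, ∃ c, x ≤ c ∧ c ≤ x + D.card ∧ Nat.Coprime (orb H a).card c) : (orb H a).card ≤ 2 := by
  classical
  by_contra hcon
  push Not at hcon
  have hu : 3 ≤ (orb H a).card := hcon
  set u := (orb H a).card with hudef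
  obtain ⟨d, hd⟩ : D.Nonempty := card_pos.1 (by omega)
  have hDY : Disjoint D (orb H a) := by
    rw [Finset.disjoint_left]
    intro i hi hi2
    exact notMem_orb ((hD i).1 hi) (by omega) hi2
  set S : Finset κ := D ∪ orb H a with hS
  have hSc : S.card = D.card + u := card_union_of_disjoint hDY
  have hSinv : ∀ g ∈ H, ∀ i, g i ∈ S ↔ i ∈ S := by
    intro g hg i
    rw [hS, mem_union, mem_union, orb_inv g hg]
    constructor
    · rintro (h4 | h4)
      · have h5 : g (g i) = g i := (hD _).1 h4 g hg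
        rw [g.injective h5] at h4
        exact Or.inl h4
      · exact Or.inr h4
    · rintro (h4 | h4)
      · rw [(hD _).1 h4 g hg]
        exact Or.inl h4
      · exact Or.inr h4
  set 𝓒 : Finset (Finset κ) := Finset.univ.filter fun I => (∀ g ∈ H, ∀ i ∈ I, g i ∈ I) ∧ Disjoint S I ∧ I.card + 2 ≤ k with h𝓒
  have hne : 𝓒.Nonempty := ⟨∅, mem_filter.2 ⟨mem_univ _, by simp, disjoint_empty_right _, by simpa using hk⟩⟩
  obtain ⟨I, hI, hImax⟩ := Finset.exists_max_image 𝓒 Finset.card hne
  obtain ⟨-, hI1, hI2, hI3⟩ := mem_filter.1 hI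
  have hlow : k ≤ I.card + u + 1 ∨ Fintype.card κ = D.card + u + I.card := by
    by_cases hR : S ∪ I = Finset.univ
    · right
      have h4 := card_union_of_disjoint hI2
      rw [hR, card_univ, hSc] at h4
      omega
    · left
      by_contra hcon2
      push Not at hcon2
      obtain ⟨b, hb⟩ : ∃ b, b ∉ S ∪ I := by
        by_contra hall
        push Not at hall
        exact hR (eq_univ_iff_forall.2 hall)
      rw [mem_union, not_or] at hb
      have hOS : ∀ c ∈ orb H b, c ∉ S ∧ c ∉ I := by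
        intro c hc
        obtain ⟨g, hg, h4⟩ := mem_orb.1 hc
        rw [← h4]
        exact ⟨fun h5 => hb.1 ((hSinv g hg b).1 h5), fun h5 => hb.2 ((inv_iff hI1 g hg b).1 h5)⟩
      have hIO : Disjoint I (orb H b) := by
        rw [Finset.disjoint_left]
        exact fun c hc hc2 => (hOS c hc2).2 hc
      have hbO : b ∈ orb H b := mem_orb.2 ⟨1, H.one_mem, rfl⟩
      have hpos : 0 < (orb H b).card := card_pos.2 ⟨b, hbO⟩
      have h5 : (orb H b).card ≤ u := hamax b
      have h6 : I ∪ orb H b ∈ 𝓒 := by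
        refine mem_filter.2 ⟨mem_univ _, ?_, ?_, ?_⟩
        · intro g hg i hi
          rcases mem_union.1 hi with hi | hi
          · exact mem_union_left _ (hI1 g hg i hi)
          · exact mem_union_right _ ((orb_inv g hg i).2 hi)
        · rw [Finset.disjoint_union_right]
          refine ⟨hI2, ?_⟩
          rw [Finset.disjoint_left]
          exact fun c hc hc2 => (hOS c hc2).1 hc
        · rw [card_union_of_disjoint hIO]
          omega
      have h7 := hImax _ h6
      rw [card_union_of_disjoint hIO] at h7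
      omega
  have hYI : Disjoint (orb H a) I := hI2.mono_left subset_union_right
  have hDI : Disjoint D I := hI2.mono_left subset_union_left
  have hD' : ∀ d ∈ D, ∀ g ∈ H, g d = d := fun d hd => (hD d).1 hd
  rcases Nat.lt_or_ge k (I.card + u - 1) with h4 | h4
  · rcases Nat.lt_or_ge (k - I.card) (D.card + 2) with h5 | h5
    · exact orb_add h (t := k - I.card - 2) (j := 2) hI1 hYI hDI hd hD' (by omega) le_rfl (by omega) (by omega)
        (Or.inr (by norm_num))
    · obtain ⟨c, hc1, hc2, hc3⟩ := hwin (k - I.card - D.card)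
      rcases Nat.lt_or_ge (k - I.card - D.card) c with h6 | h6
      · exact orb_add h (t := k - I.card - c) (j := c) hI1 hYI hDI hd hD' (by omega) (by omega) (by omega) (by omega)
          (Or.inl hc3)
      · exact orb_add h (t := D.card - 1) (j := c + 1) hI1 hYI hDI hd hD' (by omega) (by omega) (by omega) (by omega)
          (Or.inr (by rwa [Nat.add_sub_cancel]))
  · exact orb_add h (t := k + 1 - I.card - u) (j := u - 1) hI1 hYI hDI hd hD' (by omega) (by omega) (by omega) (by omega)
      (Or.inl (cop_pred hu))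

/-- four consecutive integers and two primes -/
theorem four_consec {u p q : ℕ} (hp : p.Prime) (hq : q.Prime) (h : ∀ r, r.Prime → r ∣ u → r = p ∨ r = q) (x : ℕ) :
    ∃ c, x ≤ c ∧ c ≤ x + 3 ∧ Nat.Coprime u c := by
  by_contra hcon
  push Not at hcon
  have key : ∀ c, x ≤ c → c ≤ x + 3 → p ∣ c ∨ q ∣ c := by
    intro c h1 h2
    obtain ⟨r, hr, hru, hrc⟩ := Nat.Prime.not_coprime_iff_dvd.1 (hcon c h1 h2)
    rcases h r hr hru with rfl | rfl
    · exact Or.inl hrc
    · exact Or.inr hrc
  have hone : ∀ r : ℕ, r.Prime → ∀ c, r ∣ c → ¬ r ∣ c + 1 := by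
    intro r hr c h1 h2
    have h3 : r ∣ 1 := (Nat.dvd_add_right h1).1 h2
    exact hr.one_lt.ne' (Nat.dvd_one.1 h3)
  have main : ∀ A B : ℕ, A.Prime → B.Prime → (∀ c, x ≤ c → c ≤ x + 3 → A ∣ c ∨ B ∣ c) → A ∣ x → False := by
    intro A B hA hB hAB h0
    have h1 : B ∣ x + 1 := (hAB (x + 1) (by omega) (by omega)).resolve_left (hone A hA x h0)
    have h2 : A ∣ x + 2 := (hAB (x + 2) (by omega) (by omega)).resolve_right (hone B hB (x + 1) h1)
    have h3 : A ∣ 2 := (Nat.dvd_add_right h0).1 h2
    have h4 : B ∣ x + 3 := (hAB (x + 3) (by omega) (by omega)).resolve_left (hone A hA (x + 2) h2)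
    have h5 : B ∣ 2 := by
      have h6 : x + 3 = (x + 1) + 2 := by omega
      rw [h6] at h4
      exact (Nat.dvd_add_right h1).1 h4
    have h6 : A = 2 := (Nat.prime_dvd_prime_iff_eq hA Nat.prime_two).1 h3
    have h7 : B = 2 := (Nat.prime_dvd_prime_iff_eq hB Nat.prime_two).1 h5
    rw [h6] at h0
    rw [h7] at h1
    exact hone 2 Nat.prime_two x h0 h1
  rcases key x le_rfl (by omega) with h0 | h0
  · exact main p q hp hq key h0
  · exact main q p hq hp (fun c h1 h2 => (key c h1 h2).symm) h0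

/-- the length of an orbit divides the order of the group -/
theorem orb_dvd (H : Subgroup (Equiv.Perm κ)) (a : κ) : (orb H a).card ∣ Nat.card H := by
  rw [card_orb, ← MulAction.index_stabilizer]
  exact Subgroup.index_dvd_card _

/-- at most two primes divide the order of the group -/
theorem orb_pq {k p q : ℕ} {H : Subgroup (Equiv.Perm κ)} {T : Set (Finset (κ → ℝ))} (h : Tri k (H : Set (Equiv.Perm κ)) T)
    (hk : 2 ≤ k) (hkn : k + 2 ≤ Fintype.card κ) {D : Finset κ} (hD : ∀ d, d ∈ D ↔ ∀ g ∈ H, g d = d) (hf : 3 ≤ D.card)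
    (hp : p.Prime) (hq : q.Prime) (hpq : ∀ r, r.Prime → r ∣ Nat.card H → r = p ∨ r = q) (b : κ) : (orb H b).card ≤ 2 := by
  classical
  obtain ⟨a, -, hamax⟩ := Finset.exists_max_image (Finset.univ : Finset κ) (fun c => (orb H c).card) ⟨b, mem_univ _⟩
  refine (hamax b (mem_univ _)).trans (orb_win h hk hkn hD hf a (fun c => hamax c (mem_univ _)) fun x => ?_)
  obtain ⟨c, h1, h2, h3⟩ := four_consec hp hq (fun r hr hru => hpq r hr (hru.trans (orb_dvd H a))) x
  exact ⟨c, h1, by omega, h3⟩

end Pool.Agent.Lib.MP079fc8
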