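import Pool.Agent.Lib.MP_079fc8_co.Orb2

/-!
MP_079fc8_co. Pointwise stabilisers of one, two, three indices.
-/

set_option autoImplicit false
set_option linter.unusedSectionVars false

namespace Pool.Agent.Lib.MP079fc8

open Finset

variable {κ : Type} [Fintype κ] [DecidableEq κ]

/-- the fixed points -/
noncomputable def fx (H : Subgroup (Equiv.Perm κ)) : Finset κ := (Set.toFinite {d | ∀ g ∈ H, g d = d}).toFinset

theorem mem_fx {H : Subgroup (Equiv.Perm κ)} {d : κ} : d ∈ fx H ↔ ∀ g ∈ H, g d = d := by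
  rw [fx, Set.Finite.mem_toFinset]
  rfl

theorem fx_mono {H H' : Subgroup (Equiv.Perm κ)} (h : H' ≤ H) : fx H ⊆ fx H' := fun d hd =>
  mem_fx.2 fun g hg => mem_fx.1 hd g (h hg)

theorem Tri.mono {k : ℕ} {G G' : Set (Equiv.Perm κ)} {T : Set (Finset (κ → ℝ))} (h : Tri k G T) (hG : G' ⊆ G) : Tri k G' T :=
  ⟨h.vtx, h.sum, h.li, h.down, h.inter, h.cover, fun g hg => h.inv g (hG hg)⟩

/-- an element of prime order `p`: orbits -/
theorem orb_prime {p : ℕ} (hp : p.Prime) {g : Equiv.Perm κ} (hg : orderOf g = p) (a : κ) :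
    a ∈ fx (Subgroup.zpowers g) ∨ (orb (Subgroup.zpowers g) a).card = p := by
  have h1 : (orb (Subgroup.zpowers g) a).card ∣ p := by
    have h2 := orb_dvd (Subgroup.zpowers g) a
    rwa [Nat.card_zpowers, hg] at h2
  rcases (Nat.dvd_prime hp).1 h1 with h2 | h2
  · left
    obtain ⟨b, hb⟩ := card_eq_one.1 h2
    rw [mem_fx]
    intro f hf
    have h3 : f a ∈ orb (Subgroup.zpowers g) a := mem_orb.2 ⟨f, hf, rfl⟩
    have h4 : a ∈ orb (Subgroup.zpowers g) a := mem_orb.2 ⟨1, Subgroup.one_mem _, rfl⟩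
    rw [hb, mem_singleton] at h3 h4
    rw [h3, h4]
  · exact Or.inr h2

theorem exists_moved {p : ℕ} (hp : p.Prime) {g : Equiv.Perm κ} (hg : orderOf g = p) :
    ∃ a, (orb (Subgroup.zpowers g) a).card = p := by
  by_contra hcon
  push Not at hcon
  have h1 : g = 1 := by
    ext a
    rcases orb_prime hp hg a with h2 | h2
    · exact mem_fx.1 h2 g (Subgroup.mem_zpowers g)
    · exact absurd h2 (hcon a)
  rw [h1, orderOf_one] at hg
  exact hp.one_lt.ne hg

/-- an element of odd prime order fixes at most two indices -/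
theorem fx_le {k p : ℕ} (hp : p.Prime) (hp2 : p ≠ 2) {g : Equiv.Perm κ} (hg : orderOf g = p) {T : Set (Finset (κ → ℝ))}
    (h : Tri k (Subgroup.zpowers g : Set (Equiv.Perm κ)) T) (hk : 2 ≤ k) (hkn : k + 2 ≤ Fintype.card κ) :
    (fx (Subgroup.zpowers g)).card ≤ 2 := by
  by_contra hcon
  push Not at hcon
  obtain ⟨a, ha⟩ := exists_moved hp hg
  have h1 := orb_pq h hk hkn (fun d => mem_fx) hcon hp hp (fun r hr hrd => by
    rw [Nat.card_zpowers, hg] at hrd
    exact Or.inl ((Nat.prime_dvd_prime_iff_eq hr hp).1 hrd)) a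
  have := hp.two_le
  omega

/-- at least three fixed points -/
theorem orb_three {k : ℕ} {H : Subgroup (Equiv.Perm κ)} {T : Set (Finset (κ → ℝ))} (h : Tri k (H : Set (Equiv.Perm κ)) T)
    (hk : 2 ≤ k) (hkn : k + 2 ≤ Fintype.card κ) (hf : 3 ≤ (fx H).card) (b : κ) : (orb H b).card ≤ 2 := by
  refine orb_pq h hk hkn (fun d => mem_fx) hf Nat.prime_two Nat.prime_two (fun r hr hrd => ?_) b
  left
  by_contra hr2
  have : Fact r.Prime := ⟨hr⟩
  obtain ⟨g, hg⟩ := exists_prime_orderOf_dvd_card' (G := H) r hrd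
  have hg' : orderOf (g : Equiv.Perm κ) = r := by rw [Subgroup.orderOf_coe, hg]
  have hle : Subgroup.zpowers (g : Equiv.Perm κ) ≤ H := by
    rw [Subgroup.zpowers_le]
    exact g.2
  have h1 := fx_le hr hr2 hg' (h.mono hle) hk hkn
  have h2 := card_le_card (fx_mono hle)
  omega

/-- invariant sets which are unions of `m` orbits of length `p` -/
theorem exists_mult {p : ℕ} {H : Subgroup (Equiv.Perm κ)} (hH : ∀ a, a ∈ fx H ∨ (orb H a).card = p) (a : κ)
    (ha : (orb H a).card = p) (m : ℕ) (hm : (m + 1) * p + (fx H).card ≤ Fintype.card κ) :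
    ∃ I : Finset κ, (∀ g ∈ H, ∀ i ∈ I, g i ∈ I) ∧ Disjoint (orb H a) I ∧ Disjoint (fx H) I ∧ I.card = m * p := by
  classical
  induction m with
  | zero => exact ⟨∅, by simp, disjoint_empty_right _, disjoint_empty_right _, by simp⟩
  | succ m ih =>
    obtain ⟨I, hI1, hI2, hI3, hI4⟩ := ih (by
      rw [Nat.add_mul, Nat.one_mul] at hm
      omega)
    rcases Nat.eq_zero_or_pos p with hp0 | hp0
    · exact ⟨I, hI1, hI2, hI3, by rw [hI4, hp0, mul_zero, mul_zero]⟩
    have hlt : ((orb H a ∪ fx H) ∪ I).card < Fintype.card κ := by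
      have h1 := card_union_le (orb H a ∪ fx H) I
      have h2 := card_union_le (orb H a) (fx H)
      have h3 : (m + 1 + 1) * p = m * p + p + p := by ring
      omega
    obtain ⟨b, hb⟩ : ∃ b, b ∉ (orb H a ∪ fx H) ∪ I := by
      by_contra hall
      push Not at hall
      rw [eq_univ_iff_forall.2 hall, card_univ] at hlt
      exact lt_irrefl _ hlt
    rw [mem_union, mem_union, not_or, not_or] at hb
    obtain ⟨⟨hb1, hb2⟩, hb3⟩ := hb
    have hO : ∀ c ∈ orb H b, c ∉ orb H a ∧ c ∉ fx H ∧ c ∉ I := by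
      intro c hc
      obtain ⟨g, hg, h4⟩ := mem_orb.1 hc
      rw [← h4]
      refine ⟨fun h5 => hb1 ((orb_inv g hg b).1 h5), fun h5 => hb2 ?_, fun h5 => hb3 ((inv_iff hI1 g hg b).1 h5)⟩
      have h6 : g (g b) = g b := mem_fx.1 h5 g hg
      rwa [g.injective h6] at h5
    have hIO : Disjoint I (orb H b) := by
      rw [Finset.disjoint_left]
      exact fun c hc hc2 => (hO c hc2).2.2 hc
    refine ⟨I ∪ orb H b, ?_, ?_, ?_, ?_⟩
    · intro g hg i hi
      rcases mem_union.1 hi with hi | hi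
      · exact mem_union_left _ (hI1 g hg i hi)
      · exact mem_union_right _ ((orb_inv g hg i).2 hi)
    · rw [Finset.disjoint_union_right]
      refine ⟨hI2, ?_⟩
      rw [Finset.disjoint_left]
      exact fun c hc hc2 => (hO c hc2).1 hc
    · rw [Finset.disjoint_union_right]
      refine ⟨hI3, ?_⟩
      rw [Finset.disjoint_left]
      exact fun c hc hc2 => (hO c hc2).2.1 hc
    · rw [card_union_of_disjoint hIO, hI4, (hH b).resolve_left hb2]
      ring

/-- an element of odd prime order with one or two fixed indices -/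
theorem fx_mod {k p : ℕ} (hp : p.Prime) (hp2 : p ≠ 2) {g : Equiv.Perm κ} (hg : orderOf g = p) {T : Set (Finset (κ → ℝ))}
    (h : Tri k (Subgroup.zpowers g : Set (Equiv.Perm κ)) T) (hk : 2 ≤ k) (hkn : k + 2 ≤ Fintype.card κ) :
    ((fx (Subgroup.zpowers g)).card = 1 → p ∣ Fintype.card κ - 1 ∧ (p ∣ k ∨ p ∣ k - 1)) ∧
      ((fx (Subgroup.zpowers g)).card = 2 → p ∣ Fintype.card κ - 2 ∧ p ∣ k - 1) := by
  classical
  set H := Subgroup.zpowers g with hH
  have hp3 : 3 ≤ p := by
    have := hp.two_le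
    omega
  have hFact : Fact p.Prime := ⟨hp⟩
  have hmod : p ∣ Fintype.card κ - (fx H).card := by
    have hPG : IsPGroup p H := IsPGroup.of_card (n := 1) (by rw [hH, Nat.card_zpowers, hg, pow_one])
    have h1 := hPG.card_modEq_card_fixedPoints κ
    have h2 : Nat.card (MulAction.fixedPoints H κ) = (fx H).card := by
      rw [← Set.ncard_coe_finset]
      have h3 : ((fx H : Finset κ) : Set κ) = MulAction.fixedPoints H κ := by
        ext d
        rw [mem_coe, mem_fx, MulAction.mem_fixedPoints]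
        exact ⟨fun h4 m => h4 m m.2, fun h4 m hm => h4 ⟨m, hm⟩⟩
      rw [h3]
      exact Nat.card_coe_set_eq _
    rw [h2, Nat.card_eq_fintype_card] at h1
    exact (Nat.modEq_iff_dvd' (card_le_univ _)).1 h1.symm
  have hf2 : (fx H).card ≤ 2 := fx_le hp hp2 hg h hk hkn
  obtain ⟨a, ha⟩ := exists_moved hp hg
  have hall : ∀ b, b ∈ fx H ∨ (orb H b).card = p := fun b => orb_prime hp hg b
  have hfix : ∀ d ∈ fx H, ∀ g ∈ H, g d = d := fun d hd => mem_fx.1 hd
  have hcopj : ∀ j, 1 ≤ j → j < p → Nat.Coprime p j := fun j h1 h2 =>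
    (Nat.Prime.coprime_iff_not_dvd hp).2 fun h3 => absurd (Nat.le_of_dvd (by omega) h3) (by omega)
  obtain ⟨c, hc⟩ := hmod
  have hfn : (fx H).card ≤ Fintype.card κ := card_le_univ _
  have hkd : p * (k / p) + k % p = k := Nat.div_add_mod k p
  have hkm : k % p < p := Nat.mod_lt _ hp.pos
  -- the case of a residue between `2` and `p - 1`
  have hres : 2 ≤ k % p → 1 ≤ (fx H).card → False := by
    intro h2 h3
    obtain ⟨d, hd⟩ : (fx H).Nonempty := card_pos.1 (by omega)
    have hlt : k / p < c := by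
      by_contra hcon
      push Not at hcon
      have := Nat.mul_le_mul_left p hcon
      omega
    obtain ⟨I, hI1, hI2, hI3, hI4⟩ := exists_mult hall a ha (k / p) (by
      have h4 : p * (k / p + 1) ≤ p * c := Nat.mul_le_mul_left p hlt
      have h5 : (k / p + 1) * p = p * (k / p + 1) := mul_comm _ _
      rw [h5]
      omega)
    exact orb_add h (t := 0) (j := k % p) hI1 hI2 hI3 hd hfix (by omega) h2 (by rw [ha]; omega) (by
      rw [hI4, mul_comm]
      omega) (Or.inl (by rw [ha]; exact hcopj _ (by omega) hkm))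
  constructor
  · intro hf
    refine ⟨⟨c, by rw [← hc, hf]⟩, ?_⟩
    rcases Nat.lt_or_ge (k % p) 2 with h2 | h2
    · have h3 : k % p = 0 ∨ k % p = 1 := by omega
      rcases h3 with h3 | h3
      · exact Or.inl (Nat.dvd_of_mod_eq_zero h3)
      · exact Or.inr ⟨k / p, by omega⟩
    · exact absurd (hres h2 (by omega)) id
  · intro hf
    refine ⟨⟨c, by rw [← hc, hf]⟩, ?_⟩
    rcases Nat.lt_or_ge (k % p) 2 with h2 | h2
    · have h3 : k % p = 0 ∨ k % p = 1 := by omega
      rcases h3 with h3 | h3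
      · exfalso
        obtain ⟨d, hd⟩ : (fx H).Nonempty := card_pos.1 (by omega)
        have hk0 : 0 < k / p := by
          rcases Nat.eq_zero_or_pos (k / p) with h4 | h4
          · rw [h4, mul_zero] at hkd
            omega
          · exact h4
        have hle : k / p ≤ c := by
          by_contra hcon
          push Not at hcon
          have h5 : p * (c + 1) ≤ p * (k / p) := Nat.mul_le_mul_left p hcon
          have h6 : p * (c + 1) = p * c + p := by ring
          rw [h6] at h5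
          omega
        obtain ⟨m, hm⟩ : ∃ m, k / p = m + 1 := ⟨k / p - 1, by omega⟩
        obtain ⟨I, hI1, hI2, hI3, hI4⟩ := exists_mult hall a ha m (by
          have h4 := Nat.mul_le_mul_left p hle
          rw [← hm, mul_comm (k / p) p]
          omega)
        have hpm : p * (m + 1) = m * p + p := by ring
        rw [hm] at hkd
        exact orb_add h (t := 1) (j := p - 1) hI1 hI2 hI3 hd hfix (by omega) (by omega) (by rw [ha]; omega) (by
          rw [hI4]
          omega) (Or.inl (by rw [ha]; exact hcopj _ (by omega) (by omega)))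
      · exact ⟨k / p, by omega⟩
    · exact absurd (hres h2 (by omega)) id

/-- the primes dividing the order of a subgroup with fixed indices -/
theorem primes_of {k p : ℕ} (hp : p.Prime) (hp2 : p ≠ 2) {H : Subgroup (Equiv.Perm κ)} {T : Set (Finset (κ → ℝ))}
    (h : Tri k (H : Set (Equiv.Perm κ)) T) (hk : 2 ≤ k) (hkn : k + 2 ≤ Fintype.card κ) (hpH : p ∣ Nat.card H)
    (hf : 1 ≤ (fx H).card) :
    (p ∣ Fintype.card κ - 2 ∧ p ∣ k - 1) ∨ ((fx H).card = 1 ∧ p ∣ Fintype.card κ - 1 ∧ (p ∣ k ∨ p ∣ k - 1)) := by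
  have : Fact p.Prime := ⟨hp⟩
  obtain ⟨g, hg⟩ := exists_prime_orderOf_dvd_card' (G := H) p hpH
  have hg' : orderOf (g : Equiv.Perm κ) = p := by rw [Subgroup.orderOf_coe, hg]
  have hle : Subgroup.zpowers (g : Equiv.Perm κ) ≤ H := by
    rw [Subgroup.zpowers_le]
    exact g.2
  have h1 := fx_le hp hp2 hg' (h.mono hle) hk hkn
  have h2 := card_le_card (fx_mono hle)
  obtain ⟨h3, h4⟩ := fx_mod hp hp2 hg' (h.mono hle) hk hkn
  have h5 : (fx (Subgroup.zpowers (g : Equiv.Perm κ))).card = 1 ∨ (fx (Subgroup.zpowers (g : Equiv.Perm κ))).card = 2 := by omega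
  rcases h5 with h5 | h5
  · exact Or.inr ⟨by omega, h3 h5⟩
  · exact Or.inl (h4 h5)

end Pool.Agent.Lib.MP079fc8
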