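import Pool.Agent.Lib.MP_079fc8_co.FixPt

/-!
MP_079fc8_co. Groups with a fixed point which are transitive on the rest.
-/

set_option autoImplicit false
set_option linter.unusedSectionVars false

namespace Pool.Agent.Lib.MP079fc8

open Finset

variable {ι : Type} [Fintype ι] [DecidableEq ι]
variable {k : ℕ} {G : Set (Equiv.Perm ι)} {T : Set (Finset (ι → ℝ))}

/-- an invariant family of 0/1 vectors with `m` ones off `d`: the number of points off `d` divides `m` times the size -/
theorem dvd_family (F : Finset (ι → ℝ)) (hv : ∀ x ∈ F, ∀ i, x i = 0 ∨ x i = 1) (d : ι) (m : ℕ)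
    (hs : ∀ x ∈ F, ∑ i ∈ Finset.univ.erase d, x i = (m : ℝ)) (hF : ∀ g ∈ G, F.image (pm g) = F)
    (htr : ∀ a b : ι, a ≠ d → b ≠ d → ∃ g ∈ G, g a = b) (a : ι) (ha : a ≠ d) :
    Fintype.card ι - 1 ∣ m * F.card := by
  classical
  have hR : ∀ b, b ≠ d → ∑ x ∈ F, x b = ∑ x ∈ F, x a := by
    intro b hb
    obtain ⟨g, hg, h1⟩ := htr b a hb ha
    rw [← sum_inv (hF g hg) (fun x => x a)]
    refine Finset.sum_congr rfl fun x _ => ?_
    rw [pm_apply, ← h1, Equiv.symm_apply_apply]
  obtain ⟨r, hr⟩ : ∃ r : ℕ, ∑ x ∈ F, x a = (r : ℝ) := by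
    refine ⟨(F.filter fun x => x a = 1).card, ?_⟩
    rw [← Finset.sum_boole]
    refine Finset.sum_congr rfl fun x hx => ?_
    rcases hv x hx a with h1 | h1 <;> simp [h1]
  have h1 : ∑ i ∈ Finset.univ.erase d, ∑ x ∈ F, x i = ((Fintype.card ι - 1 : ℕ) : ℝ) * r := by
    rw [Finset.sum_congr rfl (fun i hi => (hR i (Finset.ne_of_mem_erase hi)).trans hr), Finset.sum_const,
      Finset.card_erase_of_mem (Finset.mem_univ d), Finset.card_univ, nsmul_eq_mul]
  rw [Finset.sum_comm, Finset.sum_congr rfl hs, Finset.sum_const, nsmul_eq_mul] at h1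
  refine ⟨r, ?_⟩
  have h2 : ((m * F.card : ℕ) : ℝ) = (((Fintype.card ι - 1) * r : ℕ) : ℝ) := by
    rw [Nat.cast_mul, Nat.cast_mul, ← h1]
    ring
  exact_mod_cast h2

theorem no_pfix (h : Tri k G T) (hk : 2 ≤ k) (hkn : k + 2 ≤ Fintype.card ι) (d : ι) (hd : ∀ g ∈ G, g d = d)
    (htr : ∀ a b : ι, a ≠ d → b ≠ d → ∃ g ∈ G, g a = b)
    (hco : Nat.Coprime (Fintype.card ι - 1) k ∨ Nat.Coprime (Fintype.card ι - 1) (k - 1)) : False := by
  classical
  set n : ℕ := Fintype.card ι with hn
  have hkn' : (k : ℝ) + 2 ≤ n := by exact_mod_cast hkn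
  have hk' : (2 : ℝ) ≤ k := by exact_mod_cast hk
  set u : ℝ := (n : ℝ) - 1 with hu
  have hu0 : 0 < u := by linarith
  obtain ⟨a, ha⟩ : ∃ a, a ≠ d := by
    have hnt : Nontrivial ι := Fintype.one_lt_card_iff_nontrivial.1 (by omega)
    exact exists_ne d
  set c : ℝ → ι → ℝ := fun ε i => if i = d then ε else (k - ε) / u with hc
  have hcc : Continuous c := by
    refine continuous_pi fun i => ?_
    rw [hc]
    by_cases hi : i = d
    · simp only [if_pos hi]
      exact continuous_id
    · simp only [if_neg hi]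
      fun_prop
  have hcube : ∀ ε : ℝ, 0 ≤ ε → ε ≤ 1 → ∀ i, 0 ≤ c ε i ∧ c ε i ≤ 1 := by
    intro ε hε0 hε1 i
    rw [hc]
    by_cases hi : i = d
    · simp only [if_pos hi]
      exact ⟨hε0, hε1⟩
    · simp only [if_neg hi]
      exact ⟨div_nonneg (by linarith) hu0.le, by rw [div_le_one hu0]; linarith⟩
  have hcsum : ∀ ε : ℝ, ∑ i, c ε i = (k : ℝ) := by
    intro ε
    rw [← Finset.add_sum_erase Finset.univ _ (Finset.mem_univ d), hc]
    have h1 : ∑ x ∈ Finset.univ.erase d, (fun (ε : ℝ) i => if i = d then ε else (k - ε) / u) ε x = u * ((k - ε) / u) := by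
      rw [Finset.sum_congr rfl (fun i hi => if_neg (Finset.ne_of_mem_erase hi)), Finset.sum_const,
        Finset.card_erase_of_mem (Finset.mem_univ d), Finset.card_univ, nsmul_eq_mul, ← hn, Nat.cast_sub (by omega), Nat.cast_one]
    rw [h1]
    simp only [if_true]
    field_simp
    ring
  have hcg : ∀ ε : ℝ, ∀ g ∈ G, pm g (c ε) = c ε := by
    intro ε g hg
    funext i
    rw [pm_apply, hc]
    have h1 : g.symm i = d ↔ i = d := by
      constructor
      · intro h2
        rw [← hd g hg, ← h2, Equiv.apply_symm_apply]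
      · rintro rfl
        rw [Equiv.symm_apply_eq, hd g hg]
    simp only [h1]
  obtain ⟨D, hD, hDc, hDmin, hDi⟩ := carrier' h (c 0) (hcube 0 le_rfl zero_le_one) (hcsum 0) (hcg 0)
  have hDd : ∀ x ∈ D, x d = 0 := by
    obtain ⟨w, hw0, hw1, hw⟩ := Finset.mem_convexHull'.1 hDc
    have h1 : ∑ x ∈ D, w x * x d = 0 := by
      have h2 : (∑ x ∈ D, w x • x) d = 0 := by
        rw [hw, hc]
        simp
      rw [Finset.sum_apply] at h2
      exact h2
    have h01 : ∀ x ∈ D, 0 ≤ x d := by
      intro x hx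
      rcases h.vtx D hD x hx d with h2 | h2 <;> rw [h2]
      exact zero_le_one
    have h3 := (Finset.sum_eq_zero_iff_of_nonneg (fun z hz => mul_nonneg (hw0 z hz) (h01 z hz))).1 h1
    have h4 : c 0 ∈ convexHull ℝ ((D.filter fun x => x d = 0 : Finset (ι → ℝ)) : Set (ι → ℝ)) := by
      have h5 : ∀ y ∈ D, y ∉ D.filter (fun x => x d = 0) → w y = 0 := by
        intro y hy hy'
        rcases mul_eq_zero.1 (h3 y hy) with h6 | h6
        · exact h6
        · exact absurd (mem_filter.2 ⟨hy, h6⟩) hy'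
      refine Finset.mem_convexHull'.2 ⟨w, fun y hy => hw0 y (mem_filter.1 hy).1, ?_, ?_⟩
      · rw [← hw1]
        exact Finset.sum_subset (filter_subset _ _) h5
      · rw [← hw]
        exact Finset.sum_subset (filter_subset _ _) fun y hy hy' => by rw [h5 y hy hy', zero_smul]
    have h5 := hDmin _ (h.down D hD _ (filter_subset _ _) (hull_nonempty h4)) h4
    exact fun x hx => (mem_filter.1 (h5 hx)).2
  obtain ⟨δ, hδ, hnear⟩ := near' (tri_finite h) D c hcc hDmin
  set ε : ℝ := min (δ / 2) 1 with hε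
  have hε0 : 0 < ε := lt_min (by linarith) one_pos
  have hε1 : ε ≤ 1 := min_le_right _ _
  have hεδ : ε < δ := lt_of_le_of_lt (min_le_left _ _) (by linarith)
  obtain ⟨F, hF, hFc, -, hFi⟩ := carrier' h (c ε) (hcube ε hε0.le hε1) (hcsum ε) (hcg ε)
  have hDF : D ⊆ F := hnear ε hε0 hεδ F hF hFc
  set A := F.filter fun x => x d = 1 with hA
  have hAne : A.Nonempty := by
    obtain ⟨x, hxF, hxd⟩ : ∃ x ∈ F, x d ≠ 0 := by
      by_contra hcon
      push Not at hcon
      have h1 := hull_zero (LinearMap.proj d) _ (fun x hx => hcon x hx) _ hFc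
      rw [LinearMap.proj_apply, hc] at h1
      simp only [if_true] at h1
      linarith
    exact ⟨x, mem_filter.2 ⟨hxF, (h.vtx F hF x hxF d).resolve_left hxd⟩⟩
  have hgd : ∀ g ∈ G, g.symm d = d := fun g hg => by rw [Equiv.symm_apply_eq, hd g hg]
  have hAi : ∀ g ∈ G, A.image (pm g) = A := by
    intro g hg
    refine eq_of_subset_of_card_le ?_ (by rw [card_image_of_injective _ (pm_inj g)])
    intro y hy
    obtain ⟨x, hx, rfl⟩ := mem_image.1 hy
    obtain ⟨hx1, hx2⟩ := mem_filter.1 hx
    refine mem_filter.2 ⟨?_, ?_⟩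
    · rw [← hFi g hg]
      exact mem_image_of_mem _ hx1
    · rw [pm_apply, hgd g hg, hx2]
  have hFcard : F.card ≤ n := by
    have h1 := (li_family (h.li F hF)).fintype_card_le_finrank
    rwa [Module.finrank_fintype_fun_eq_card, Fintype.card_coe] at h1
  have hDA : Disjoint D A := by
    rw [Finset.disjoint_left]
    intro x hx hx'
    have h1 := hDd x hx
    rw [(mem_filter.1 hx').2] at h1
    exact one_ne_zero h1
  have hcard : D.card + A.card ≤ n := by
    rw [← card_union_of_disjoint hDA]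
    exact (card_le_card (union_subset hDF (filter_subset _ _))).trans hFcard
  have hDsum : ∀ x ∈ D, ∑ i ∈ Finset.univ.erase d, x i = (k : ℝ) := by
    intro x hx
    have h1 := h.sum D hD x hx
    rw [← Finset.add_sum_erase Finset.univ _ (Finset.mem_univ d), hDd x hx, zero_add] at h1
    exact h1
  have hAsum : ∀ x ∈ A, ∑ i ∈ Finset.univ.erase d, x i = ((k - 1 : ℕ) : ℝ) := by
    intro x hx
    obtain ⟨hx1, hx2⟩ := mem_filter.1 hx
    have h1 := h.sum F hF x hx1
    rw [← Finset.add_sum_erase Finset.univ _ (Finset.mem_univ d), hx2] at h1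
    rw [Nat.cast_sub (by omega), Nat.cast_one]
    linarith
  have hDne : D.Nonempty := hull_nonempty hDc
  have hd1 := dvd_family D (h.vtx D hD) d k hDsum hDi htr a ha
  have hd2 := dvd_family A (fun x hx => h.vtx F hF x (mem_filter.1 hx).1) d (k - 1) hAsum hAi htr a ha
  -- two elements at least
  have hD2 : 2 ≤ D.card := by
    by_contra hcon
    have h1 : D.card = 1 := by
      have := hDne.card_pos
      omega
    obtain ⟨x, hx⟩ := card_eq_one.1 h1
    rw [hx, coe_singleton, convexHull_singleton, Set.mem_singleton_iff] at hDc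
    have h2 := h.vtx D hD x (by rw [hx]; exact mem_singleton_self x) a
    rw [← hDc, hc] at h2
    simp only [if_neg ha, sub_zero] at h2
    rcases h2 with h2 | h2
    · rw [div_eq_zero_iff] at h2
      rcases h2 with h2 | h2 <;> linarith
    · rw [div_eq_one_iff_eq hu0.ne'] at h2
      linarith
  have hA2 : 2 ≤ A.card := by
    by_contra hcon
    have h1 : A.card = 1 := by
      have := hAne.card_pos
      omega
    obtain ⟨x, hx⟩ := card_eq_one.1 h1
    have hxA : x ∈ A := by
      rw [hx]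
      exact mem_singleton_self x
    have hxv := h.vtx F hF x (mem_filter.1 hxA).1 a
    have hconst : ∀ b, b ≠ d → x b = x a := by
      intro b hb
      obtain ⟨g, hg, h2⟩ := htr b a hb ha
      have h3 := hAi g hg
      rw [hx, image_singleton, singleton_inj] at h3
      have h4 := congrFun h3 a
      rw [pm_apply, ← h2, Equiv.symm_apply_apply, h2] at h4
      exact h4
    have h5 := hAsum x hxA
    rw [Finset.sum_congr rfl (fun i hi => hconst i (Finset.ne_of_mem_erase hi)), Finset.sum_const,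
      Finset.card_erase_of_mem (Finset.mem_univ d), Finset.card_univ, nsmul_eq_mul, ← hn, Nat.cast_sub (by omega), Nat.cast_one,
      Nat.cast_sub (by omega), Nat.cast_one] at h5
    rcases hxv with h6 | h6 <;> rw [h6] at h5 <;> linarith
  rcases hco with h1 | h1
  · have h2 := Nat.le_of_dvd hDne.card_pos (h1.dvd_of_dvd_mul_left hd1)
    omega
  · have h2 := Nat.le_of_dvd hAne.card_pos (h1.dvd_of_dvd_mul_left hd2)
    omega

end Pool.Agent.Lib.MP079fc8
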