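import Mathlib

/-!
MP_079fc8_co. Invariant lattice triangulations of hypersimplices: a two-transitive group leaves no lattice triangulation of
`Δ_{k,n}`, `2 ≤ k ≤ n - 2`, invariant. Here: the abstract form over an index type.
-/

set_option autoImplicit false
set_option linter.unusedSectionVars false

namespace Pool.Agent.Lib.MP079fc8

open Finset

variable {ι : Type} [Fintype ι] [DecidableEq ι]

/-- the permutation action on points -/
noncomputable def pm (g : Equiv.Perm ι) : (ι → ℝ) →ₗ[ℝ] (ι → ℝ) := LinearMap.funLeft ℝ ℝ g.symm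

theorem pm_apply (g : Equiv.Perm ι) (x : ι → ℝ) (i : ι) : pm g x i = x (g.symm i) := rfl

theorem pm_inj (g : Equiv.Perm ι) : Function.Injective (pm g) := by
  intro x y h
  funext i
  have := congrFun h (g i)
  simpa [pm_apply] using this

/-- lattice triangulations of the hypersimplex which are invariant under a set of permutations -/
structure Tri (k : ℕ) (G : Set (Equiv.Perm ι)) (T : Set (Finset (ι → ℝ))) : Prop where
  vtx : ∀ s ∈ T, ∀ x ∈ s, ∀ i, x i = 0 ∨ x i = 1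
  sum : ∀ s ∈ T, ∀ x ∈ s, ∑ i, x i = (k : ℝ)
  li : ∀ s ∈ T, ∀ w : (ι → ℝ) → ℝ, ∑ x ∈ s, w x • x = 0 → ∀ x ∈ s, w x = 0
  down : ∀ s ∈ T, ∀ t : Finset (ι → ℝ), t ⊆ s → t.Nonempty → t ∈ T
  inter : ∀ s ∈ T, ∀ t ∈ T, ∀ c : ι → ℝ, c ∈ convexHull ℝ (s : Set (ι → ℝ)) → c ∈ convexHull ℝ (t : Set (ι → ℝ)) →
    c ∈ convexHull ℝ ((s ∩ t : Finset (ι → ℝ)) : Set (ι → ℝ))
  cover : ∀ x : ι → ℝ, (∀ i, 0 ≤ x i ∧ x i ≤ 1) → ∑ i, x i = (k : ℝ) → ∃ s ∈ T, x ∈ convexHull ℝ (s : Set (ι → ℝ))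
  inv : ∀ g ∈ G, ∀ s ∈ T, s.image (pm g) ∈ T

variable {k : ℕ} {G : Set (Equiv.Perm ι)} {T : Set (Finset (ι → ℝ))}

/-- a functional nonnegative on `s` is nonnegative on the hull -/
theorem hull_nonneg (f : (ι → ℝ) →ₗ[ℝ] ℝ) (s : Set (ι → ℝ)) (h : ∀ x ∈ s, 0 ≤ f x) (c : ι → ℝ) (hc : c ∈ convexHull ℝ s) :
    0 ≤ f c := by
  have h1 : convexHull ℝ s ⊆ {x | 0 ≤ f x} := convexHull_min h (convex_halfSpace_ge f.isLinear 0)
  exact h1 hc

theorem hull_zero (f : (ι → ℝ) →ₗ[ℝ] ℝ) (s : Set (ι → ℝ)) (h : ∀ x ∈ s, f x = 0) (c : ι → ℝ) (hc : c ∈ convexHull ℝ s) :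
    f c = 0 := by
  have h1 : convexHull ℝ s ⊆ {x | f x = 0} := convexHull_min h (convex_hyperplane f.isLinear 0)
  exact h1 hc

theorem hull_nonempty {s : Finset (ι → ℝ)} {c : ι → ℝ} (hc : c ∈ convexHull ℝ (s : Set (ι → ℝ))) : s.Nonempty := by
  have h : (convexHull ℝ (s : Set (ι → ℝ))).Nonempty := ⟨c, hc⟩
  rw [convexHull_nonempty_iff] at h
  exact_mod_cast h

/-- the carrier of a fixed point is invariant, and contained in every simplex containing the point -/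
theorem carrier' (h : Tri k G T) (c : ι → ℝ) (h1 : ∀ i, 0 ≤ c i ∧ c i ≤ 1) (h2 : ∑ i, c i = (k : ℝ))
    (hc : ∀ g ∈ G, pm g c = c) :
    ∃ F ∈ T, c ∈ convexHull ℝ (F : Set (ι → ℝ)) ∧ (∀ s ∈ T, c ∈ convexHull ℝ (s : Set (ι → ℝ)) → F ⊆ s) ∧
      ∀ g ∈ G, F.image (pm g) = F := by
  classical
  have hex : ∃ n : ℕ, ∃ s ∈ T, s.card = n ∧ c ∈ convexHull ℝ (s : Set (ι → ℝ)) := by
    obtain ⟨s, hs, hcs⟩ := h.cover c h1 h2
    exact ⟨_, s, hs, rfl, hcs⟩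
  obtain ⟨F, hF, hFn, hFc⟩ := Nat.find_spec hex
  have hmin : ∀ s ∈ T, c ∈ convexHull ℝ (s : Set (ι → ℝ)) → F ⊆ s := by
    intro s hs hcs
    have h3 := h.inter F hF s hs c hFc hcs
    have h4 : F ∩ s ∈ T := h.down F hF _ inter_subset_left (hull_nonempty h3)
    have h5 : Nat.find hex ≤ (F ∩ s).card := Nat.find_min' hex ⟨_, h4, rfl, h3⟩
    have h6 : F ∩ s = F := eq_of_subset_of_card_le inter_subset_left (by omega)
    intro x hx
    rw [← h6] at hx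
    exact (mem_inter.1 hx).2
  refine ⟨F, hF, hFc, hmin, fun g hg => ?_⟩
  have hF' : F.image (pm g) ∈ T := h.inv g hg F hF
  have hc' : c ∈ convexHull ℝ ((F.image (pm g) : Finset (ι → ℝ)) : Set (ι → ℝ)) := by
    rw [coe_image, ← LinearMap.image_convexHull]
    exact ⟨c, hFc, hc g hg⟩
  exact (eq_of_subset_of_card_le (hmin _ hF' hc') card_image_le).symm

/-- the carrier of a fixed point is invariant -/
theorem carrier (h : Tri k G T) (c : ι → ℝ) (h1 : ∀ i, 0 ≤ c i ∧ c i ≤ 1) (h2 : ∑ i, c i = (k : ℝ))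
    (hc : ∀ g ∈ G, pm g c = c) :
    ∃ F ∈ T, c ∈ convexHull ℝ (F : Set (ι → ℝ)) ∧ ∀ g ∈ G, F.image (pm g) = F := by
  obtain ⟨F, hF, hFc, -, hFi⟩ := carrier' h c h1 h2 hc
  exact ⟨F, hF, hFc, hFi⟩

/-- if every simplex with the point `c 0` contains `D`, this persists nearby -/
theorem near' (hfin : T.Finite) (D : Finset (ι → ℝ)) (c : ℝ → ι → ℝ) (hc : Continuous c)
    (hD : ∀ s ∈ T, c 0 ∈ convexHull ℝ (s : Set (ι → ℝ)) → D ⊆ s) :
    ∃ δ : ℝ, 0 < δ ∧ ∀ ε, 0 < ε → ε < δ → ∀ s ∈ T, c ε ∈ convexHull ℝ (s : Set (ι → ℝ)) → D ⊆ s := by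
  classical
  set U : Set (ι → ℝ) := ⋃ s ∈ {s | s ∈ T ∧ ¬ D ⊆ s}, convexHull ℝ (s : Set (ι → ℝ)) with hU
  have hUc : IsClosed U :=
    (hfin.subset fun s hs => hs.1).isClosed_biUnion fun s _ => (s.finite_toSet).isClosed_convexHull ℝ
  have hmU : c 0 ∉ U := by
    intro hmem
    rw [hU, Set.mem_iUnion₂] at hmem
    obtain ⟨s, ⟨hs, hDs⟩, hms⟩ := hmem
    exact hDs (hD s hs hms)
  obtain ⟨δ, hδ, hball⟩ := Metric.isOpen_iff.1 (hUc.isOpen_compl.preimage hc) 0 hmU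
  refine ⟨δ, hδ, fun ε h0 h1 s hs hcs => ?_⟩
  by_contra hcon
  have h2 : c ε ∉ U := by
    refine hball ?_
    rw [Metric.mem_ball, Real.dist_eq, sub_zero, abs_of_pos h0]
    exact h1
  exact h2 (Set.mem_iUnion₂.2 ⟨s, ⟨hs, hcon⟩, hcs⟩)

end Pool.Agent.Lib.MP079fc8
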